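import Pool.Agent.Lib.MP_9f7b43_nt.G.Chord

/-!
# The height of a rational point (part G of MP_9f7b43_nt)

* `exists_primitive` : every rational point has a primitive integral representative `y`, and its
  height is `max |y_i|`;
* `mulHeight_mk_intCast_le` : the height of a point with integral coordinates `x` is at most
  `max |x_i|`.
-/

set_option linter.unusedSectionVars false

namespace MP9f7b43

variable {ι : Type} [Fintype ι]

/-- The integral vector, cast to the rational numbers. -/
def castV (y : ι → ℤ) : ι → ℚ := fun i => (y i : ℚ)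

theorem castV_ne_zero {y : ι → ℤ} (hy : y ≠ 0) : castV y ≠ 0 := by
  intro h
  apply hy
  funext i
  have := congrFun h i
  simpa [castV] using this

theorem mulHeight_of_gcd_eq_one {y : ι → ℤ} (hy : Finset.univ.gcd y = 1) (h0 : castV y ≠ 0) :
    (Projectivization.mk ℚ (castV y) h0).mulHeight = vsup (castV y) := by
  have hne : Nonempty ι := by
    by_contra h
    rw [not_nonempty_iff] at h
    exact h0 (Subsingleton.elim _ _)
  rw [Projectivization.mulHeight_mk]
  have h1 := Rat.mulHeight_eq_max_abs_of_gcd_eq_one (x := y) hy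
  have h2 : (((↑) : ℤ → ℚ) ∘ y) = castV y := rfl
  rw [h2] at h1
  rw [h1]
  unfold vsup
  rw [Finite.map_iSup_of_monotone _ Int.cast_mono]
  congr 1
  funext i
  simp [castV]

/-- Division by the gcd. -/
theorem exists_primitive_of_int {x : ι → ℤ} (hx : x ≠ 0) :
    ∃ (g : ℕ) (y : ι → ℤ), 0 < g ∧ Finset.univ.gcd y = 1 ∧ ∀ i, x i = g * y i := by
  classical
  obtain ⟨i0, hi0⟩ := Function.ne_iff.mp hx
  obtain ⟨y, hy, hgcd⟩ := Finset.extract_gcd x ⟨i0, Finset.mem_univ _⟩
  have hg0 : Finset.univ.gcd x ≠ 0 := by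
    intro h
    rw [Finset.gcd_eq_zero_iff] at h
    exact hi0 (h i0 (Finset.mem_univ _))
  have hnn : 0 ≤ Finset.univ.gcd x := by
    have := Finset.normalize_gcd (s := Finset.univ) (f := x)
    rw [← Int.abs_eq_normalize] at this
    rw [← this]
    exact abs_nonneg _
  refine ⟨(Finset.univ.gcd x).toNat, y, by omega, hgcd, fun i => ?_⟩
  rw [hy i (Finset.mem_univ _), Int.toNat_of_nonneg hnn]

/-- The height of a point with integral coordinates. -/
theorem mulHeight_mk_intCast_le {x : ι → ℤ} (h : castV x ≠ 0) :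
    (Projectivization.mk ℚ (castV x) h).mulHeight ≤ vsup (castV x) := by
  have hx : x ≠ 0 := by
    rintro rfl
    exact h (by funext i; simp [castV])
  obtain ⟨g, y, hg, hgcd, hy⟩ := exists_primitive_of_int hx
  have hy0 : castV y ≠ 0 := by
    intro h0
    apply h
    funext i
    have := congrFun h0 i
    simp only [castV, Pi.zero_apply] at this ⊢
    rw [hy i]
    push_cast
    rw [this, mul_zero]
  have h1 : castV x = (g : ℚ) • castV y := by
    funext i
    simp [castV, hy i]
  have h2 : Projectivization.mk ℚ (castV x) h = Projectivization.mk ℚ (castV y) hy0 := by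
    rw [Projectivization.mk_eq_mk_iff']
    exact ⟨(g : ℚ), h1.symm⟩
  rw [h2, mulHeight_of_gcd_eq_one hgcd, h1, vsup_smul]
  have h3 : (1 : ℝ) ≤ |((g : ℚ) : ℝ)| := by
    rw [Rat.cast_natCast, Nat.abs_cast]
    exact_mod_cast hg
  have h4 := vsup_nonneg (castV y)
  nlinarith

/-- Every rational point has a primitive integral representative. -/
theorem exists_primitive (x : Projectivization ℚ (ι → ℚ)) :
    ∃ (y : ι → ℤ) (hy : castV y ≠ 0), Finset.univ.gcd y = 1 ∧
      x = Projectivization.mk ℚ (castV y) hy ∧ x.mulHeight = vsup (castV y) := by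
  classical
  -- a common denominator
  obtain ⟨b, hb⟩ := IsLocalization.exist_integer_multiples_of_finset (nonZeroDivisors ℤ)
    (Finset.univ.image x.rep)
  have hb' : ∀ i, ∃ n : ℤ, (n : ℚ) = (b : ℤ) * x.rep i := by
    intro i
    obtain ⟨n, hn⟩ := hb (x.rep i) (Finset.mem_image_of_mem _ (Finset.mem_univ i))
    refine ⟨n, ?_⟩
    have h : (algebraMap ℤ ℚ) n = (b : ℤ) • x.rep i := hn
    simpa using h
  choose v hv using hb'
  have hb0 : ((b : ℤ) : ℚ) ≠ 0 := by
    have := nonZeroDivisors.ne_zero b.2
    exact_mod_cast this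
  have hv0 : v ≠ 0 := by
    intro h0
    apply x.rep_nonzero
    funext i
    have h1 := hv i
    rw [h0] at h1
    simp only [Pi.zero_apply, Int.cast_zero] at h1
    rcases mul_eq_zero.mp h1.symm with h | h
    · exact absurd h hb0
    · exact h
  obtain ⟨g, y, hg, hgcd, hy⟩ := exists_primitive_of_int hv0
  have hy0 : castV y ≠ 0 := by
    intro h0
    apply hv0
    funext i
    have h1 := congrFun h0 i
    simp only [castV, Pi.zero_apply, Int.cast_eq_zero] at h1
    rw [hy i, h1, mul_zero]
    rfl
  have hx : x = Projectivization.mk ℚ (castV y) hy0 := by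
    rw [← x.mk_rep, Projectivization.mk_eq_mk_iff']
    refine ⟨(g : ℚ) / ((b : ℤ) : ℚ), ?_⟩
    funext i
    have h1 := hv i
    rw [hy i] at h1
    simp only [Pi.smul_apply, smul_eq_mul, castV]
    push_cast at h1
    field_simp
    linarith
  refine ⟨y, hy0, hgcd, hx, ?_⟩
  rw [hx]
  exact mulHeight_of_gcd_eq_one hgcd hy0

end MP9f7b43
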