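import Pool.Agent.Lib.MP_9f7b43_nt.Ifc

/-!
# Recovery of a point of `K_E⁴` from its coordinates (G5, part G of MP_9f7b43_nt)
-/

namespace MP9f7b43

open MvPolynomial C31

section Identities

variable {R : Type*} [CommRing R]

/-- The adjugate: `b * adj b = N(b)`. -/
def adjC (b : Cub R) : Cub R :=
  ⟨b.a0 ^ 2 - b.a1 ^ 2 + b.a2 ^ 2 + 2 * b.a0 * b.a2 - b.a1 * b.a2, b.a2 ^ 2 - b.a0 * b.a1,
    b.a1 ^ 2 - b.a2 ^ 2 - b.a0 * b.a2⟩

theorem mul_adjC (b : Cub R) : b * adjC b = Cub.C (Cub.nm b) := by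
  ext
  · simp only [adjC, Cub.nm, Cub.mul_a0, Cub.C_a0]; ring
  · simp only [adjC, Cub.mul_a1, Cub.C_a1]; ring
  · simp only [adjC, Cub.mul_a2, Cub.C_a2]; ring

theorem nm_adjC (b : Cub R) : Cub.nm (adjC b) = Cub.nm b ^ 2 := by
  simp [adjC, Cub.nm]; ring

/-- `pol a b b = 2 tr(a * adj b)`. -/
theorem pol_self_right (a b : Cub R) : pol a b b = 2 * Cub.tr (a * adjC b) := by
  simp [pol, adjC, Cub.tr]; ring

theorem pol_self (b : Cub R) : pol b b b = 6 * Cub.nm b := by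
  simp [pol, Cub.nm, Cub.tr]; ring

/-- `pol (c a) (c b) (c d) = N(c) pol a b d`. -/
theorem pol_mul (c a b d : Cub R) : pol (c * a) (c * b) (c * d) = Cub.nm c * pol a b d := by
  simp [pol, Cub.nm, Cub.tr]; ring

/-- The element `23 t` where `tr (ρ^l t) = t_l`. -/
def rec3 (t : Fin 3 → R) : Cub R :=
  ⟨5 * t 0 - 6 * t 1 + 4 * t 2, -6 * t 0 - 2 * t 1 + 9 * t 2, 4 * t 0 + 9 * t 1 - 6 * t 2⟩

theorem rec3_tr (a : Cub R) :
    rec3 (fun l : Fin 3 => Cub.tr (Cub.rho R ^ (l : ℕ) * a)) = Cub.C 23 * a := by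
  ext <;> simp [rec3, Cub.tr, pow_succ] <;> ring

theorem tr_rec3 (t : Fin 3 → R) (l : Fin 3) :
    Cub.tr (Cub.rho R ^ (l : ℕ) * rec3 t) = 23 * t l := by
  fin_cases l <;> simp [rec3, Cub.tr, pow_succ] <;> ring

theorem map_rec3 {S : Type*} [CommRing S] (φ : R →+* S) (t : Fin 3 → R) :
    Cub.map φ (rec3 t) = rec3 fun l => φ (t l) := by
  ext <;> simp [rec3, map_ofNat]

theorem rec3_smul (c : R) (t : Fin 3 → R) :
    rec3 (fun l => c * t l) = Cub.C c * rec3 t := by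
  ext <;> simp [rec3] <;> ring

/-- The index `((k,l),(k₀,0),(k₀,0))`. -/
def recIdx (k₀ k : Fin 4) (l : Fin 3) : Idx := ![(k, l), (k₀, 0), (k₀, 0)]

/-- The vector `23 * 3 * (partial traces)` recovered from coordinates `x`. -/
def recA (x : Idx → R) (k₀ k : Fin 4) : Cub R := rec3 fun l => 3 * x (recIdx k₀ k l)

theorem map_recA {S : Type*} [CommRing S] (φ : R →+* S) (x : Idx → R) (k₀ k : Fin 4) :
    Cub.map φ (recA x k₀ k) = recA (fun J => φ (x J)) k₀ k := by
  unfold recA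
  rw [map_rec3]
  congr 1
  funext l
  rw [map_mul, map_ofNat]

theorem xJ_recIdx (z : Fin 4 → Cub R) (k₀ k : Fin 4) (l : Fin 3) :
    xJ z (recIdx k₀ k l) = 2 * Cub.tr (Cub.rho R ^ (l : ℕ) * (z k * adjC (z k₀))) := by
  have h : xJ z (recIdx k₀ k l) = pol (Cub.rho R ^ (l : ℕ) * z k) (z k₀) (z k₀) := by
    simp [xJ, recIdx]
  rw [h, pol_self_right, mul_assoc]

theorem xJ_diagIdx (z : Fin 4 → Cub R) (k : Fin 4) :
    xJ z (diagIdx k) = 6 * Cub.nm (z k) := by
  have h : xJ z (diagIdx k) = pol (z k) (z k) (z k) := by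
    simp [xJ, diagIdx]
  rw [h, pol_self]

/-- On the parametrisation `recA = 138 λ z_k adj(z_k₀)`. -/
theorem recA_xJ (lam : R) (z : Fin 4 → Cub R) (k₀ k : Fin 4) :
    recA (fun J => lam * xJ z J) k₀ k =
      Cub.C (6 * lam) * (Cub.C 23 * (z k * adjC (z k₀))) := by
  unfold recA
  rw [← rec3_tr (z k * adjC (z k₀)), ← rec3_smul]
  congr 1
  funext l
  simp only [xJ_recIdx]
  ring

/-- The three families of identities on the parametrisation. -/
theorem M0 (lam : R) (z : Fin 4 → Cub R) (k₀ : Fin 4) (l : Fin 3) :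
    3 * (lam * xJ z (recIdx k₀ k₀ l)) =
      Cub.tr (Cub.rho R ^ (l : ℕ)) * (lam * xJ z (diagIdx k₀)) := by
  rw [xJ_recIdx, xJ_diagIdx, mul_adjC]
  have : Cub.tr (Cub.rho R ^ (l : ℕ) * Cub.C (Cub.nm (z k₀))) =
      Cub.tr (Cub.rho R ^ (l : ℕ)) * Cub.nm (z k₀) := by
    simp [Cub.tr]; ring
  rw [this]
  ring

theorem xJ_mul (c : Cub R) (z : Fin 4 → Cub R) (J : Idx) :
    xJ (fun k => c * z k) J = Cub.nm c * xJ z J := by
  simp only [xJ]
  rw [← pol_mul]
  congr 1 <;> ring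

theorem nm_C (c : R) : Cub.nm (Cub.C c) = c ^ 3 := by
  simp [Cub.nm]

theorem nm_mul (a b : Cub R) : Cub.nm (a * b) = Cub.nm a * Cub.nm b := by
  simp [Cub.nm]; ring

theorem M1 (lam : R) (z : Fin 4 → Cub R) (k₀ : Fin 4) (J : Idx) :
    xJ (recA (fun J => lam * xJ z J) k₀) J =
      23 ^ 3 * 6 * ((lam * xJ z J) * (lam * xJ z (diagIdx k₀)) ^ 2) := by
  have h : recA (fun J => lam * xJ z J) k₀ =
      fun k => (Cub.C (6 * lam) * Cub.C 23 * adjC (z k₀)) * z k := by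
    funext k
    rw [recA_xJ]
    ring
  rw [h, xJ_mul, nm_mul, nm_mul, nm_C, nm_C, nm_adjC, xJ_diagIdx]
  ring

theorem FF_mul (c : R) (z : Fin 4 → R) : FF (fun k => c * z k) = c ^ 3 * FF z := by
  simp only [FF, C31.F]
  ring

theorem M2 (lam : R) (z : Fin 4 → Cub R) (hz : FF z = 0) (k₀ : Fin 4) :
    FF (recA (fun J => lam * xJ z J) k₀) = 0 := by
  have h : recA (fun J => lam * xJ z J) k₀ =
      fun k => (Cub.C (6 * lam) * Cub.C 23 * adjC (z k₀)) * z k := by
    funext k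
    rw [recA_xJ]
    ring
  rw [h, FF_mul, hz, mul_zero]

end Identities

/-! ## Membership in the ideal -/

/-- The generic parametrised vector over `R0[λ]`. -/
noncomputable def zGen (k : Fin 4) : Cub (Polynomial R0) :=
  Cub.map (Polynomial.C : R0 →+* Polynomial R0) (Theta genAlpha genU k)

theorem FF_zGen : FF zGen = 0 := by
  unfold FF zGen
  rw [← map_F, F_Theta, map_zero]

theorem psiHom_X_Q (J : Idx) :
    psiHom ℚ psiX (X J) = (Polynomial.X : Polynomial R0) * xJ zGen J := by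
  unfold psiHom
  rw [aeval_X]
  have h1 : MvPolynomial.map (algebraMap ℚ ℚ) (psiX J) = psiX J := MvPolynomial.map_id (psiX J)
  rw [h1, mul_comm]
  congr 1
  unfold psiX
  rw [map_xJ]
  rfl

/-- If a polynomial expression of the coordinates, `φ (x_J)`, vanishes on the parametrisation
then it vanishes at every zero of the ideal. -/
theorem aeval_eq_zero_of_psiHom {E : Type*} [CommRing E] [Algebra ℚ E] (x : Idx → E)
    (hx : ∀ g ∈ XI.ideal, aeval x g = 0) (q : MvPolynomial Idx ℚ)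
    (hq : psiHom ℚ psiX q = 0) : aeval x q = 0 := hx q hq

section Rec

variable {E : Type} [Field E] [Algebra ℚ E] (x : Idx → E)
  (hx : ∀ g ∈ XI.ideal, aeval x g = 0)

include hx

theorem M0_zero (k₀ : Fin 4) (l : Fin 3) :
    3 * x (recIdx k₀ k₀ l) = Cub.tr (Cub.rho E ^ (l : ℕ)) * x (diagIdx k₀) := by
  have h := aeval_eq_zero_of_psiHom x hx (3 * X (recIdx k₀ k₀ l) -
    Cub.tr (Cub.rho (MvPolynomial Idx ℚ) ^ (l : ℕ)) * X (diagIdx k₀)) (by
      rw [map_sub, map_mul, map_mul, psiHom_X_Q, psiHom_X_Q, map_ofNat]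
      have h1 : psiHom ℚ psiX (Cub.tr (Cub.rho (MvPolynomial Idx ℚ) ^ (l : ℕ))) =
          Cub.tr (Cub.rho (Polynomial R0) ^ (l : ℕ)) := by
        change ((psiHom ℚ psiX : MvPolynomial Idx ℚ →ₐ[ℚ] Polynomial R0) :
          MvPolynomial Idx ℚ →+* Polynomial R0) _ = _
        rw [map_tr, map_pow, map_rho]
      rw [h1, M0, sub_self])
  rw [map_sub, map_mul, map_mul, aeval_X, aeval_X, map_ofNat] at h
  have h1 : aeval x (Cub.tr (Cub.rho (MvPolynomial Idx ℚ) ^ (l : ℕ))) =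
      Cub.tr (Cub.rho E ^ (l : ℕ)) := by
    change ((aeval x : MvPolynomial Idx ℚ →ₐ[ℚ] E) : MvPolynomial Idx ℚ →+* E) _ = _
    rw [map_tr, map_pow, map_rho]
  rw [h1] at h
  exact sub_eq_zero.mp h

theorem M1_zero (k₀ : Fin 4) (J : Idx) :
    xJ (recA x k₀) J = 23 ^ 3 * 6 * (x J * x (diagIdx k₀) ^ 2) := by
  have h := aeval_eq_zero_of_psiHom x hx
    (xJ (recA (fun J => (X J : MvPolynomial Idx ℚ)) k₀) J -
      23 ^ 3 * 6 * (X J * X (diagIdx k₀) ^ 2)) (by
      have h1 : psiHom ℚ psiX (xJ (recA (fun J => (X J : MvPolynomial Idx ℚ)) k₀) J) =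
          xJ (recA (fun J => (Polynomial.X : Polynomial R0) * xJ zGen J) k₀) J := by
        change ((psiHom ℚ psiX : MvPolynomial Idx ℚ →ₐ[ℚ] Polynomial R0) :
          MvPolynomial Idx ℚ →+* Polynomial R0) _ = _
        rw [map_xJ]
        congr 1
        funext k
        rw [map_recA]
        congr 1
        funext J
        exact psiHom_X_Q J
      rw [map_sub, h1, M1, map_mul, map_mul, map_mul, map_pow, map_pow, psiHom_X_Q, psiHom_X_Q,
        map_ofNat, map_ofNat, sub_self])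
  have h2 : aeval x (xJ (recA (fun J => (X J : MvPolynomial Idx ℚ)) k₀) J) =
      xJ (recA x k₀) J := by
    change ((aeval x : MvPolynomial Idx ℚ →ₐ[ℚ] E) : MvPolynomial Idx ℚ →+* E) _ = _
    rw [map_xJ]
    congr 1
    funext k
    rw [map_recA]
    congr 1
    funext J
    exact aeval_X x J
  rw [map_sub, h2, map_mul, map_mul, map_mul, map_pow, map_pow, aeval_X, aeval_X, map_ofNat,
    map_ofNat] at h
  exact sub_eq_zero.mp h

theorem M2_zero (k₀ : Fin 4) : FF (recA x k₀) = 0 := by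
  set q : Cub (MvPolynomial Idx ℚ) :=
    FF (recA (fun J => (X J : MvPolynomial Idx ℚ)) k₀) with hq
  have h1 : Cub.map ((psiHom ℚ psiX : MvPolynomial Idx ℚ →ₐ[ℚ] Polynomial R0) :
      MvPolynomial Idx ℚ →+* Polynomial R0) q = 0 := by
    have : Cub.map ((psiHom ℚ psiX : MvPolynomial Idx ℚ →ₐ[ℚ] Polynomial R0) :
        MvPolynomial Idx ℚ →+* Polynomial R0) q =
        FF (recA (fun J => (Polynomial.X : Polynomial R0) * xJ zGen J) k₀) := by
      rw [hq]
      unfold FF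
      rw [map_F]
      simp only [map_recA]
      have hJ : (fun J => ((psiHom ℚ psiX : MvPolynomial Idx ℚ →ₐ[ℚ] Polynomial R0) :
          MvPolynomial Idx ℚ →+* Polynomial R0) (X J)) =
          fun J => (Polynomial.X : Polynomial R0) * xJ zGen J := by
        funext J
        exact psiHom_X_Q J
      rw [hJ]
    rw [this, M2 _ _ FF_zGen]
  have h2 : Cub.map ((aeval x : MvPolynomial Idx ℚ →ₐ[ℚ] E) : MvPolynomial Idx ℚ →+* E) q =
      FF (recA x k₀) := by
    rw [hq]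
    unfold FF
    rw [map_F]
    simp only [map_recA]
    have hJ : (fun J => ((aeval x : MvPolynomial Idx ℚ →ₐ[ℚ] E) :
        MvPolynomial Idx ℚ →+* E) (X J)) = x := by
      funext J
      exact aeval_X x J
    rw [hJ]
  rw [← h2]
  ext
  · exact aeval_eq_zero_of_psiHom x hx q.a0 (congrArg Cub.a0 h1)
  · exact aeval_eq_zero_of_psiHom x hx q.a1 (congrArg Cub.a1 h1)
  · exact aeval_eq_zero_of_psiHom x hx q.a2 (congrArg Cub.a2 h1)

end Rec

theorem gRecover : GRecover := by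
  intro E _ _ x k₀ hx hd
  have hchar : CharZero E := algebraRat.charZero E
  have h23 : (23 : E) ≠ 0 := by norm_num
  set c : E := (23 * x (diagIdx k₀))⁻¹ with hc
  have hcd : c * (23 * x (diagIdx k₀)) = 1 := inv_mul_cancel₀ (mul_ne_zero h23 hd)
  refine ⟨fun k => Cub.C c * recA x k₀ k, ?_, ?_, ?_, ?_⟩
  · have h1 : recA x k₀ k₀ = Cub.C (x (diagIdx k₀)) * Cub.C 23 := by
      unfold recA
      have : (fun l : Fin 3 => 3 * x (recIdx k₀ k₀ l)) =
          fun l : Fin 3 => x (diagIdx k₀) * Cub.tr (Cub.rho E ^ (l : ℕ) * 1) := by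
        funext l
        rw [M0_zero x hx, mul_one, mul_comm]
      rw [this, rec3_smul, rec3_tr, mul_one]
    change Cub.C c * recA x k₀ k₀ = 1
    rw [h1, ← map_mul, ← map_mul]
    have : c * (x (diagIdx k₀) * 23) = 1 := by rw [← hcd]; ring
    rw [this, map_one]
  · rw [FF_mul, M2_zero x hx, mul_zero]
  · intro J
    rw [xJ_mul, nm_C, M1_zero x hx]
    have h3 : x (diagIdx k₀) * (c ^ 3 * (23 ^ 3 * 6 * (x J * x (diagIdx k₀) ^ 2))) =
        6 * x J * (c * (23 * x (diagIdx k₀))) ^ 3 := by ring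
    rw [h3, hcd]
    ring
  · intro k l
    have h4 : Cub.rho E ^ (l : ℕ) * (Cub.C c * recA x k₀ k) =
        Cub.C c * (Cub.rho E ^ (l : ℕ) * recA x k₀ k) := by ring
    have h5 : ∀ t : Cub E, Cub.tr (Cub.C c * t) = c * Cub.tr t := by
      intro t; simp [Cub.tr]; ring
    have h6 : Cub.tr (Cub.rho E ^ (l : ℕ) * recA x k₀ k) = 23 * (3 * x (recIdx k₀ k l)) := by
      unfold recA
      rw [tr_rec3]
    rw [h4, h5, h6]
    have h7 : c * (23 * (3 * x (recIdx k₀ k l))) * x (diagIdx k₀) =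
        3 * x (recIdx k₀ k l) * (c * (23 * x (diagIdx k₀))) := by ring
    rw [h7, hcd, mul_one]
    rfl

end MP9f7b43
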