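import Pool.Agent.Lib.MP_9f7b43_nt.G.Dist
import Pool.Agent.Lib.MP_9f7b43_nt.G.Hgt
import Pool.Agent.Lib.MP_9f7b43_nt.G.Rec

/-!
# Liouville's inequality with all data: `LFine` (MP_9f7b43_nt)
-/

namespace MP9f7b43

open C31

/-- The real quadratic form controls the maximum. -/
theorem fine_real (x y ε : ℝ) (hx : |x| ≤ ε) (hy : |y| ≤ ε) (hε : 104 * ε < 3)
    (h : (x ^ 2 - x * y + y ^ 2) + 4 * x ^ 3 - 15 * x ^ 2 * y + 3 * x * y ^ 2 + 4 * y ^ 3 = 0) :
    x = 0 ∧ y = 0 := by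
  -- `M = max |x| |y|`
  set M := max |x| |y| with hM
  have hM0 : 0 ≤ M := le_max_of_le_left (abs_nonneg _)
  have hMε : M ≤ ε := max_le hx hy
  have hxM : |x| ≤ M := le_max_left _ _
  have hyM : |y| ≤ M := le_max_right _ _
  have hq : 3 / 4 * M ^ 2 ≤ x ^ 2 - x * y + y ^ 2 := by
    rcases max_choice |x| |y| with h1 | h1
    · have : M ^ 2 = x ^ 2 := by rw [hM, h1, sq_abs]
      rw [this]; nlinarith [sq_nonneg (x - 2 * y)]
    · have : M ^ 2 = y ^ 2 := by rw [hM, h1, sq_abs]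
      rw [this]; nlinarith [sq_nonneg (y - 2 * x)]
  have hc : |4 * x ^ 3 - 15 * x ^ 2 * y + 3 * x * y ^ 2 + 4 * y ^ 3| ≤ 26 * M ^ 3 := by
    have hb : ∀ (c : ℝ) (i j : ℕ), i + j = 3 → |c * (x ^ i * y ^ j)| ≤ |c| * M ^ 3 := by
      intro c i j hij
      rw [abs_mul, abs_mul, abs_pow, abs_pow, ← hij, pow_add]
      gcongr
    have b1 := hb 4 3 0 rfl
    have b2 := hb (-15) 2 1 rfl
    have b3 := hb 3 1 2 rfl
    have b4 := hb 4 0 3 rfl
    have e : 4 * x ^ 3 - 15 * x ^ 2 * y + 3 * x * y ^ 2 + 4 * y ^ 3 =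
        4 * (x ^ 3 * y ^ 0) + (-15) * (x ^ 2 * y ^ 1) + 3 * (x ^ 1 * y ^ 2)
          + 4 * (x ^ 0 * y ^ 3) := by ring
    rw [e]
    refine (abs_add_le _ _).trans ?_
    refine (add_le_add (abs_add_le _ _) le_rfl).trans ?_
    refine (add_le_add (add_le_add (abs_add_le _ _) le_rfl) le_rfl).trans ?_
    rw [abs_of_pos (by norm_num : (0 : ℝ) < 4)] at b1 b4
    rw [abs_neg, abs_of_pos (by norm_num : (0 : ℝ) < 15)] at b2
    rw [abs_of_pos (by norm_num : (0 : ℝ) < 3)] at b3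
    linarith
  have h2 := neg_abs_le (4 * x ^ 3 - 15 * x ^ 2 * y + 3 * x * y ^ 2 + 4 * y ^ 3)
  have h3 : 3 / 4 * M ^ 2 ≤ 26 * M ^ 3 := by linarith
  have hM00 : M = 0 := by
    by_contra hne
    have hpos : 0 < M := lt_of_le_of_ne hM0 (Ne.symm hne)
    have h4 : 3 / 4 ≤ 26 * M := by
      have : M ^ 2 * (3 / 4) ≤ M ^ 2 * (26 * M) := by nlinarith
      exact le_of_mul_le_mul_left this (by positivity)
    linarith
  rw [hM00] at hxM hyM
  exact ⟨abs_eq_zero.mp (le_antisymm hxM (abs_nonneg _)),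
    abs_eq_zero.mp (le_antisymm hyM (abs_nonneg _))⟩

/-- The embedding number `0` is real. -/
theorem eK_zero_real (x : Cub ℚ) : ∃ r : ℝ, eK 0 x = (r : ℂ) := by
  refine ⟨(x.a0 : ℝ) + (x.a1 : ℝ) * r1 + (x.a2 : ℝ) * r1 ^ 2, ?_⟩
  rw [emb_apply]
  push_cast
  simp

theorem eK_ne_zero (j : Fin 3) {x : Cub ℚ} (hx : x ≠ 0) : eK j x ≠ 0 := emb_rat_ne_zero j hx

theorem nm_ne_zero {x : Cub ℚ} (hx : x ≠ 0) : Cub.nm x ≠ 0 := by
  intro h
  have h1 := emb_prod (Rat.castHom ℂ) x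
  rw [h, map_zero] at h1
  have := mul_ne_zero (mul_ne_zero (eK_ne_zero 0 hx) (eK_ne_zero 1 hx)) (eK_ne_zero 2 hx)
  exact this h1

/-- The size of `z` on the surface: `|z| ≤ 90 max(|u|,|v|,1)²`. -/
theorem fine_z (u v z : ℂ) (h : C31.F u v z 1 = 0) :
    ‖z‖ ≤ 90 * max (max ‖u‖ ‖v‖) 1 ^ 2 := by
  set R := max (max ‖u‖ ‖v‖) 1 with hR
  have hR1 : 1 ≤ R := le_max_right _ _
  have hu : ‖u‖ ≤ R := (le_max_left _ _).trans (le_max_left _ _)
  have hv : ‖v‖ ≤ R := (le_max_right _ _).trans (le_max_left _ _)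
  have hR0 : 0 ≤ R := by linarith
  have h1 : z ^ 2 = -((u ^ 2 - u * v + v ^ 2 + 56) * z) -
      (4 * u ^ 3 - 15 * u ^ 2 * v + 3 * u * v ^ 2 + 4 * v ^ 3 + 931) := by
    unfold C31.F at h
    linear_combination h
  have hb : ∀ (c : ℂ) (i j : ℕ), ‖c * (u ^ i * v ^ j)‖ ≤ ‖c‖ * R ^ (i + j) := by
    intro c i j
    rw [norm_mul, norm_mul, norm_pow, norm_pow, pow_add]
    gcongr
  have hR2 : (1 : ℝ) ≤ R ^ 2 := one_le_pow₀ hR1
  have hR3 : (1 : ℝ) ≤ R ^ 3 := one_le_pow₀ hR1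
  have hq : ‖u ^ 2 - u * v + v ^ 2 + 56‖ ≤ 59 * R ^ 2 := by
    have e : u ^ 2 - u * v + v ^ 2 + 56 = 1 * (u ^ 2 * v ^ 0) + (-1) * (u ^ 1 * v ^ 1) +
        1 * (u ^ 0 * v ^ 2) + 56 := by ring
    have b1 := hb 1 2 0
    have b2 := hb (-1) 1 1
    have b3 := hb 1 0 2
    have b4 : ‖(56 : ℂ)‖ = 56 := by norm_num
    rw [e]
    refine (norm_add_le _ _).trans ?_
    refine (add_le_add (norm_add_le _ _) le_rfl).trans ?_
    refine (add_le_add (add_le_add (norm_add_le _ _) le_rfl) le_rfl).trans ?_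
    rw [norm_one] at b1 b3
    rw [norm_neg, norm_one] at b2
    rw [b4]
    norm_num at b1 b2 b3 ⊢
    linarith
  have hcub : ‖4 * u ^ 3 - 15 * u ^ 2 * v + 3 * u * v ^ 2 + 4 * v ^ 3 + 931‖ ≤ 957 * R ^ 3 := by
    have e : 4 * u ^ 3 - 15 * u ^ 2 * v + 3 * u * v ^ 2 + 4 * v ^ 3 + 931 =
        4 * (u ^ 3 * v ^ 0) + (-15) * (u ^ 2 * v ^ 1) + 3 * (u ^ 1 * v ^ 2) +
          4 * (u ^ 0 * v ^ 3) + 931 := by ring
    have b1 := hb 4 3 0
    have b2 := hb (-15) 2 1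
    have b3 := hb 3 1 2
    have b4 := hb 4 0 3
    have b5 : ‖(931 : ℂ)‖ = 931 := by norm_num
    have b6 : ‖(4 : ℂ)‖ = 4 := by norm_num
    have b7 : ‖(15 : ℂ)‖ = 15 := by norm_num
    have b8 : ‖(3 : ℂ)‖ = 3 := by norm_num
    rw [e]
    refine (norm_add_le _ _).trans ?_
    refine (add_le_add (norm_add_le _ _) le_rfl).trans ?_
    refine (add_le_add (add_le_add (norm_add_le _ _) le_rfl) le_rfl).trans ?_
    refine (add_le_add (add_le_add (add_le_add (norm_add_le _ _) le_rfl) le_rfl) le_rfl).trans ?_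
    rw [b6] at b1 b4
    rw [norm_neg, b7] at b2
    rw [b8] at b3
    rw [b5]
    norm_num at b1 b2 b3 b4 ⊢
    linarith
  have h2 : ‖z‖ ^ 2 ≤ 59 * R ^ 2 * ‖z‖ + 957 * R ^ 3 := by
    rw [← norm_pow, h1]
    refine (norm_sub_le _ _).trans ?_
    rw [norm_neg, norm_mul]
    have := norm_nonneg z
    gcongr
  by_contra hcon
  push Not at hcon
  set Z := ‖z‖ with hZ
  have hRR : R ^ 3 ≤ R ^ 2 * R ^ 2 := by
    have : R ^ 2 * R ^ 2 = R ^ 3 * R := by ring
    rw [this]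
    nlinarith
  have h3 : 59 * R ^ 2 * Z ≤ 59 / 90 * Z ^ 2 := by
    have : 0 ≤ Z := norm_nonneg z
    nlinarith
  have h4 : R ^ 2 * R ^ 2 ≤ Z ^ 2 / 8100 := by
    have h5 : 0 ≤ 90 * R ^ 2 := by positivity
    have : (90 * R ^ 2) * (90 * R ^ 2) ≤ Z * Z := mul_le_mul hcon.le hcon.le h5 (h5.trans hcon.le)
    nlinarith
  have hZ0 : 0 < Z := lt_of_le_of_lt (by positivity) hcon
  nlinarith

theorem lFine : LFine := by
  obtain ⟨C, d₀, hC, hd₀, g1, g2, -⟩ := gDist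
  obtain ⟨c₁, hc₁, hlow⟩ := exists_le_vsup_xJ
  -- constants
  set c : ℝ := min (min (1 / C) (1 / (90 * C))) (c₁ / 6) with hc
  have hc0 : 0 < c := by positivity
  have hcC : c ≤ 1 / C := (min_le_left _ _).trans (min_le_left _ _)
  have hc90 : c ≤ 1 / (90 * C) := (min_le_left _ _).trans (min_le_right _ _)
  have hcc₁ : c ≤ c₁ / 6 := min_le_right _ _
  refine ⟨c, 90, min d₀ (1 / (52 * C)), hc0, by norm_num, by positivity, ?_⟩
  intro x hx hxP hlt
  have hlt1 : chordal PX x < d₀ := hlt.trans_le (min_le_left _ _)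
  have hlt2 : chordal PX x < 1 / (52 * C) := hlt.trans_le (min_le_right _ _)
  have hpos : 0 < chordal PX x := chordal_pos hxP.symm
  refine ⟨hpos, ?_⟩
  set δ := chordal PX x with hδ
  -- a primitive representative
  obtain ⟨y, hy0, -, hxy, hH⟩ := exists_primitive x
  obtain ⟨μ, hμ⟩ := Projectivization.exists_smul_eq_mk_rep ℚ (castV y) hy0
  have hrep : ∀ J, x.rep J = (μ : ℚ) * castV y J := by
    intro J
    have : x.rep = (μ : ℚ) • castV y := by
      have h1 : x.rep = (Projectivization.mk ℚ (castV y) hy0).rep := congrArg _ hxy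
      rw [h1, ← hμ]
      rfl
    rw [this]; rfl
  have hμ0 : (μ : ℚ) ≠ 0 := μ.ne_zero
  -- the point `b` with `b 2 = 1`
  have hzero : ∀ g ∈ XI.ideal, MvPolynomial.aeval x.rep g = 0 :=
    fun g hg => rep_aeval_eq_zero XI hx g hg
  have h2ne : x.rep (diagIdx 2) ≠ 0 := g1 x hlt1
  obtain ⟨b, hb2, hFb, hbJ, -⟩ := gRecover ℚ x.rep 2 hzero h2ne
  have hbne : xJ b ≠ 0 := by
    intro h0
    have := hbJ (diagIdx 2)
    rw [h0] at this
    simp at this
    exact h2ne this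
  have hxb : x = Projectivization.mk ℚ (xJ b) hbne := by
    rw [← x.mk_rep, Projectivization.mk_eq_mk_iff']
    refine ⟨x.rep (diagIdx 2) / 6, ?_⟩
    funext J
    have := hbJ J
    simp only [Pi.smul_apply, smul_eq_mul]
    linarith
  have hbk : ∀ j k, k ≠ 2 → ‖eK j (b k)‖ ≤ C * δ := by
    intro j k hk
    have hlt' : chordal PX (Projectivization.mk ℚ (xJ b) hbne) < d₀ := by
      rw [← hxb]; exact hlt1
    have := g2 b hbne hb2 hlt' j k hk
    rwa [← hxb] at this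
  have hCδ : C * δ < 1 / 52 := by
    rw [lt_div_iff₀ (by positivity)] at hlt2 ⊢
    linarith
  -- `b 3 ≠ 0`
  have hb3 : b 3 ≠ 0 := by
    intro h3
    apply hxP
    obtain ⟨r0, hr0⟩ := eK_zero_real (b 0)
    obtain ⟨r1', hr1⟩ := eK_zero_real (b 1)
    have hF : C31.F (eK 0 (b 0)) (eK 0 (b 1)) (eK 0 (b 2)) (eK 0 (b 3)) = 0 := by
      rw [← map_F]
      have : C31.F (b 0) (b 1) (b 2) (b 3) = 0 := hFb
      rw [this, map_zero]
    rw [hb2, h3, map_one, map_zero, hr0, hr1] at hF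
    have hF' : (r0 ^ 2 - r0 * r1' + r1' ^ 2) + 4 * r0 ^ 3 - 15 * r0 ^ 2 * r1' + 3 * r0 * r1' ^ 2
        + 4 * r1' ^ 3 = 0 := by
      unfold C31.F at hF
      have : (((r0 ^ 2 - r0 * r1' + r1' ^ 2) + 4 * r0 ^ 3 - 15 * r0 ^ 2 * r1'
          + 3 * r0 * r1' ^ 2 + 4 * r1' ^ 3 : ℝ) : ℂ) = 0 := by
        push_cast
        linear_combination hF
      exact_mod_cast this
    have e0 : |r0| ≤ C * δ := by
      have := hbk 0 0 (by decide)
      rwa [hr0, Complex.norm_real, Real.norm_eq_abs] at this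
    have e1 : |r1'| ≤ C * δ := by
      have := hbk 0 1 (by decide)
      rwa [hr1, Complex.norm_real, Real.norm_eq_abs] at this
    obtain ⟨z0, z1⟩ := fine_real r0 r1' (C * δ) e0 e1 (by linarith) hF'
    have hb0 : b 0 = 0 := by
      by_contra hne
      apply eK_ne_zero 0 hne
      rw [hr0, z0, Complex.ofReal_zero]
    have hb1 : b 1 = 0 := by
      by_contra hne
      apply eK_ne_zero 0 hne
      rw [hr1, z1, Complex.ofReal_zero]
    have hbY : b = yPt (Cub ℚ) := by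
      funext k
      fin_cases k
      · exact hb0
      · exact hb1
      · exact hb2
      · exact h3
    rw [hxb]
    have : xJ b = PV := by funext J; rw [hbY]; rfl
    unfold PX
    congr 1
  have hnm : Cub.nm (b 3) ≠ 0 := nm_ne_zero hb3
  -- the inverse
  set i3 : Cub ℚ := Cub.C (Cub.nm (b 3))⁻¹ * adjC (b 3) with hi3
  have hinv : i3 * b 3 = 1 := by
    rw [hi3, mul_assoc, mul_comm (adjC (b 3)), mul_adjC, ← map_mul, inv_mul_cancel₀ hnm, map_one]
  have hnmi : Cub.nm i3 * Cub.nm (b 3) = 1 := by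
    rw [← nm_mul, hinv]
    simp [Cub.nm]
  set a : Fin 4 → Cub ℚ := fun k => i3 * b k with ha
  have ha3 : a 3 = 1 := hinv
  have hFa : FF a = 0 := by
    rw [ha, FF_mul, hFb, mul_zero]
  have hx3 : x.rep (diagIdx 3) = x.rep (diagIdx 2) * Cub.nm (b 3) := by
    have h1 := hbJ (diagIdx 3)
    rw [xJ_diagIdx] at h1
    linarith
  have h3ne : x.rep (diagIdx 3) ≠ 0 := by
    rw [hx3]; exact mul_ne_zero h2ne hnm
  have haJ : ∀ J, 6 * x.rep J = x.rep (diagIdx 3) * xJ a J := by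
    intro J
    rw [ha, xJ_mul, hx3, hbJ J]
    calc x.rep (diagIdx 2) * xJ b J = x.rep (diagIdx 2) * xJ b J * 1 := by ring
      _ = _ := by rw [← hnmi]; ring
  -- the relation of the embeddings
  have hrel : ∀ j k, eK j (a k) = eK j i3 * eK j (b k) := fun j k => by
    rw [ha]; simp only [map_mul]
  have hrel3 : ∀ j, eK j i3 * eK j (b 3) = 1 := fun j => by rw [← map_mul, hinv, map_one]
  have hrel2 : ∀ j, eK j (a 2) = eK j i3 := fun j => by rw [hrel, hb2, map_one, mul_one]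
  -- the denominator
  set D : ℕ := (y (diagIdx 3)).natAbs with hD
  have hy3 : castV y (diagIdx 3) ≠ 0 := by
    intro h0
    apply h3ne
    rw [hrep, h0, mul_zero]
  have hy3' : y (diagIdx 3) ≠ 0 := by
    intro h0
    apply hy3
    simp [castV, h0]
  have hDpos : 0 < D := Int.natAbs_pos.mpr hy3'
  have hyJ : ∀ J, 6 * castV y J = castV y (diagIdx 3) * xJ a J := by
    intro J
    have h1 := haJ J
    rw [hrep, hrep] at h1
    have h2 : (μ : ℚ) * (6 * castV y J) = (μ : ℚ) * (castV y (diagIdx 3) * xJ a J) := by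
      linarith
    exact mul_left_cancel₀ hμ0 h2
  refine ⟨a, D, hDpos, ha3, hFa, h3ne, haJ, ?_, ?_, ?_⟩
  · -- integrality
    intro k
    have hadj : adjC (1 : Cub ℚ) = 1 := by
      ext <;> simp [adjC]
    have htr : ∀ l : Fin 3, castV y (diagIdx 3) * Cub.tr (Cub.rho ℚ ^ (l : ℕ) * a k) =
        3 * castV y (recIdx 3 k l) := by
      intro l
      have h1 := hyJ (recIdx 3 k l)
      rw [xJ_recIdx, ha3, hadj, mul_one] at h1
      linarith
    have h23 : Cub.C (castV y (diagIdx 3)) * (Cub.C 23 * a k) =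
        rec3 (fun l => 3 * castV y (recIdx 3 k l)) := by
      rw [← rec3_tr, ← rec3_smul]
      congr 1
      funext l
      exact htr l
    obtain ⟨s, hs⟩ : ∃ s : ℤ, (D : ℤ) = s * y (diagIdx 3) := by
      rcases Int.natAbs_eq (y (diagIdx 3)) with h | h
      · exact ⟨1, by rw [one_mul, hD]; exact h.symm⟩
      · exact ⟨-1, by rw [hD]; omega⟩
    refine ⟨rec3 fun l => 3 * s * (3 * y (recIdx 3 k l)), ?_⟩
    have hDq : (D : ℚ) = (s : ℚ) * castV y (diagIdx 3) := by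
      have := congrArg (fun t : ℤ => (t : ℚ)) hs
      simpa [castV] using this
    have e1 : Cub.C (69 * D : ℚ) * a k =
        Cub.C (3 * s : ℚ) * (Cub.C (castV y (diagIdx 3)) * (Cub.C 23 * a k)) := by
      rw [hDq]
      have : Cub.C (69 * ((s : ℚ) * castV y (diagIdx 3))) =
          Cub.C (3 * s : ℚ) * Cub.C (castV y (diagIdx 3)) * Cub.C 23 := by
        rw [← map_mul, ← map_mul]; congr 1; ring
      rw [this]; ring
    rw [e1, h23, ← rec3_smul, map_rec3]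
    congr 1
    funext l
    simp [castV]
  · -- sizes
    intro j
    set R := max (max ‖eK j (a 0)‖ ‖eK j (a 1)‖) 1 with hR
    have hR1 : 1 ≤ R := le_max_right _ _
    have hz2 : ‖eK j (a 2)‖ ≤ 90 * R ^ 2 := by
      refine fine_z _ _ _ ?_
      have h1 : C31.F (eK j (a 0)) (eK j (a 1)) (eK j (a 2)) (eK j (a 3)) = 0 := by
        rw [← map_F]
        have : C31.F (a 0) (a 1) (a 2) (a 3) = 0 := hFa
        rw [this, map_zero]
      rwa [ha3, map_one] at h1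
    have hRle : R ≤ C * δ * ‖eK j (a 2)‖ := by
      have hn : 0 ≤ ‖eK j i3‖ := norm_nonneg _
      refine max_le (max_le ?_ ?_) ?_
      · rw [hrel j 0, hrel2, norm_mul, mul_comm]
        exact mul_le_mul_of_nonneg_right (hbk j 0 (by decide)) hn
      · rw [hrel j 1, hrel2, norm_mul, mul_comm]
        exact mul_le_mul_of_nonneg_right (hbk j 1 (by decide)) hn
      · rw [hrel2]
        have h1 : ‖eK j i3‖ * ‖eK j (b 3)‖ = 1 := by rw [← norm_mul, hrel3, norm_one]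
        rw [← h1, mul_comm]
        exact mul_le_mul_of_nonneg_right (hbk j 3 (by decide)) hn
    refine ⟨?_, hz2, ?_⟩
    · rw [div_le_iff₀ hpos]
      have h1 : R ≤ C * δ * (90 * R ^ 2) := hRle.trans (by gcongr)
      have h2 : 1 ≤ 90 * C * (R * δ) := by
        have hR0 : 0 < R := by linarith
        have : R * 1 ≤ R * (90 * C * (R * δ)) := by nlinarith
        exact le_of_mul_le_mul_left this hR0
      calc c ≤ 1 / (90 * C) := hc90
        _ ≤ R * δ := by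
          rw [div_le_iff₀ (by positivity)]; linarith
    · have h1 : c * C ≤ 1 := by
        rwa [le_div_iff₀ hC] at hcC
      have hn : 0 ≤ ‖eK j (a 2)‖ := norm_nonneg _
      calc c * R ≤ c * (C * δ * ‖eK j (a 2)‖) := by gcongr
        _ = (c * C) * (δ * ‖eK j (a 2)‖) := by ring
        _ ≤ 1 * (δ * ‖eK j (a 2)‖) := by gcongr
        _ = δ * ‖eK j (a 2)‖ := by ring
  · -- the height
    rw [hH]
    have h1 : castV y = (castV y (diagIdx 3) / 6) • xJ a := by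
      funext J
      have := hyJ J
      simp only [Pi.smul_apply, smul_eq_mul]
      linarith
    have h2 : vsup (castV y) = |((castV y (diagIdx 3) / 6 : ℚ) : ℝ)| * vsup (xJ a) := by
      conv_lhs => rw [h1]
      rw [vsup_smul]
    have h3 : |((castV y (diagIdx 3) / 6 : ℚ) : ℝ)| = D / 6 := by
      push_cast
      rw [abs_div, abs_of_pos (by norm_num : (0 : ℝ) < 6)]
      congr 1
      simp only [castV]
      push_cast
      rw [hD, Nat.cast_natAbs, Int.cast_abs]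
    have h4 := hlow a fun _ => 2
    have h5 : ‖eK 0 (a 2)‖ * ‖eK 1 (a 2)‖ * ‖eK 2 (a 2)‖ = ∏ j, ‖eK j (a 2)‖ := by
      rw [Fin.prod_univ_three]
    rw [h5] at h4
    rw [h2, h3]
    have hP0 : 0 ≤ ∏ j, ‖eK j (a 2)‖ := Finset.prod_nonneg fun j _ => norm_nonneg _
    have hD0 : (0 : ℝ) ≤ D := Nat.cast_nonneg _
    calc c * D * ∏ j, ‖eK j (a 2)‖ ≤ c₁ / 6 * D * ∏ j, ‖eK j (a 2)‖ := by gcongr
      _ = D / 6 * (c₁ * ∏ j, ‖eK j (a 2)‖) := by ring
      _ ≤ D / 6 * vsup (xJ a) := by gcongr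

end MP9f7b43
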