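import Pool.Agent.Lib.MP_9f7b43_nt.G.Base

/-!
# Rational points of `X` (part G of MP_9f7b43_nt)
-/

namespace MP9f7b43

open MvPolynomial C31

section General

variable {ι : Type} [Fintype ι]

omit [Fintype ι] in
theorem eval_eq_aeval (x : ι → ℚ) (g : MvPolynomial ι ℚ) : eval x g = aeval x g := by
  rw [aeval_def, eval, coe_eval₂Hom]
  rfl

/-- The vanishing of all elements of the ideal only depends on the point of projective space. -/
theorem aeval_smul_eq_zero (V : ProjVar ι) {A : Type*} [CommRing A] [Algebra ℚ A] (c : A)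
    (x : ι → A) (h : ∀ g ∈ V.ideal, aeval x g = 0) (g : MvPolynomial ι ℚ) (hg : g ∈ V.ideal) :
    aeval (fun J => c * x J) g = 0 := by
  have hs : g = ∑ d ∈ Finset.range (g.totalDegree + 1), homogeneousComponent d g :=
    (sum_homogeneousComponent g).symm
  rw [hs, map_sum]
  refine Finset.sum_eq_zero fun d _ => ?_
  rw [aeval_mul_of_isHomogeneous (homogeneousComponent_isHomogeneous d g),
    h _ (V.homogeneous g hg d), mul_zero]

/-- Criterion for rational points in terms of any representative. -/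
theorem mk_mem_points (V : ProjVar ι) (x : ι → ℚ) (hx : x ≠ 0) :
    Projectivization.mk ℚ x hx ∈ V.points ↔ ∀ g ∈ V.ideal, aeval x g = 0 := by
  obtain ⟨a, ha⟩ := Projectivization.exists_smul_eq_mk_rep ℚ x hx
  have ha' : (Projectivization.mk ℚ x hx).rep = fun J => (a : ℚ) * x J := by
    rw [← ha]; rfl
  have hx' : x = fun J => ((a⁻¹ : ℚˣ) : ℚ) * (Projectivization.mk ℚ x hx).rep J := by
    rw [ha']
    funext J
    rw [← mul_assoc, Units.inv_mul, one_mul]
  constructor
  · intro h g hg
    rw [hx']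
    refine aeval_smul_eq_zero V _ _ (fun g hg => ?_) g hg
    rw [← eval_eq_aeval]
    exact h g hg
  · intro h g hg
    rw [eval_eq_aeval, ha']
    exact aeval_smul_eq_zero V _ _ h g hg

theorem rep_aeval_eq_zero (V : ProjVar ι) {x : Projectivization ℚ (ι → ℚ)} (hx : x ∈ V.points)
    (g : MvPolynomial ι ℚ) (hg : g ∈ V.ideal) : aeval x.rep g = 0 := by
  rw [← eval_eq_aeval]
  exact hx g hg

/-- The vanishing of a form at a representative. -/
theorem eval_rep_mk_eq_zero_iff {g : MvPolynomial ι ℚ} {d : ℕ} (hd : g.IsHomogeneous d)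
    (x : ι → ℚ) (hx : x ≠ 0) :
    eval (Projectivization.mk ℚ x hx).rep g = 0 ↔ aeval x g = 0 := by
  obtain ⟨a, ha⟩ := Projectivization.exists_smul_eq_mk_rep ℚ x hx
  have ha' : (Projectivization.mk ℚ x hx).rep = fun J => (a : ℚ) * x J := by
    rw [← ha]; rfl
  rw [eval_eq_aeval, ha', aeval_mul_of_isHomogeneous hd]
  simp

end General

/-- The rational point of `X` with parameters `α, U`. -/
theorem mk_Theta_mem_points (α U : Cub ℚ) (h : xJ (Theta α U) ≠ 0) :
    Projectivization.mk ℚ (xJ (Theta α U)) h ∈ XI.points := by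
  rw [mk_mem_points]
  intro g hg
  have := aeval_xJ_Theta_eq_zero α U 1 g hg
  simpa using this

/-- The same for any `z ∈ K⁴` proportional to `Θ(α, U)` by a rational factor. -/
theorem mk_mem_points_of_smul (α U : Cub ℚ) (z : Fin 4 → Cub ℚ) (c : ℚ) (hc : c ≠ 0)
    (hz : ∀ J, xJ (Theta α U) J = c * xJ z J) (h : xJ z ≠ 0) :
    Projectivization.mk ℚ (xJ z) h ∈ XI.points := by
  rw [mk_mem_points]
  intro g hg
  have := aeval_xJ_Theta_eq_zero α U c⁻¹ g hg
  have h2 : (fun J => c⁻¹ * xJ (Theta α U) J) = xJ z := by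
    funext J
    rw [hz J, ← mul_assoc, inv_mul_cancel₀ hc, one_mul]
  rwa [h2] at this

/-- The point `P`. -/
noncomputable def PX : Projectivization ℚ (Idx → ℚ) := Projectivization.mk ℚ PV PV_ne_zero

theorem PX_mem_points : PX ∈ XI.points :=
  mk_mem_points_of_smul 0 0 (yPt (Cub ℚ)) ((-2395575) ^ 3) (by norm_num)
    xJ_Theta_zero_zero PV_ne_zero

end MP9f7b43
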