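import Pool.Agent.Lib.MP_9f7b43_nt.G.Size

/-!
# Distances to the point `P` (part G of MP_9f7b43_nt)

`PX = mk PV`.  For `a ∈ K⁴` with `a_2 = 1` the chordal distance of `x(a)` and `PX` is comparable
to `max_j max_{k ≠ 2} |a_k^(j)|`.
-/

namespace MP9f7b43

open C31

theorem norm_rt_le (j : Fin 3) : ‖rt j‖ ≤ 2 := by
  fin_cases j
  · simp only [Fin.zero_eta, rt_zero, Complex.norm_real, Real.norm_eq_abs]
    rw [abs_of_pos r1_pos]; linarith [r1_lt]
  · simp only [Fin.mk_one, rt_one]; linarith [norm_r2_lt_one]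
  · simp only [Fin.reduceFinMk, rt_two, RCLike.norm_conj]; linarith [norm_r2_lt_one]

theorem norm_rt_pow_le (j n : Fin 3) : ‖rt j ^ (n : ℕ)‖ ≤ 4 := by
  rw [norm_pow]
  have h3 : ‖rt j‖ ^ (n : ℕ) ≤ 2 ^ (n : ℕ) := pow_le_pow_left₀ (norm_nonneg _) (norm_rt_le j) _
  refine h3.trans ?_
  fin_cases n <;> norm_num

/-- Upper bound for a single coordinate. -/
theorem abs_xJ_le (z : Fin 4 → Cub ℚ) (k : Fin 3 → Fin 4) (l : Fin 3 → Fin 3) (b : Fin 3 → ℝ)
    (hb0 : ∀ i, 0 ≤ b i) (hb : ∀ i j, ‖eK j (z (k i))‖ ≤ b i) :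
    |((xJ z (fun i => (k i, l i)) : ℚ) : ℝ)| ≤ 384 * (b 0 * b 1 * b 2) := by
  have h1 : ∀ (j i : Fin 3), ‖rt j ^ (l i : ℕ) * eK j (z (k i))‖ ≤ 4 * b i := by
    intro j i
    rw [norm_mul]
    exact mul_le_mul (norm_rt_pow_le j _) (hb i j) (norm_nonneg _) (by norm_num)
  have h3 : ∀ (a b' c : Fin 3),
      ‖(rt a ^ (l 0 : ℕ) * eK a (z (k 0))) * (rt b' ^ (l 1 : ℕ) * eK b' (z (k 1))) *
        (rt c ^ (l 2 : ℕ) * eK c (z (k 2)))‖ ≤ 64 * (b 0 * b 1 * b 2) := by
    intro a b' c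
    rw [norm_mul, norm_mul]
    calc _ ≤ (4 * b 0) * (4 * b 1) * (4 * b 2) := by
          refine mul_le_mul (mul_le_mul (h1 a 0) (h1 b' 1) (norm_nonneg _) ?_) (h1 c 2)
            (norm_nonneg _) ?_
          · have := hb0 0; positivity
          · have := hb0 0; have := hb0 1; positivity
      _ = _ := by ring
  have h5 : ‖((xJ z (fun i => (k i, l i)) : ℚ) : ℂ)‖ =
      |((xJ z (fun i => (k i, l i)) : ℚ) : ℝ)| := by
    rw [← Complex.ofReal_ratCast, Complex.norm_real, Real.norm_eq_abs]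
  rw [← h5, cast_xJ z k l]
  refine (norm_add_le _ _).trans ?_
  refine (add_le_add (norm_add_le _ _) le_rfl).trans ?_
  refine (add_le_add (add_le_add (norm_add_le _ _) le_rfl) le_rfl).trans ?_
  refine (add_le_add (add_le_add (add_le_add (norm_add_le _ _) le_rfl) le_rfl) le_rfl).trans ?_
  refine (add_le_add (add_le_add (add_le_add (add_le_add (norm_add_le _ _) le_rfl) le_rfl)
    le_rfl) le_rfl).trans ?_
  have g1 := h3 0 1 2
  have g2 := h3 0 2 1
  have g3 := h3 1 0 2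
  have g4 := h3 1 2 0
  have g5 := h3 2 0 1
  have g6 := h3 2 1 0
  linarith

/-- Lower bound from the coordinates with given `k`. -/
theorem exists_prod_le_of_xJ_le : ∃ D : ℝ, 0 < D ∧ ∀ (z : Fin 4 → Cub ℚ) (k : Fin 3 → Fin 4)
    (B : ℝ), (∀ l : Fin 3 → Fin 3, |((xJ z (fun i => (k i, l i)) : ℚ) : ℝ)| ≤ B) →
    ‖eK 0 (z (k 0))‖ * ‖eK 1 (z (k 1))‖ * ‖eK 2 (z (k 2))‖ ≤ D * B := by
  obtain ⟨d, hd⟩ := exists_dualRoots
  set D : ℝ := ∑ l0, ∑ l1, ∑ l2, ‖d 0 l0 * d 1 l1 * d 2 l2‖ with hD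
  have hD0 : 0 ≤ D := Finset.sum_nonneg fun _ _ => Finset.sum_nonneg fun _ _ =>
    Finset.sum_nonneg fun _ _ => norm_nonneg _
  refine ⟨D + 1, by positivity, fun z k B hB => ?_⟩
  have hB0 : 0 ≤ B := (abs_nonneg _).trans (hB 0)
  have h1 := sum_dual_xJ hd z k
  have h2 : ‖eK 0 (z (k 0))‖ * ‖eK 1 (z (k 1))‖ * ‖eK 2 (z (k 2))‖ ≤ D * B := by
    rw [← norm_mul, ← norm_mul, ← h1, hD]
    rw [Finset.sum_mul]
    refine (norm_sum_le _ _).trans (Finset.sum_le_sum fun l0 _ => ?_)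
    rw [Finset.sum_mul]
    refine (norm_sum_le _ _).trans (Finset.sum_le_sum fun l1 _ => ?_)
    rw [Finset.sum_mul]
    refine (norm_sum_le _ _).trans (Finset.sum_le_sum fun l2 _ => ?_)
    rw [norm_mul]
    refine mul_le_mul_of_nonneg_left ?_ (norm_nonneg _)
    rw [← Complex.ofReal_ratCast, Complex.norm_real, Real.norm_eq_abs]
    exact hB _
  nlinarith

theorem pol_zero_left {R : Type*} [CommRing R] (b c : Cub R) : pol 0 b c = 0 := by
  have h0 : Cub.tr (0 : Cub R) = 0 := by simp [Cub.tr]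
  simp [pol, h0]

theorem pol_zero_mid {R : Type*} [CommRing R] (a c : Cub R) : pol a 0 c = 0 := by
  have h0 : Cub.tr (0 : Cub R) = 0 := by simp [Cub.tr]
  simp [pol, h0]

theorem pol_zero_right {R : Type*} [CommRing R] (a b : Cub R) : pol a b 0 = 0 := by
  have h0 : Cub.tr (0 : Cub R) = 0 := by simp [Cub.tr]
  simp [pol, h0]

/-- `P_J = 0` unless all three `k` are `2`. -/
theorem PV_eq_zero {J : Idx} {i : Fin 3} (hJ : (J i).1 ≠ 2) : PV J = 0 := by
  have h0 : ∀ k : Fin 4, k ≠ 2 → yPt (Cub ℚ) k = 0 := by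
    intro k hk
    fin_cases k
    · rfl
    · rfl
    · exact absurd rfl hk
    · rfl
  have h1 := h0 _ hJ
  unfold PV xJ
  fin_cases i
  · simp only [Fin.zero_eta] at h1
    rw [h1, mul_zero, pol_zero_left]
  · simp only [Fin.mk_one] at h1
    rw [h1, mul_zero, pol_zero_mid]
  · simp only [Fin.reduceFinMk] at h1
    rw [h1, mul_zero, pol_zero_right]

/-- If `a_2 = 1`, the coordinates with all three `k` equal to `2` agree with those of `P`. -/
theorem xJ_eq_PV {a : Fin 4 → Cub ℚ} (ha : a 2 = 1) {J : Idx} (hJ : ∀ i, (J i).1 = 2) :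
    xJ a J = PV J := by
  unfold PV xJ
  rw [hJ 0, hJ 1, hJ 2, ha]
  rfl

theorem abs_le_of_chordal {x y : Idx → ℚ} (hx : x ≠ 0) (hy : y ≠ 0) (i j : Idx) :
    |((x i * y j - x j * y i : ℚ) : ℝ)| ≤
      chordal (Projectivization.mk ℚ x hx) (Projectivization.mk ℚ y hy) * (vsup x * vsup y) := by
  rw [chordal_mk, div_mul_cancel₀ _ (mul_pos (vsup_pos hx) (vsup_pos hy)).ne']
  exact abs_le_wsup x y i j

theorem abs_le_of_chordal_PX {y : Idx → ℚ} (hy : y ≠ 0) (i j : Idx) :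
    |((PV i * y j - PV j * y i : ℚ) : ℝ)| ≤
      chordal PX (Projectivization.mk ℚ y hy) * (vsup PV * vsup y) :=
  abs_le_of_chordal PV_ne_zero hy i j

theorem PV_diag_real : ((PV (diagIdx 2) : ℚ) : ℝ) = 6 := by rw [PV_diag]; norm_num

/-- Near `P` the coordinate `x_(2,2,2)` is not zero. -/
theorem ne_zero_of_chordal_lt {x : Idx → ℚ} (hx : x ≠ 0)
    (h : chordal PX (Projectivization.mk ℚ x hx) < 6 / vsup PV) : x (diagIdx 2) ≠ 0 := by
  intro h0
  obtain ⟨i, hi⟩ := exists_vsup_eq hx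
  have h1 := abs_le_of_chordal_PX hx (diagIdx 2) i
  rw [h0, mul_zero, sub_zero] at h1
  have hp := vsup_pos PV_ne_zero
  have hxp := vsup_pos hx
  have h2 : |((PV (diagIdx 2) * x i : ℚ) : ℝ)| = 6 * vsup x := by
    push_cast
    rw [abs_mul, PV_diag_real, hi]
    norm_num
  rw [h2] at h1
  rw [lt_div_iff₀ hp] at h
  nlinarith

/-- The coordinates with all three `k` equal to `2`, real form of the norm. -/
theorem xJ_all_two {z : Fin 4 → Cub ℚ} {J : Idx} (hJ : ∀ i, (J i).1 = 2) :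
    ((xJ z J : ℚ) : ℂ) = ((PV J : ℚ) : ℂ) * (eK 0 (z 2) * eK 1 (z 2) * eK 2 (z 2)) := by
  have h6 : (fun i => ((J i).1, (J i).2)) = J := by funext i; rfl
  have h1 := cast_xJ z (fun i => (J i).1) (fun i => (J i).2)
  have h2 := cast_xJ (yPt (Cub ℚ)) (fun i => (J i).1) (fun i => (J i).2)
  rw [h6] at h1 h2
  have h3 : ((PV J : ℚ) : ℂ) = ((xJ (yPt (Cub ℚ)) J : ℚ) : ℂ) := rfl
  have hy : ∀ j, eK j (yPt (Cub ℚ) 2) = 1 := fun j => map_one _
  rw [h3, h2, h1]
  simp only [hJ, hy]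
  ring

/-- Upper bounds for the distance and the maximum of the coordinates of `x(z)`. -/
theorem up_chordal (z : Fin 4 → Cub ℚ) (h : xJ z ≠ 0) (η : ℝ) (hη0 : 0 ≤ η) (hη1 : η ≤ 1)
    (hz : ∀ j k, k ≠ 2 → ‖eK j (z k)‖ ≤ η * ‖eK j (z 2)‖) :
    chordal PX (Projectivization.mk ℚ (xJ z) h) ≤ 64 * η ∧
      vsup (xJ z) ≤ 384 * ∏ j, ‖eK j (z 2)‖ := by
  set N : ℝ := ∏ j, ‖eK j (z 2)‖ with hN
  have hN3 : N = ‖eK 0 (z 2)‖ * ‖eK 1 (z 2)‖ * ‖eK 2 (z 2)‖ := by
    rw [hN, Fin.prod_univ_three]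
  have hle : ∀ j k, ‖eK j (z k)‖ ≤ ‖eK j (z 2)‖ := by
    intro j k
    by_cases hk : k = 2
    · rw [hk]
    · refine (hz j k hk).trans ?_
      have := norm_nonneg (eK j (z 2))
      nlinarith
  have hnrm : ∀ j, nrm z j ≤ ‖eK j (z 2)‖ := fun j => nrm_le (norm_nonneg _) (hle j)
  have hup : vsup (xJ z) ≤ 384 * N := by
    refine (vsup_xJ_le z).trans ?_
    refine mul_le_mul_of_nonneg_left ?_ (by norm_num)
    exact Finset.prod_le_prod (fun j _ => nrm_nonneg z j) fun j _ => hnrm j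
  refine ⟨?_, hup⟩
  have hN0 : 0 < N := by
    have := vsup_pos h
    nlinarith
  -- the coordinates with some `k ≠ 2`
  have hx : ∀ J : Idx, (∃ i, (J i).1 ≠ 2) → |((xJ z J : ℚ) : ℝ)| ≤ 384 * (η * N) := by
    rintro J ⟨i, hJ⟩
    have h6 : (fun i => ((J i).1, (J i).2)) = J := by funext i; rfl
    have h1 := cast_xJ z (fun i => (J i).1) (fun i => (J i).2)
    rw [h6] at h1
    have h5 : ‖((xJ z J : ℚ) : ℂ)‖ = |((xJ z J : ℚ) : ℝ)| := by
      rw [← Complex.ofReal_ratCast, Complex.norm_real, Real.norm_eq_abs]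
    -- one factor
    have hf : ∀ (a m : Fin 3), ‖rt a ^ ((J m).2 : ℕ) * eK a (z (J m).1)‖ ≤
        4 * ‖eK a (z 2)‖ := by
      intro a m
      rw [norm_mul]
      exact mul_le_mul (norm_rt_pow_le a _) (hle a _) (norm_nonneg _) (by norm_num)
    have hfi : ∀ (a : Fin 3), ‖rt a ^ ((J i).2 : ℕ) * eK a (z (J i).1)‖ ≤
        4 * (η * ‖eK a (z 2)‖) := by
      intro a
      rw [norm_mul]
      exact mul_le_mul (norm_rt_pow_le a _) (hz a _ hJ) (norm_nonneg _) (by norm_num)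
    have h3 : ∀ (a b c : Fin 3),
        ‖eK a (z 2)‖ * ‖eK b (z 2)‖ * ‖eK c (z 2)‖ = N →
        ‖(rt a ^ ((J 0).2 : ℕ) * eK a (z (J 0).1)) * (rt b ^ ((J 1).2 : ℕ) * eK b (z (J 1).1)) *
          (rt c ^ ((J 2).2 : ℕ) * eK c (z (J 2).1))‖ ≤ 64 * (η * N) := by
      intro a b c he
      rw [norm_mul, norm_mul]
      have na := norm_nonneg (eK a (z 2))
      have nb := norm_nonneg (eK b (z 2))
      have nc := norm_nonneg (eK c (z 2))
      have key : ∀ x y w x' y' w' : ℝ, 0 ≤ x → 0 ≤ y → 0 ≤ w → x ≤ x' → y ≤ y' → w ≤ w' →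
          x * y * w ≤ x' * y' * w' := by
        intro x y w x' y' w' hx hy hw h1 h2 h3
        have hx' := hx.trans h1
        have hy' := hy.trans h2
        exact mul_le_mul (mul_le_mul h1 h2 hy hx') h3 hw (mul_nonneg hx' hy')
      fin_cases i
      · refine (key _ _ _ _ _ _ (norm_nonneg _) (norm_nonneg _) (norm_nonneg _)
          (hfi a) (hf b 1) (hf c 2)).trans (le_of_eq ?_)
        rw [← he]; ring
      · refine (key _ _ _ _ _ _ (norm_nonneg _) (norm_nonneg _) (norm_nonneg _)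
          (hf a 0) (hfi b) (hf c 2)).trans (le_of_eq ?_)
        rw [← he]; ring
      · refine (key _ _ _ _ _ _ (norm_nonneg _) (norm_nonneg _) (norm_nonneg _)
          (hf a 0) (hf b 1) (hfi c)).trans (le_of_eq ?_)
        rw [← he]; ring
    rw [← h5, h1]
    refine (norm_add_le _ _).trans ?_
    refine (add_le_add (norm_add_le _ _) le_rfl).trans ?_
    refine (add_le_add (add_le_add (norm_add_le _ _) le_rfl) le_rfl).trans ?_
    refine (add_le_add (add_le_add (add_le_add (norm_add_le _ _) le_rfl) le_rfl) le_rfl).trans ?_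
    refine (add_le_add (add_le_add (add_le_add (add_le_add (norm_add_le _ _) le_rfl) le_rfl)
      le_rfl) le_rfl).trans ?_
    have g1 := h3 0 1 2 hN3.symm
    have g2 := h3 0 2 1 (by rw [hN3]; ring)
    have g3 := h3 1 0 2 (by rw [hN3]; ring)
    have g4 := h3 1 2 0 (by rw [hN3]; ring)
    have g5 := h3 2 0 1 (by rw [hN3]; ring)
    have g6 := h3 2 1 0 (by rw [hN3]; ring)
    linarith
  have hp0 : 0 < vsup PV := vsup_pos PV_ne_zero
  have hv : 6 * N ≤ vsup (xJ z) := by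
    have h4 := abs_le_vsup (xJ z) (diagIdx 2)
    have h5 : ‖((xJ z (diagIdx 2) : ℚ) : ℂ)‖ = |((xJ z (diagIdx 2) : ℚ) : ℝ)| := by
      rw [← Complex.ofReal_ratCast, Complex.norm_real, Real.norm_eq_abs]
    have h6 : ‖((PV (diagIdx 2) : ℚ) : ℂ)‖ = 6 := by
      rw [PV_diag]; norm_num
    rw [← h5, xJ_all_two (fun i => rfl), norm_mul, norm_mul, norm_mul, h6, ← hN3] at h4
    exact h4
  have hw : wsup PV (xJ z) ≤ vsup PV * (384 * (η * N)) := by
    have hnn : 0 ≤ 384 * (η * N) := by positivity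
    refine wsup_le (mul_nonneg hp0.le hnn) fun i j => ?_
    by_cases hi : ∀ m, (i m).1 = 2
    · by_cases hj : ∀ m, (j m).1 = 2
      · have h0 : PV i * xJ z j - PV j * xJ z i = 0 := by
          have : ((PV i * xJ z j - PV j * xJ z i : ℚ) : ℂ) = 0 := by
            push_cast
            rw [xJ_all_two hi, xJ_all_two hj]
            ring
          exact_mod_cast this
        rw [h0, Rat.cast_zero, abs_zero]
        exact mul_nonneg hp0.le hnn
      · push Not at hj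
        obtain ⟨m, hm⟩ := hj
        rw [PV_eq_zero hm, zero_mul, sub_zero]
        push_cast
        rw [abs_mul]
        exact mul_le_mul (abs_le_vsup PV i) (hx j ⟨m, hm⟩) (abs_nonneg _) hp0.le
    · push Not at hi
      obtain ⟨m, hm⟩ := hi
      rw [PV_eq_zero hm, zero_mul, zero_sub]
      push_cast
      rw [abs_neg, abs_mul]
      exact mul_le_mul (abs_le_vsup PV j) (hx i ⟨m, hm⟩) (abs_nonneg _) hp0.le
  rw [PX, chordal_mk, div_le_iff₀ (mul_pos (vsup_pos PV_ne_zero) (vsup_pos h))]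
  refine hw.trans ?_
  have h9 : 64 * η * (vsup PV * (6 * N)) ≤ 64 * η * (vsup PV * vsup (xJ z)) := by
    gcongr
  calc _ = 64 * η * (vsup PV * (6 * N)) := by ring
    _ ≤ _ := h9

/-- G6 (distances). -/
theorem gDist : GDist := by
  obtain ⟨D, hD, hDz⟩ := exists_prod_le_of_xJ_le
  set p := vsup PV with hp
  have hp0 : 0 < p := vsup_pos PV_ne_zero
  refine ⟨D * p ^ 2 + 64, 3 / p, by positivity, by positivity, ?_, ?_, ?_⟩
  · intro x hx
    have h1 : chordal PX (Projectivization.mk ℚ x.rep x.rep_nonzero) < 6 / vsup PV := by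
      rw [x.mk_rep]
      refine hx.trans ?_
      rw [← hp]
      gcongr
      norm_num
    exact ne_zero_of_chordal_lt x.rep_nonzero h1
  · intro a ha h2 hlt j k hk
    set δ := chordal PX (Projectivization.mk ℚ (xJ a) ha) with hδ
    have hδ0 : 0 ≤ δ := chordal_nonneg _ _
    have hv : 0 < vsup (xJ a) := vsup_pos ha
    -- coordinates with some `k ≠ 2`
    have h3 : ∀ J : Idx, (∃ i, (J i).1 ≠ 2) →
        |((xJ a J : ℚ) : ℝ)| ≤ δ * p * vsup (xJ a) / 6 := by
      rintro J ⟨i, hJ⟩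
      have h4 := abs_le_of_chordal_PX ha (diagIdx 2) J
      rw [PV_eq_zero hJ, zero_mul, sub_zero] at h4
      push_cast at h4
      rw [abs_mul, PV_diag_real, abs_of_pos (by norm_num : (0 : ℝ) < 6)] at h4
      rw [le_div_iff₀ (by norm_num)]
      calc _ = 6 * |((xJ a J : ℚ) : ℝ)| := by ring
        _ ≤ _ := h4
        _ = _ := by ring
    have hδp : δ * p < 3 := by rwa [lt_div_iff₀ hp0] at hlt
    have h5 : vsup (xJ a) ≤ p := by
      by_contra hcon
      push Not at hcon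
      obtain ⟨J, hJ⟩ := exists_vsup_eq ha
      by_cases hJ2 : ∀ i, (J i).1 = 2
      · rw [xJ_eq_PV h2 hJ2] at hJ
        have := abs_le_vsup PV J
        rw [hJ] at this
        linarith
      · push Not at hJ2
        have h6 := h3 J hJ2
        rw [hJ] at h6
        nlinarith
    have h7 : ∀ J : Idx, (∃ i, (J i).1 ≠ 2) → |((xJ a J : ℚ) : ℝ)| ≤ δ * p ^ 2 := by
      intro J hJ
      refine (h3 J hJ).trans ?_
      rw [div_le_iff₀ (by norm_num)]
      have : δ * p * vsup (xJ a) ≤ δ * p * p := by gcongr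
      have : 0 ≤ δ * p * p := by positivity
      nlinarith
    have h8 : ‖eK j (a k)‖ ≤ D * (δ * p ^ 2) := by
      have h1' : ∀ j, ‖eK j (a 2)‖ = 1 := by intro j; rw [h2, map_one, norm_one]
      fin_cases j
      · have := hDz a ![k, 2, 2] (δ * p ^ 2) fun l => h7 _ ⟨0, hk⟩
        simpa [h1'] using this
      · have := hDz a ![2, k, 2] (δ * p ^ 2) fun l => h7 _ ⟨1, hk⟩
        simpa [h1'] using this
      · have := hDz a ![2, 2, k] (δ * p ^ 2) fun l => h7 _ ⟨2, hk⟩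
        simpa [h1'] using this
    calc ‖eK j (a k)‖ ≤ D * (δ * p ^ 2) := h8
      _ ≤ (D * p ^ 2 + 64) * δ := by nlinarith
  · intro a ha h2 η hη0 hη1 hη
    have h3 := (up_chordal a ha η hη0 hη1 fun j k hk => by
      rw [h2, map_one, norm_one, mul_one]; exact hη j k hk).1
    refine h3.trans ?_
    have : 0 ≤ D * p ^ 2 * η := by positivity
    linarith

end MP9f7b43
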