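import Pool.Agent.Lib.MP_9f7b43_nt.Ifc

/-!
# Every sequence of distinct points has approximation constant at least `6` (MP_9f7b43_nt)
-/

namespace MP9f7b43

open MvPolynomial Filter Topology C31

/-- Liouville's inequality `c δ ^ (-6) ≤ H`. -/
theorem exists_liouville (h : LFine) : ∃ c d₀ : ℝ, 0 < c ∧ 0 < d₀ ∧
    ∀ x : Projectivization ℚ (Idx → ℚ), x ∈ XI.points → x ≠ PX → chordal PX x < d₀ →
      0 < chordal PX x ∧ c ≤ chordal PX x ^ (6 : ℕ) * x.mulHeight := by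
  obtain ⟨c, B, d₀, hc, hB, hd, hx⟩ := h
  refine ⟨c ^ 7, d₀, by positivity, hd, fun x h1 h2 h3 => ?_⟩
  obtain ⟨hpos, a, D, hD, -, -, -, -, -, hj, hH⟩ := hx x h1 h2 h3
  refine ⟨hpos, ?_⟩
  set δ := chordal PX x with hδ
  have hz : ∀ j : Fin 3, c ^ 2 ≤ δ ^ 2 * ‖eK j (a 2)‖ := by
    intro j
    obtain ⟨e1, -, e3⟩ := hj j
    rw [div_le_iff₀ hpos] at e1
    have e4 : c * (max (max ‖eK j (a 0)‖ ‖eK j (a 1)‖) 1 * δ) ≤ δ * ‖eK j (a 2)‖ * δ := by
      have := mul_le_mul_of_nonneg_right e3 hpos.le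
      calc c * (max (max ‖eK j (a 0)‖ ‖eK j (a 1)‖) 1 * δ)
          = c * max (max ‖eK j (a 0)‖ ‖eK j (a 1)‖) 1 * δ := by ring
        _ ≤ δ * ‖eK j (a 2)‖ * δ := this
    have e5 : c * c ≤ c * (max (max ‖eK j (a 0)‖ ‖eK j (a 1)‖) 1 * δ) :=
      mul_le_mul_of_nonneg_left e1 hc.le
    nlinarith
  have hprod : (c ^ 2) ^ 3 ≤ δ ^ 6 * ∏ j, ‖eK j (a 2)‖ := by
    have h0 := Finset.prod_le_prod (s := (Finset.univ : Finset (Fin 3)))
      (f := fun _ => c ^ 2) (g := fun j => δ ^ 2 * ‖eK j (a 2)‖)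
      (fun j _ => by positivity) (fun j _ => hz j)
    rw [Finset.prod_mul_distrib] at h0
    simp only [Finset.prod_const, Finset.card_univ, Fintype.card_fin] at h0
    calc (c ^ 2) ^ 3 ≤ (δ ^ 2) ^ 3 * ∏ j, ‖eK j (a 2)‖ := h0
      _ = δ ^ 6 * ∏ j, ‖eK j (a 2)‖ := by ring
  have hD' : (1 : ℝ) ≤ D := by exact_mod_cast hD
  have hPnn : 0 ≤ ∏ j, ‖eK j (a 2)‖ := Finset.prod_nonneg fun j _ => norm_nonneg _
  calc c ^ 7 = c * (c ^ 2) ^ 3 := by ring
    _ ≤ c * (δ ^ 6 * ∏ j, ‖eK j (a 2)‖) := mul_le_mul_of_nonneg_left hprod hc.le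
    _ = δ ^ 6 * (c * 1 * ∏ j, ‖eK j (a 2)‖) := by ring
    _ ≤ δ ^ 6 * (c * D * ∏ j, ‖eK j (a 2)‖) := by
        refine mul_le_mul_of_nonneg_left ?_ (by positivity)
        exact mul_le_mul_of_nonneg_right (mul_le_mul_of_nonneg_left hD' hc.le) hPnn
    _ ≤ δ ^ 6 * x.mulHeight := mul_le_mul_of_nonneg_left hH (by positivity)

theorem lLower_of_lFine (h : LFine) : LLower := by
  obtain ⟨c, d₀, hc, hd, hx⟩ := exists_liouville h
  unfold LLower alpha
  refine le_sInf ?_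
  rintro _ ⟨x, hinj, hmem, rfl⟩
  unfold alphaSeq
  refine le_sInf ?_
  rintro _ ⟨r, rfl, hlim, hbd⟩
  by_contra hlt
  have hr : r < 6 := by
    have h6 : ((6 : ℝ) : EReal) = 6 := by norm_cast
    rw [not_le, ← h6, EReal.coe_lt_coe_iff] at hlt
    exact hlt
  obtain ⟨M, hM⟩ := hbd
  have hM' : ∀ n, chordal PX (x n) ^ r * (x n).mulHeight ≤ M := fun n => hM ⟨n, rfl⟩
  -- eventually the points are different from `P` and near `P`
  have hne : ∀ᶠ n in atTop, x n ≠ PX := by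
    by_cases hex : ∃ m, x m = PX
    · obtain ⟨m, hm⟩ := hex
      filter_upwards [eventually_gt_atTop m] with n hn h'
      exact (ne_of_gt hn) (hinj (h'.trans hm.symm))
    · exact Eventually.of_forall fun n h' => hex ⟨n, h'⟩
  have hnear : ∀ᶠ n in atTop, chordal PX (x n) < d₀ := (tendsto_order.1 hlim).2 _ hd
  -- `δ ^ (6 - r) → 0`
  have hpow : Tendsto (fun n => chordal PX (x n) ^ (6 - r)) atTop (𝓝 0) := by
    have h6 : 0 < 6 - r := by linarith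
    have := hlim.rpow_const (p := 6 - r) (Or.inr h6.le)
    rwa [Real.zero_rpow h6.ne'] at this
  have hM1 : 0 < |M| + 1 := by positivity
  have hsmall : ∀ᶠ n in atTop, chordal PX (x n) ^ (6 - r) < c / (|M| + 1) :=
    (tendsto_order.1 hpow).2 _ (div_pos hc hM1)
  obtain ⟨n, h1, h2, h3⟩ := (hne.and (hnear.and hsmall)).exists
  obtain ⟨hpos, hl⟩ := hx (x n) (hmem n) h1 h2
  set δ := chordal PX (x n) with hδ
  have e1 : δ ^ (6 : ℕ) = δ ^ (6 - r) * δ ^ r := by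
    rw [← Real.rpow_add hpos]
    norm_num
  rw [e1] at hl
  have e2 : δ ^ (6 - r) * δ ^ r * (x n).mulHeight =
      δ ^ (6 - r) * (δ ^ r * (x n).mulHeight) := by ring
  rw [e2] at hl
  have e3 : δ ^ (6 - r) * (δ ^ r * (x n).mulHeight) ≤ δ ^ (6 - r) * (|M| + 1) := by
    refine mul_le_mul_of_nonneg_left ?_ (Real.rpow_nonneg hpos.le _)
    exact (hM' n).trans ((le_abs_self M).trans (by linarith))
  have e4 : δ ^ (6 - r) * (|M| + 1) < c := by
    rwa [lt_div_iff₀ hM1] at h3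
  linarith

end MP9f7b43
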