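import Pool.Agent.Lib.MP_9f7b43_nt.Statement

/-!
# The chordal distance on representatives (part G of MP_9f7b43_nt)

* `vsup x = max |x_i|`;
* `chordal_mk` : the chordal distance of `mk x`, `mk y` in terms of `x`, `y`;
* `chordal_nonneg`, `chordal_self`, `chordal_pos`.
-/

set_option linter.unusedSectionVars false

namespace MP9f7b43

variable {ι : Type} [Fintype ι]

/-- `max |x_i|` of a rational vector. -/
noncomputable def vsup (x : ι → ℚ) : ℝ := ⨆ i, |(x i : ℝ)|

theorem vsup_nonneg (x : ι → ℚ) : 0 ≤ vsup x := Real.iSup_nonneg fun _ => abs_nonneg _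

theorem abs_le_vsup (x : ι → ℚ) (i : ι) : |(x i : ℝ)| ≤ vsup x :=
  le_ciSup (f := fun i => |(x i : ℝ)|) (Set.finite_range _).bddAbove i

theorem vsup_le {x : ι → ℚ} {B : ℝ} (hB : 0 ≤ B) (h : ∀ i, |(x i : ℝ)| ≤ B) : vsup x ≤ B :=
  Real.iSup_le h hB

theorem exists_vsup_eq {x : ι → ℚ} (hx : x ≠ 0) : ∃ i, |(x i : ℝ)| = vsup x := by
  have hne : Nonempty ι := by
    by_contra h
    rw [not_nonempty_iff] at h
    exact hx (Subsingleton.elim _ _)
  obtain ⟨i, hi⟩ := exists_eq_ciSup_of_finite (f := fun i => |(x i : ℝ)|)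
  exact ⟨i, hi⟩

theorem vsup_pos {x : ι → ℚ} (hx : x ≠ 0) : 0 < vsup x := by
  obtain ⟨i, hi⟩ := Function.ne_iff.mp hx
  have h1 : 0 < |(x i : ℝ)| := abs_pos.mpr (by exact_mod_cast hi)
  exact h1.trans_le (abs_le_vsup x i)

theorem vsup_smul (c : ℚ) (x : ι → ℚ) : vsup (c • x) = |(c : ℝ)| * vsup x := by
  unfold vsup
  rw [Real.mul_iSup_of_nonneg (abs_nonneg _)]
  congr 1
  funext i
  simp [abs_mul]

/-- The numerator of the chordal distance. -/
noncomputable def wsup (x y : ι → ℚ) : ℝ :=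
  ⨆ p : ι × ι, |((x p.1 * y p.2 - x p.2 * y p.1 : ℚ) : ℝ)|

theorem wsup_nonneg (x y : ι → ℚ) : 0 ≤ wsup x y := Real.iSup_nonneg fun _ => abs_nonneg _

theorem abs_le_wsup (x y : ι → ℚ) (i j : ι) :
    |((x i * y j - x j * y i : ℚ) : ℝ)| ≤ wsup x y :=
  le_ciSup (f := fun p : ι × ι => |((x p.1 * y p.2 - x p.2 * y p.1 : ℚ) : ℝ)|)
    (Set.finite_range _).bddAbove (i, j)

theorem wsup_le {x y : ι → ℚ} {B : ℝ} (hB : 0 ≤ B)
    (h : ∀ i j, |((x i * y j - x j * y i : ℚ) : ℝ)| ≤ B) : wsup x y ≤ B :=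
  Real.iSup_le (fun p => h p.1 p.2) hB

theorem wsup_smul (a b : ℚ) (x y : ι → ℚ) :
    wsup (a • x) (b • y) = |(a : ℝ)| * |(b : ℝ)| * wsup x y := by
  unfold wsup
  rw [Real.mul_iSup_of_nonneg (by positivity)]
  congr 1
  funext p
  rw [← abs_mul, ← abs_mul]
  congr 1
  simp only [Pi.smul_apply, smul_eq_mul]
  push_cast
  ring

theorem chordal_eq (x y : Projectivization ℚ (ι → ℚ)) :
    chordal x y = wsup x.rep y.rep / (vsup x.rep * vsup y.rep) := rfl

theorem chordal_mk {x y : ι → ℚ} (hx : x ≠ 0) (hy : y ≠ 0) :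
    chordal (Projectivization.mk ℚ x hx) (Projectivization.mk ℚ y hy) =
      wsup x y / (vsup x * vsup y) := by
  obtain ⟨a, ha⟩ := Projectivization.exists_smul_eq_mk_rep ℚ x hx
  obtain ⟨b, hb⟩ := Projectivization.exists_smul_eq_mk_rep ℚ y hy
  rw [chordal_eq, ← ha, ← hb]
  change wsup ((a : ℚ) • x) ((b : ℚ) • y) / (vsup ((a : ℚ) • x) * vsup ((b : ℚ) • y)) = _
  rw [wsup_smul, vsup_smul, vsup_smul]
  have ha0 : |((a : ℚ) : ℝ)| ≠ 0 := abs_ne_zero.mpr (by exact_mod_cast a.ne_zero)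
  have hb0 : |((b : ℚ) : ℝ)| ≠ 0 := abs_ne_zero.mpr (by exact_mod_cast b.ne_zero)
  have hx0 := (vsup_pos hx).ne'
  have hy0 := (vsup_pos hy).ne'
  field_simp

theorem chordal_nonneg (x y : Projectivization ℚ (ι → ℚ)) : 0 ≤ chordal x y := by
  rw [chordal_eq]
  exact div_nonneg (wsup_nonneg _ _) (mul_nonneg (vsup_nonneg _) (vsup_nonneg _))

theorem wsup_comm (x y : ι → ℚ) : wsup x y = wsup y x := by
  unfold wsup
  congr 1
  funext p
  rw [← abs_neg]
  congr 1
  push_cast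
  ring

theorem chordal_comm (x y : Projectivization ℚ (ι → ℚ)) : chordal x y = chordal y x := by
  rw [chordal_eq, chordal_eq, wsup_comm, mul_comm (vsup x.rep)]

theorem chordal_self (x : Projectivization ℚ (ι → ℚ)) : chordal x x = 0 := by
  rw [chordal_eq]
  have : wsup x.rep x.rep = 0 := by
    refine le_antisymm (wsup_le le_rfl fun i j => ?_) (wsup_nonneg _ _)
    rw [mul_comm, sub_self]
    simp
  rw [this, zero_div]

theorem eq_of_chordal_eq_zero {x y : Projectivization ℚ (ι → ℚ)} (h : chordal x y = 0) :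
    x = y := by
  have hx := x.rep_nonzero
  have hy := y.rep_nonzero
  rw [chordal_eq, div_eq_zero_iff] at h
  have h1 : wsup x.rep y.rep = 0 := by
    rcases h with h | h
    · exact h
    · exact absurd h (mul_pos (vsup_pos hx) (vsup_pos hy)).ne'
  have h2 : ∀ i j, x.rep i * y.rep j = x.rep j * y.rep i := by
    intro i j
    have h3 := abs_le_wsup x.rep y.rep i j
    rw [h1] at h3
    have h4 : ((x.rep i * y.rep j - x.rep j * y.rep i : ℚ) : ℝ) = 0 :=
      abs_eq_zero.mp (le_antisymm h3 (abs_nonneg _))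
    have h5 : x.rep i * y.rep j - x.rep j * y.rep i = 0 := by exact_mod_cast h4
    linarith
  obtain ⟨j, hj⟩ := Function.ne_iff.mp hy
  have hj' : y.rep j ≠ 0 := hj
  rw [← x.mk_rep, ← y.mk_rep, Projectivization.mk_eq_mk_iff']
  refine ⟨x.rep j / y.rep j, ?_⟩
  funext i
  simp only [Pi.smul_apply, smul_eq_mul]
  have := h2 i j
  field_simp
  linarith

theorem chordal_pos {x y : Projectivization ℚ (ι → ℚ)} (h : x ≠ y) : 0 < chordal x y :=
  lt_of_le_of_ne (chordal_nonneg x y) fun h0 => h (eq_of_chordal_eq_zero h0.symm)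

/-- Every element is `mk` of a vector; induction principle for representatives. -/
theorem exists_mk_eq (x : Projectivization ℚ (ι → ℚ)) :
    ∃ (v : ι → ℚ) (hv : v ≠ 0), x = Projectivization.mk ℚ v hv :=
  ⟨x.rep, x.rep_nonzero, x.mk_rep.symm⟩

end MP9f7b43
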