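import Pool.Agent.Lib.MP_9f7b43_nt.Ifc
import Pool.Agent.Lib.MP_9f7b43_nt.G.Chord

/-!
# Sizes of the coordinates `x_J(z)` (part G of MP_9f7b43_nt)

`nrm z j = max_k |z_k^(j)|` for `z ∈ K⁴` and the embedding number `j`.

* `exists_dualRoots` : `∑_l d_{i,l} (rt m)^l = [i = m]`;
* `sum_dual_xJ` : recovery of `z_{k0}^(0) z_{k1}^(1) z_{k2}^(2)` from the coordinates;
* `vsup_xJ_le`, `le_vsup_xJ` : `c ∏ nrm z j ≤ max_J |x_J(z)| ≤ C ∏ nrm z j`.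
-/

namespace MP9f7b43

open C31

theorem nrm_nonneg (z : Fin 4 → Cub ℚ) (j : Fin 3) : 0 ≤ nrm z j :=
  Real.iSup_nonneg fun _ => norm_nonneg _

theorem norm_le_nrm (z : Fin 4 → Cub ℚ) (j : Fin 3) (k : Fin 4) : ‖eK j (z k)‖ ≤ nrm z j :=
  le_ciSup (f := fun k => ‖eK j (z k)‖) (Set.finite_range _).bddAbove k

theorem nrm_le {z : Fin 4 → Cub ℚ} {j : Fin 3} {B : ℝ} (hB : 0 ≤ B)
    (h : ∀ k, ‖eK j (z k)‖ ≤ B) : nrm z j ≤ B := Real.iSup_le h hB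

theorem exists_nrm_eq (z : Fin 4 → Cub ℚ) (j : Fin 3) : ∃ k, ‖eK j (z k)‖ = nrm z j := by
  obtain ⟨k, hk⟩ := exists_eq_ciSup_of_finite (f := fun k => ‖eK j (z k)‖)
  exact ⟨k, hk⟩

/-- The dual basis at the roots. -/
theorem exists_dualRoots : ∃ d : Fin 3 → Fin 3 → ℂ,
    ∀ i m, ∑ l, d i l * rt m ^ (l : ℕ) = if i = m then 1 else 0 := by
  set V : Matrix (Fin 3) (Fin 3) ℂ := Matrix.vandermonde rt with hV
  have hdet : V.det ≠ 0 := Matrix.det_vandermonde_ne_zero_iff.mpr rt_injective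
  refine ⟨fun i l => (V⁻¹) l i, fun i m => ?_⟩
  have h : V * V⁻¹ = 1 := Matrix.mul_nonsing_inv V (isUnit_iff_ne_zero.mpr hdet)
  have h1 := congrFun (congrFun h m) i
  rw [Matrix.mul_apply, Matrix.one_apply] at h1
  have h2 : (if i = m then (1 : ℂ) else 0) = if m = i then 1 else 0 := by
    by_cases e : i = m
    · simp [e]
    · simp [e, Ne.symm e]
  rw [h2, ← h1]
  refine Finset.sum_congr rfl fun l _ => ?_
  rw [hV, Matrix.vandermonde_apply]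
  ring

theorem triple_sum (d0 d1 d2 A B C : Fin 3 → ℂ) :
    ∑ l0, ∑ l1, ∑ l2, d0 l0 * d1 l1 * d2 l2 * (A l0 * B l1 * C l2) =
      (∑ l, d0 l * A l) * (∑ l, d1 l * B l) * (∑ l, d2 l * C l) := by
  simp only [Fin.sum_univ_three]
  ring

theorem cast_xJ (z : Fin 4 → Cub ℚ) (k l : Fin 3 → _) :
    ((xJ z (fun i => (k i, l i)) : ℚ) : ℂ) =
      (rt 0 ^ (l 0 : ℕ) * eK 0 (z (k 0))) * (rt 1 ^ (l 1 : ℕ) * eK 1 (z (k 1)))
          * (rt 2 ^ (l 2 : ℕ) * eK 2 (z (k 2)))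
      + (rt 0 ^ (l 0 : ℕ) * eK 0 (z (k 0))) * (rt 2 ^ (l 1 : ℕ) * eK 2 (z (k 1)))
          * (rt 1 ^ (l 2 : ℕ) * eK 1 (z (k 2)))
      + (rt 1 ^ (l 0 : ℕ) * eK 1 (z (k 0))) * (rt 0 ^ (l 1 : ℕ) * eK 0 (z (k 1)))
          * (rt 2 ^ (l 2 : ℕ) * eK 2 (z (k 2)))
      + (rt 1 ^ (l 0 : ℕ) * eK 1 (z (k 0))) * (rt 2 ^ (l 1 : ℕ) * eK 2 (z (k 1)))
          * (rt 0 ^ (l 2 : ℕ) * eK 0 (z (k 2)))
      + (rt 2 ^ (l 0 : ℕ) * eK 2 (z (k 0))) * (rt 0 ^ (l 1 : ℕ) * eK 0 (z (k 1)))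
          * (rt 1 ^ (l 2 : ℕ) * eK 1 (z (k 2)))
      + (rt 2 ^ (l 0 : ℕ) * eK 2 (z (k 0))) * (rt 1 ^ (l 1 : ℕ) * eK 1 (z (k 1)))
          * (rt 0 ^ (l 2 : ℕ) * eK 0 (z (k 2))) := by
  have h := pol_eq_sum (Rat.castHom ℂ) rt rt_cube e1_rt e2_rt
    (Cub.rho ℚ ^ (l 0 : ℕ) * z (k 0)) (Cub.rho ℚ ^ (l 1 : ℕ) * z (k 1))
    (Cub.rho ℚ ^ (l 2 : ℕ) * z (k 2))
  have he : ∀ (j : Fin 3) (n : ℕ) (x : Cub ℚ),
      Cub.ev (Rat.castHom ℂ) (rt j) (rt_cube j) (Cub.rho ℚ ^ n * x) = rt j ^ n * eK j x := by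
    intro j n x
    rw [map_mul, map_pow, Cub.ev_rho]
    rfl
  simp only [he] at h
  exact h

/-- Recovery of the products `z_{k0}^(0) z_{k1}^(1) z_{k2}^(2)`. -/
theorem sum_dual_xJ {d : Fin 3 → Fin 3 → ℂ}
    (hd : ∀ i m, ∑ l, d i l * rt m ^ (l : ℕ) = if i = m then 1 else 0)
    (z : Fin 4 → Cub ℚ) (k : Fin 3 → Fin 4) :
    ∑ l0, ∑ l1, ∑ l2, d 0 l0 * d 1 l1 * d 2 l2 *
        ((xJ z (fun i => (k i, ![l0, l1, l2] i)) : ℚ) : ℂ) =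
      eK 0 (z (k 0)) * eK 1 (z (k 1)) * eK 2 (z (k 2)) := by
  simp only [cast_xJ z k, Matrix.cons_val_zero, Matrix.cons_val_one, Matrix.cons_val, mul_add,
    Finset.sum_add_distrib]
  have key : ∀ (a b c : Fin 3) (u v w : ℂ),
      ∑ l0, ∑ l1, ∑ l2, d 0 l0 * d 1 l1 * d 2 l2 *
        ((rt a ^ (l0 : ℕ) * u) * (rt b ^ (l1 : ℕ) * v) * (rt c ^ (l2 : ℕ) * w)) =
      (if (0 : Fin 3) = a then u else 0) * (if (1 : Fin 3) = b then v else 0) *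
        (if (2 : Fin 3) = c then w else 0) := by
    intro a b c u v w
    rw [triple_sum (d 0) (d 1) (d 2) (fun l => rt a ^ (l : ℕ) * u)
      (fun l => rt b ^ (l : ℕ) * v) (fun l => rt c ^ (l : ℕ) * w)]
    have h1 : ∀ (i m : Fin 3) (u : ℂ), ∑ l, d i l * (rt m ^ (l : ℕ) * u) =
        if i = m then u else 0 := by
      intro i m u
      have : ∀ l, d i l * (rt m ^ (l : ℕ) * u) = (d i l * rt m ^ (l : ℕ)) * u := by
        intro l; ring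
      simp only [this, ← Finset.sum_mul]
      rw [hd]
      split_ifs <;> simp
    rw [h1, h1, h1]
  simp only [key]
  simp

/-- Upper bound. -/
theorem vsup_xJ_le (z : Fin 4 → Cub ℚ) : vsup (xJ z) ≤ 384 * ∏ j, nrm z j := by
  have h0 := fun j => nrm_nonneg z j
  refine vsup_le (mul_nonneg (by norm_num) (Finset.prod_nonneg fun j _ => h0 j)) fun J => ?_
  have hrt : ∀ j (n : Fin 3), ‖rt j ^ (n : ℕ)‖ ≤ 4 := by
    have h2 : ∀ j, ‖rt j‖ ≤ 2 := by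
      intro j
      fin_cases j
      · simp only [Fin.zero_eta, rt_zero, Complex.norm_real, Real.norm_eq_abs]
        rw [abs_of_pos r1_pos]; linarith [r1_lt]
      · simp only [Fin.mk_one, rt_one]; linarith [norm_r2_lt_one]
      · simp only [Fin.reduceFinMk, rt_two, RCLike.norm_conj]; linarith [norm_r2_lt_one]
    intro j n
    rw [norm_pow]
    have h3 : ‖rt j‖ ^ (n : ℕ) ≤ 2 ^ (n : ℕ) := pow_le_pow_left₀ (norm_nonneg _) (h2 j) _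
    refine h3.trans ?_
    fin_cases n <;> norm_num
  have hb : ∀ (j : Fin 3) (n : Fin 3) (k : Fin 4),
      ‖rt j ^ (n : ℕ) * eK j (z k)‖ ≤ 4 * nrm z j := by
    intro j n k
    rw [norm_mul]
    exact mul_le_mul (hrt j n) (norm_le_nrm z j k) (norm_nonneg _) (by norm_num)
  have h3 : ∀ (a b c : Fin 3) (n m p : Fin 3) (k k' k'' : Fin 4),
      nrm z a * nrm z b * nrm z c = ∏ j, nrm z j →
      ‖(rt a ^ (n : ℕ) * eK a (z k)) * (rt b ^ (m : ℕ) * eK b (z k')) *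
        (rt c ^ (p : ℕ) * eK c (z k''))‖ ≤ 64 * ∏ j, nrm z j := by
    intro a b c n m p k k' k'' he
    rw [norm_mul, norm_mul]
    calc _ ≤ (4 * nrm z a) * (4 * nrm z b) * (4 * nrm z c) := by
          refine mul_le_mul (mul_le_mul (hb a n k) (hb b m k') (norm_nonneg _) ?_) (hb c p k'')
            (norm_nonneg _) ?_
          · have := h0 a; positivity
          · have := h0 a; have := h0 b; positivity
      _ = 64 * (nrm z a * nrm z b * nrm z c) := by ring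
      _ = _ := by rw [he]
  have hP : ∏ j, nrm z j = nrm z 0 * nrm z 1 * nrm z 2 := by
    rw [Fin.prod_univ_three]
  have h4 := cast_xJ z (fun i => (J i).1) (fun i => (J i).2)
  have h5 : ‖((xJ z J : ℚ) : ℂ)‖ = |((xJ z J : ℚ) : ℝ)| := by
    rw [← Complex.ofReal_ratCast, Complex.norm_real, Real.norm_eq_abs]
  have h6 : (fun i => ((J i).1, (J i).2)) = J := by funext i; rfl
  rw [h6] at h4
  rw [← h5, h4]
  refine (norm_add_le _ _).trans ?_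
  refine (add_le_add (norm_add_le _ _) le_rfl).trans ?_
  refine (add_le_add (add_le_add (norm_add_le _ _) le_rfl) le_rfl).trans ?_
  refine (add_le_add (add_le_add (add_le_add (norm_add_le _ _) le_rfl) le_rfl) le_rfl).trans ?_
  refine (add_le_add (add_le_add (add_le_add (add_le_add (norm_add_le _ _) le_rfl) le_rfl)
    le_rfl) le_rfl).trans ?_
  have g1 := h3 0 1 2 (J 0).2 (J 1).2 (J 2).2 (J 0).1 (J 1).1 (J 2).1 (by rw [hP])
  have g2 := h3 0 2 1 (J 0).2 (J 1).2 (J 2).2 (J 0).1 (J 1).1 (J 2).1 (by rw [hP]; ring)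
  have g3 := h3 1 0 2 (J 0).2 (J 1).2 (J 2).2 (J 0).1 (J 1).1 (J 2).1 (by rw [hP]; ring)
  have g4 := h3 1 2 0 (J 0).2 (J 1).2 (J 2).2 (J 0).1 (J 1).1 (J 2).1 (by rw [hP]; ring)
  have g5 := h3 2 0 1 (J 0).2 (J 1).2 (J 2).2 (J 0).1 (J 1).1 (J 2).1 (by rw [hP]; ring)
  have g6 := h3 2 1 0 (J 0).2 (J 1).2 (J 2).2 (J 0).1 (J 1).1 (J 2).1 (by rw [hP]; ring)
  linarith

/-- Lower bound for the single products. -/
theorem exists_le_vsup_xJ : ∃ c : ℝ, 0 < c ∧ ∀ (z : Fin 4 → Cub ℚ) (k : Fin 3 → Fin 4),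
    c * (‖eK 0 (z (k 0))‖ * ‖eK 1 (z (k 1))‖ * ‖eK 2 (z (k 2))‖) ≤ vsup (xJ z) := by
  obtain ⟨d, hd⟩ := exists_dualRoots
  set D : ℝ := ∑ l0, ∑ l1, ∑ l2, ‖d 0 l0 * d 1 l1 * d 2 l2‖ with hD
  have hD0 : 0 ≤ D := Finset.sum_nonneg fun _ _ => Finset.sum_nonneg fun _ _ =>
    Finset.sum_nonneg fun _ _ => norm_nonneg _
  refine ⟨(D + 1)⁻¹, by positivity, fun z k => ?_⟩
  have h1 := sum_dual_xJ hd z k
  have h2 : ‖eK 0 (z (k 0))‖ * ‖eK 1 (z (k 1))‖ * ‖eK 2 (z (k 2))‖ ≤ D * vsup (xJ z) := by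
    rw [← norm_mul, ← norm_mul, ← h1, hD]
    rw [Finset.sum_mul]
    refine (norm_sum_le _ _).trans (Finset.sum_le_sum fun l0 _ => ?_)
    rw [Finset.sum_mul]
    refine (norm_sum_le _ _).trans (Finset.sum_le_sum fun l1 _ => ?_)
    rw [Finset.sum_mul]
    refine (norm_sum_le _ _).trans (Finset.sum_le_sum fun l2 _ => ?_)
    rw [norm_mul]
    refine mul_le_mul_of_nonneg_left ?_ (norm_nonneg _)
    rw [← Complex.ofReal_ratCast, Complex.norm_real, Real.norm_eq_abs]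
    exact abs_le_vsup (xJ z) _
  rw [inv_mul_le_iff₀ (by positivity)]
  have h3 := vsup_nonneg (xJ z)
  nlinarith

/-- Lower bound. -/
theorem exists_prod_nrm_le : ∃ c : ℝ, 0 < c ∧ ∀ z : Fin 4 → Cub ℚ,
    c * ∏ j, nrm z j ≤ vsup (xJ z) := by
  obtain ⟨c, hc, h⟩ := exists_le_vsup_xJ
  refine ⟨c, hc, fun z => ?_⟩
  choose k hk using fun j => exists_nrm_eq z j
  have := h z k
  rw [hk 0, hk 1, hk 2] at this
  rwa [Fin.prod_univ_three]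

/-- G6 (sizes). -/
theorem gSize : GSize := by
  obtain ⟨c, hc, h⟩ := exists_prod_nrm_le
  exact ⟨c, 384, hc, by norm_num, fun z => ⟨h z, vsup_xJ_le z⟩⟩

/-- `x(z) ≠ 0` for `z ≠ 0`. -/
theorem xJ_ne_zero {z : Fin 4 → Cub ℚ} (hz : z ≠ 0) : xJ z ≠ 0 := by
  intro h0
  obtain ⟨c, hc, h⟩ := exists_le_vsup_xJ
  obtain ⟨k, hk⟩ := Function.ne_iff.mp hz
  have h1 := h z fun _ => k
  have h2 : ∀ j, 0 < ‖eK j (z k)‖ := fun j => norm_pos_iff.mpr (emb_rat_ne_zero j hk)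
  have h3 : vsup (xJ z) ≤ 0 := vsup_le le_rfl fun J => by rw [h0]; simp
  have h4 : 0 < c * (‖eK 0 (z k)‖ * ‖eK 1 (z k)‖ * ‖eK 2 (z k)‖) :=
    mul_pos hc (mul_pos (mul_pos (h2 0) (h2 1)) (h2 2))
  linarith

end MP9f7b43
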