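import Pool.Agent.Lib.MP_9f7b43_nt.G.Kernel
import Pool.Agent.Lib.MP_9f7b43_nt.Data

/-!
# The variety `X` (part G of MP_9f7b43_nt)

* `pol a b c` : the polarised norm form of the cubic algebra `Cub R`;
* `xJ z J` : the homogeneous coordinates of `z ∈ (Cub R)⁴`, `J : Idx = Fin 3 → Fin 4 × Fin 3`;
* `psiX J = x_J(Θ(α, U))` with generic `α, U`, in the polynomial ring `R0` in six variables;
* `XI : ProjVar Idx` : the variety `X` (closure of the image of the parametrisation `psiX`).
-/

namespace MP9f7b43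

open MvPolynomial C31

section Pol

variable {R : Type*} [CommRing R]

/-- The polarised norm form of `Cub R`: `pol a a a = 6 N(a)`. -/
def pol (a b c : Cub R) : R :=
  Cub.tr a * Cub.tr b * Cub.tr c - Cub.tr (a * b) * Cub.tr c - Cub.tr (a * c) * Cub.tr b
    - Cub.tr (b * c) * Cub.tr a + 2 * Cub.tr (a * b * c)

/-- The index type of the coordinates of the ambient projective space (1728 elements). -/
abbrev Idx : Type := Fin 3 → Fin 4 × Fin 3

/-- The coordinates `x_J(z)` of `z ∈ (Cub R)⁴`. -/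
def xJ (z : Fin 4 → Cub R) (J : Idx) : R :=
  pol (Cub.rho R ^ ((J 0).2 : ℕ) * z (J 0).1) (Cub.rho R ^ ((J 1).2 : ℕ) * z (J 1).1)
    (Cub.rho R ^ ((J 2).2 : ℕ) * z (J 2).1)

/-- The distinguished point `y = (0, 0, 1, 0)` of the cubic surface. -/
def yPt (S : Type*) [CommRing S] : Fin 4 → S := ![0, 0, 1, 0]

theorem map_tr {S : Type*} [CommRing S] (φ : R →+* S) (a : Cub R) :
    φ (Cub.tr a) = Cub.tr (Cub.map φ a) := by
  simp [Cub.tr, map_ofNat]

theorem map_pol {S : Type*} [CommRing S] (φ : R →+* S) (a b c : Cub R) :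
    φ (pol a b c) = pol (Cub.map φ a) (Cub.map φ b) (Cub.map φ c) := by
  simp only [pol, map_add, map_sub, map_mul, map_tr, map_ofNat]

theorem map_rho {S : Type*} [CommRing S] (φ : R →+* S) :
    Cub.map φ (Cub.rho R) = Cub.rho S := by
  ext <;> simp

theorem map_xJ {S : Type*} [CommRing S] (φ : R →+* S) (z : Fin 4 → Cub R) (J : Idx) :
    φ (xJ z J) = xJ (fun k => Cub.map φ (z k)) J := by
  simp only [xJ, map_pol, map_mul, map_pow, map_rho]

/-- The trace is the sum of the values at the three roots. -/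
theorem tr_eq_sum {S : Type*} [CommRing S] (f : R →+* S) (r : Fin 3 → S)
    (hr : ∀ i, r i ^ 3 = r i + 1) (h1 : r 0 + r 1 + r 2 = 0)
    (h2 : r 0 * r 1 + r 0 * r 2 + r 1 * r 2 = -1) (a : Cub R) :
    f (Cub.tr a) = Cub.ev f (r 0) (hr 0) a + Cub.ev f (r 1) (hr 1) a
      + Cub.ev f (r 2) (hr 2) a := by
  simp only [Cub.tr, Cub.ev_apply, map_add, map_mul, map_ofNat]
  linear_combination (-(f a.a1) - f a.a2 * (r 0 + r 1 + r 2)) * h1 + 2 * f a.a2 * h2

/-- The polarised norm is the sum over the six permutations of the products of the conjugates. -/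
theorem pol_eq_sum {S : Type*} [CommRing S] (f : R →+* S) (r : Fin 3 → S)
    (hr : ∀ i, r i ^ 3 = r i + 1) (h1 : r 0 + r 1 + r 2 = 0)
    (h2 : r 0 * r 1 + r 0 * r 2 + r 1 * r 2 = -1) (a b c : Cub R) :
    f (pol a b c) =
      Cub.ev f (r 0) (hr 0) a * Cub.ev f (r 1) (hr 1) b * Cub.ev f (r 2) (hr 2) c
      + Cub.ev f (r 0) (hr 0) a * Cub.ev f (r 2) (hr 2) b * Cub.ev f (r 1) (hr 1) c
      + Cub.ev f (r 1) (hr 1) a * Cub.ev f (r 0) (hr 0) b * Cub.ev f (r 2) (hr 2) c
      + Cub.ev f (r 1) (hr 1) a * Cub.ev f (r 2) (hr 2) b * Cub.ev f (r 0) (hr 0) c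
      + Cub.ev f (r 2) (hr 2) a * Cub.ev f (r 0) (hr 0) b * Cub.ev f (r 1) (hr 1) c
      + Cub.ev f (r 2) (hr 2) a * Cub.ev f (r 1) (hr 1) b * Cub.ev f (r 0) (hr 0) c := by
  simp only [pol, map_add, map_sub, map_mul, map_ofNat, tr_eq_sum f r hr h1 h2]
  ring

/-- Scaling by a constant. -/
theorem xJ_C_mul (c : R) (z : Fin 4 → Cub R) (J : Idx) :
    xJ (fun k => Cub.C c * z k) J = c ^ 3 * xJ z J := by
  have h : ∀ x y w : Cub R, pol (Cub.C c * x) (Cub.C c * y) (Cub.C c * w) =
      c ^ 3 * pol x y w := by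
    intro x y w
    have ht : ∀ t : Cub R, Cub.tr (Cub.C c * t) = c * Cub.tr t := by
      intro t; simp [Cub.tr]; ring
    have e1 : Cub.C c * x * (Cub.C c * y) = Cub.C c * (Cub.C c * (x * y)) := by ring
    have e2 : Cub.C c * x * (Cub.C c * w) = Cub.C c * (Cub.C c * (x * w)) := by ring
    have e3 : Cub.C c * y * (Cub.C c * w) = Cub.C c * (Cub.C c * (y * w)) := by ring
    have e4 : Cub.C c * x * (Cub.C c * y) * (Cub.C c * w) =
        Cub.C c * (Cub.C c * (Cub.C c * (x * y * w))) := by ring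
    simp only [pol]
    rw [e4, e1, e2, e3]
    simp only [ht]
    ring
  simp only [xJ]
  rw [← h]
  congr 1 <;> ring

end Pol

/-- A form of degree `d` is multiplied by `c ^ d` if its arguments are multiplied by `c`. -/
theorem aeval_mul_of_isHomogeneous {σ A : Type*} [CommRing A] [Algebra ℚ A]
    {g : MvPolynomial σ ℚ} {d : ℕ} (hd : g.IsHomogeneous d) (c : A) (x : σ → A) :
    aeval (fun J => c * x J) g = c ^ d * aeval x g := by
  rw [aeval_def, aeval_def, eval₂_eq, eval₂_eq, Finset.mul_sum]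
  refine Finset.sum_congr rfl fun m hm => ?_
  have hdeg : m.degree = d := by
    by_contra hne
    exact (mem_support_iff.mp hm) (hd.coeff_eq_zero hne)
  simp only [mul_pow, Finset.prod_mul_distrib]
  rw [Finset.prod_pow_eq_pow_sum]
  have : ∑ i ∈ m.support, m i = d := hdeg
  rw [this]
  ring

/-- The polynomial ring in the six parameters. -/
abbrev R0 : Type := MvPolynomial (Fin 2 × Fin 3) ℚ

/-- The generic `α`. -/
noncomputable def genAlpha : Cub R0 := ⟨X (0, 0), X (0, 1), X (0, 2)⟩

/-- The generic `U`. -/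
noncomputable def genU : Cub R0 := ⟨X (1, 0), X (1, 1), X (1, 2)⟩

/-- The parametrisation of `X`. -/
noncomputable def psiX (J : Idx) : R0 := xJ (Theta genAlpha genU) J

/-- The point of the six dimensional parameter space with coordinates `(α, U)`. -/
def parPt {R : Type*} (α U : Cub R) : Fin 2 × Fin 3 → R := fun p =>
  ![![α.a0, α.a1, α.a2], ![U.a0, U.a1, U.a2]] p.1 p.2

theorem aeval_psiX {A : Type*} [CommRing A] [Algebra ℚ A] (α U : Cub A) (J : Idx) :
    aeval (parPt α U) (psiX J) = xJ (Theta α U) J := by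
  unfold psiX
  change ((aeval (parPt α U) : R0 →ₐ[ℚ] A) : R0 →+* A) (xJ (Theta genAlpha genU) J) = _
  rw [map_xJ]
  congr 1
  funext k
  rw [map_Theta]
  congr 1
  · ext <;> simp [genAlpha, parPt]
  · ext <;> simp [genU, parPt]

/-- `Θ(0, 0)` is a nonzero multiple of `y`. -/
theorem Theta_zero_zero (R : Type*) [CommRing R] (k : Fin 4) :
    Theta (0 : R) 0 k = (-2395575) * yPt R k := by
  fin_cases k <;> simp [Theta, sx, qa, qb, qr, qn, qh, qg, cu, cv, cw, cz, yPt] <;> ring

/-- The coordinates of the point `P`. -/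
def PV (J : Idx) : ℚ := xJ (yPt (Cub ℚ)) J

theorem xJ_Theta_zero_zero (J : Idx) :
    xJ (Theta (0 : Cub ℚ) 0) J = (-2395575) ^ 3 * PV J := by
  have h : Theta (0 : Cub ℚ) 0 = fun k => Cub.C (-2395575 : ℚ) * yPt (Cub ℚ) k := by
    funext k
    rw [Theta_zero_zero]
    congr 1
  rw [h, xJ_C_mul]
  rfl

/-- The index of the coordinate `x_(k0,k0,k0)`. -/
def diagIdx (k : Fin 4) : Idx := fun _ => (k, 0)

theorem PV_diag : PV (diagIdx 2) = 6 := by
  simp [PV, xJ, diagIdx, yPt, pol, Cub.tr]
  norm_num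

theorem PV_ne_zero : PV ≠ 0 := by
  intro h
  have := congrFun h (diagIdx 2)
  rw [PV_diag] at this
  norm_num at this

theorem psiX_diag_ne_zero : psiX (diagIdx 2) ≠ 0 := by
  intro h
  have h1 := aeval_psiX (A := ℚ) 0 0 (diagIdx 2)
  rw [h, map_zero, xJ_Theta_zero_zero, PV_diag] at h1
  norm_num at h1

/-- The variety `X`. -/
noncomputable def XI : ProjVar Idx where
  ideal := kerIdeal psiX
  isPrime := kerIdeal_isPrime psiX
  homogeneous := kerIdeal_homogeneous psiX
  relevant := by
    refine ⟨diagIdx 2, ?_⟩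
    intro h
    rw [mem_kerIdeal] at h
    have h1 := h 1
    have hX : (X (diagIdx 2) : MvPolynomial Idx ℚ).IsHomogeneous 1 := isHomogeneous_X ℚ _
    rw [homogeneousComponent_of_mem hX, if_pos rfl, aeval_X] at h1
    exact psiX_diag_ne_zero h1

theorem XI_geomIntegral : XI.GeomIntegral := map_kerIdeal_isPrime psiX

/-- A form vanishes on `X` if and only if it vanishes on the parametrisation. -/
theorem mem_XI_of_isHomogeneous {g : MvPolynomial Idx ℚ} {d : ℕ} (hd : g.IsHomogeneous d)
    (h : aeval psiX g = 0) : g ∈ XI.ideal :=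
  mem_kerIdeal_of_isHomogeneous hd h

/-- Elements of the ideal vanish at the points of the parametrisation, over any `ℚ`-algebra, and
at their multiples. -/
theorem aeval_xJ_Theta_eq_zero {A : Type*} [CommRing A] [Algebra ℚ A] (α U : Cub A) (c : A)
    (g : MvPolynomial Idx ℚ) (hg : g ∈ XI.ideal) :
    aeval (fun J => c * xJ (Theta α U) J) g = 0 := by
  have hhom : ∀ d, aeval (fun J => c * xJ (Theta α U) J) (homogeneousComponent d g) = 0 := by
    intro d
    have h1 : aeval psiX (homogeneousComponent d g) = 0 := (mem_kerIdeal.mp hg) d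
    have h2 : aeval (fun J => xJ (Theta α U) J) (homogeneousComponent d g) = 0 := by
      have := congrArg (aeval (parPt α U)) h1
      rw [map_zero, ← AlgHom.comp_apply, comp_aeval] at this
      simpa only [aeval_psiX] using this
    rw [aeval_mul_of_isHomogeneous (homogeneousComponent_isHomogeneous d g), h2, mul_zero]
  have hs : g = ∑ d ∈ Finset.range (g.totalDegree + 1), homogeneousComponent d g :=
    (sum_homogeneousComponent g).symm
  rw [hs, map_sum]
  exact Finset.sum_eq_zero fun d _ => hhom d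

end MP9f7b43
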