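import Pool.Agent.Lib.MP_9f7b43_nt.Data

/-!
# MP_9f7b43_nt, part G: the functions `u / w`, `v / w` on the parametrised surface are
algebraically independent

`fS α U = (c_u / c_w, c_v / c_w)` at the point `q1(α) + U q2(α)`.  A polynomial in two variables
which vanishes at all these points is zero: leading terms for `U → ∞`, and the leading
coefficients `c_u(q2), c_v(q2)` are proportional to `α - 2, 2 α - 1`.
-/

namespace MP9f7b43

open MvPolynomial C31

/-- The point `(u / w, v / w)`. -/
noncomputable def fS (α U : ℂ) : Fin 2 → ℂ :=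
  ![cu (qa α U) (qb α U) (qr α U) / cw (qa α U) (qb α U) (qr α U),
    cv (qa α U) (qb α U) (qr α U) / cw (qa α U) (qb α U) (qr α U)]

/-- The values of a form at a multiple of a vector. -/
theorem eval_mul_of_isHomogeneous' {σ : Type*} {g : MvPolynomial σ ℂ} {d : ℕ}
    (hd : g.IsHomogeneous d) (c : ℂ) (x : σ → ℂ) :
    eval (fun J => c * x J) g = c ^ d * eval x g := by
  rw [eval_eq, eval_eq, Finset.mul_sum]
  refine Finset.sum_congr rfl fun m hm => ?_
  have hdeg : m.degree = d := by
    by_contra hne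
    exact (mem_support_iff.mp hm) (hd.coeff_eq_zero hne)
  simp only [mul_pow, Finset.prod_mul_distrib]
  rw [Finset.prod_pow_eq_pow_sum]
  have : ∑ i ∈ m.support, m i = d := hdeg
  rw [this]
  ring

/-- Leading terms: if `p` vanishes at `ε⁻² (A ε, B ε)` for all `ε ≠ 0`, where `A`, `B` are
continuous, then the leading form of `p` vanishes at `(A 0, B 0)`. -/
theorem leading_form_zero (p : MvPolynomial (Fin 2) ℂ) (A : ℂ → Fin 2 → ℂ) (hA : Continuous A)
    (h : ∀ ε : ℂ, ε ≠ 0 → eval (fun i => (ε⁻¹) ^ 2 * A ε i) p = 0) :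
    eval (A 0) (homogeneousComponent p.totalDegree p) = 0 := by
  set d := p.totalDegree with hd
  let H : ℂ → ℂ := fun ε => ∑ e ∈ Finset.range (d + 1),
    ε ^ (2 * (d - e)) * eval (A ε) (homogeneousComponent e p)
  have hcont : Continuous H := by
    refine continuous_finset_sum _ fun e _ => ?_
    exact (continuous_pow _).mul ((MvPolynomial.continuous_eval _).comp hA)
  have hzero : ∀ ε : ℂ, ε ≠ 0 → H ε = 0 := by
    intro ε hε
    have h1 : H ε = ε ^ (2 * d) * eval (fun i => (ε⁻¹) ^ 2 * A ε i) p := by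
      conv_rhs => rw [← sum_homogeneousComponent p]
      rw [map_sum, Finset.mul_sum]
      refine Finset.sum_congr rfl fun e he => ?_
      rw [eval_mul_of_isHomogeneous' (homogeneousComponent_isHomogeneous e p), ← mul_assoc]
      congr 1
      have he' : e ≤ d := Nat.lt_succ_iff.mp (Finset.mem_range.mp he)
      obtain ⟨f, hf⟩ := Nat.exists_eq_add_of_le he'
      rw [hf]
      have : e + f - e = f := by omega
      rw [this, mul_add, pow_add, ← pow_mul]
      have h2 : ε ^ (2 * e) * ε⁻¹ ^ (2 * e) = 1 := by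
        rw [← mul_pow, mul_inv_cancel₀ hε, one_pow]
      linear_combination (-ε ^ (2 * f)) * h2
    rw [h1, h ε hε, mul_zero]
  have h0 : H 0 = 0 := by
    have hd : Dense ({0}ᶜ : Set ℂ) := dense_compl_singleton 0
    have := Continuous.ext_on hd hcont (continuous_const (y := (0 : ℂ)))
      (fun ε hε => hzero ε hε)
    exact congrFun this 0
  have h2 : H 0 = eval (A 0) (homogeneousComponent d p) := by
    show ∑ e ∈ Finset.range (d + 1), _ = _
    rw [Finset.sum_eq_single d]
    · simp
    · intro e he hne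
      have he' : e < d := lt_of_le_of_ne (Nat.lt_succ_iff.mp (Finset.mem_range.mp he)) hne
      rw [zero_pow (by omega), zero_mul]
    · intro hn
      exact absurd (Finset.mem_range.mpr (Nat.lt_succ_self d)) hn
  rw [← h2, h0]

theorem homogeneousComponent_totalDegree_ne_zero' {p : MvPolynomial (Fin 2) ℂ} (hp : p ≠ 0) :
    homogeneousComponent p.totalDegree p ≠ 0 := by
  have hne : p.support.Nonempty := by
    rw [Finset.nonempty_iff_ne_empty]
    intro h
    exact hp (support_eq_empty.mp h)
  obtain ⟨m, hm, hmd⟩ := Finset.exists_mem_eq_sup p.support hne (fun s => s.sum fun _ e => e)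
  intro h
  have h1 := congrArg (coeff m) h
  rw [coeff_homogeneousComponent, if_pos, coeff_zero] at h1
  · exact (mem_support_iff.mp hm) h1
  · show m.degree = p.totalDegree
    exact hmd.symm

/-- The exceptional values of `α`. -/
noncomputable def excPoly : Polynomial ℂ :=
  (Polynomial.X - 2) * cu (qn Polynomial.X * Polynomial.X) (qn Polynomial.X) (qh Polynomial.X) *
    qn Polynomial.X * qh Polynomial.X

theorem eval_excPoly (α : ℂ) : excPoly.eval α =
    (α - 2) * cu (qn α * α) (qn α) (qh α) * qn α * qh α := by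
  simp [excPoly, cu, qn, qh]

theorem excPoly_ne_zero : excPoly ≠ 0 := by
  intro h
  have h1 := eval_excPoly 0
  rw [h, Polynomial.eval_zero] at h1
  simp [cu, qn, qh] at h1
  norm_num at h1

theorem proportional (α : ℂ) :
    (2 * α - 1) * cu (qn α * α) (qn α) (qh α) = (α - 2) * cv (qn α * α) (qn α) (qh α) := by
  unfold cu cv qn qh
  ring

/-- A polynomial in two variables which vanishes at all points `fS α U` is zero. -/
theorem dense_fS (p : MvPolynomial (Fin 2) ℂ)
    (h : ∀ α U : ℂ, cw (qa α U) (qb α U) (qr α U) ≠ 0 → eval (fS α U) p = 0) : p = 0 := by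
  by_contra hp
  set d := p.totalDegree with hd
  set pd := homogeneousComponent d p with hpd
  have hpdh : pd.IsHomogeneous d := homogeneousComponent_isHomogeneous d p
  have hpd0 : pd ≠ 0 := homogeneousComponent_totalDegree_ne_zero' hp
  -- the leading form at the leading coefficients
  have h1 : ∀ α : ℂ, excPoly.eval α ≠ 0 → eval ![α - 2, 2 * α - 1] pd = 0 := by
    intro α hα
    rw [eval_excPoly] at hα
    have hh : qh α ≠ 0 := right_ne_zero_of_mul hα
    have hn : qn α ≠ 0 := right_ne_zero_of_mul (left_ne_zero_of_mul hα)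
    have hcu : cu (qn α * α) (qn α) (qh α) ≠ 0 :=
      right_ne_zero_of_mul (left_ne_zero_of_mul (left_ne_zero_of_mul hα))
    have h2 : α - 2 ≠ 0 :=
      left_ne_zero_of_mul (left_ne_zero_of_mul (left_ne_zero_of_mul hα))
    set W : ℂ := -3 * qn α ^ 3 * qh α ^ 3 with hW
    have hW0 : W ≠ 0 := by
      rw [hW]
      exact mul_ne_zero (mul_ne_zero (by norm_num) (pow_ne_zero _ hn)) (pow_ne_zero _ hh)
    -- coordinates of `ε q1 + q2`
    let P1 : ℂ → ℂ := fun ε => ε * (qn α ^ 2 * (-4 * α ^ 2 + 10 * α - 1)) + qn α * α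
    let P2 : ℂ → ℂ := fun ε => ε * (qn α ^ 2 * (α ^ 2 + 8 * α - 5)) + qn α
    let P3 : ℂ → ℂ := fun ε => ε * (-3 * qg α * qh α) + qh α
    have hP1 : Continuous P1 := by fun_prop
    have hP2 : Continuous P2 := by fun_prop
    have hP3 : Continuous P3 := by fun_prop
    let A : ℂ → Fin 2 → ℂ := fun ε => ![cu (P1 ε) (P2 ε) (P3 ε) / W, cv (P1 ε) (P2 ε) (P3 ε) / W]
    have hA : Continuous A := by
      refine continuous_pi fun i => ?_
      fin_cases i
      · show Continuous fun ε => cu (P1 ε) (P2 ε) (P3 ε) / W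
        unfold cu
        fun_prop
      · show Continuous fun ε => cv (P1 ε) (P2 ε) (P3 ε) / W
        unfold cv
        fun_prop
    have hlead := leading_form_zero p A hA (by
      intro ε hε
      have hcw : cw (qa α ε⁻¹) (qb α ε⁻¹) (qr α ε⁻¹) = W * ε⁻¹ := by rw [cw_q]
      have hcw0 : cw (qa α ε⁻¹) (qb α ε⁻¹) (qr α ε⁻¹) ≠ 0 := by
        rw [hcw]
        exact mul_ne_zero hW0 (inv_ne_zero hε)
      have := h α ε⁻¹ hcw0
      have e1 : (fun i => (ε⁻¹) ^ 2 * A ε i) = fS α ε⁻¹ := by
        have ea : qa α ε⁻¹ = ε⁻¹ * P1 ε := by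
          simp only [qa, P1]; field_simp
        have eb : qb α ε⁻¹ = ε⁻¹ * P2 ε := by
          simp only [qb, P2]; field_simp
        have er : qr α ε⁻¹ = ε⁻¹ * P3 ε := by
          simp only [qr, P3]; field_simp
        have hu : cu (ε⁻¹ * P1 ε) (ε⁻¹ * P2 ε) (ε⁻¹ * P3 ε) =
            (ε⁻¹) ^ 3 * cu (P1 ε) (P2 ε) (P3 ε) := by unfold cu; ring
        have hv : cv (ε⁻¹ * P1 ε) (ε⁻¹ * P2 ε) (ε⁻¹ * P3 ε) =
            (ε⁻¹) ^ 3 * cv (P1 ε) (P2 ε) (P3 ε) := by unfold cv; ring
        funext i
        fin_cases i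
        · show (ε⁻¹) ^ 2 * (cu (P1 ε) (P2 ε) (P3 ε) / W) =
            cu (qa α ε⁻¹) (qb α ε⁻¹) (qr α ε⁻¹) / cw (qa α ε⁻¹) (qb α ε⁻¹) (qr α ε⁻¹)
          rw [hcw, ea, eb, er, hu]
          field_simp
        · show (ε⁻¹) ^ 2 * (cv (P1 ε) (P2 ε) (P3 ε) / W) =
            cv (qa α ε⁻¹) (qb α ε⁻¹) (qr α ε⁻¹) / cw (qa α ε⁻¹) (qb α ε⁻¹) (qr α ε⁻¹)
          rw [hcw, ea, eb, er, hv]
          field_simp
      rw [e1]
      exact this)
    have hA0 : A 0 = fun i => (cu (qn α * α) (qn α) (qh α) / (W * (α - 2))) *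
        (![α - 2, 2 * α - 1] : Fin 2 → ℂ) i := by
      have hprop := proportional α
      funext i
      fin_cases i
      · show cu (P1 0) (P2 0) (P3 0) / W = _
        have e1 : P1 0 = qn α * α := by simp [P1]
        have e2 : P2 0 = qn α := by simp [P2]
        have e3 : P3 0 = qh α := by simp [P3]
        rw [e1, e2, e3]
        simp only [Fin.zero_eta, Matrix.cons_val_zero]
        field_simp
      · show cv (P1 0) (P2 0) (P3 0) / W = _
        have e1 : P1 0 = qn α * α := by simp [P1]
        have e2 : P2 0 = qn α := by simp [P2]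
        have e3 : P3 0 = qh α := by simp [P3]
        rw [e1, e2, e3]
        simp only [Fin.mk_one, Matrix.cons_val_one, Matrix.cons_val_fin_one]
        field_simp
        linear_combination -hprop
    rw [hA0, eval_mul_of_isHomogeneous' hpdh] at hlead
    rcases mul_eq_zero.mp hlead with h3 | h3
    · exfalso
      refine (pow_ne_zero d ?_) h3
      exact div_ne_zero hcu (mul_ne_zero hW0 h2)
    · exact h3
  -- for all `α`
  have h2 : ∀ α : ℂ, eval ![α - 2, 2 * α - 1] pd = 0 := by
    have hc : Continuous fun α : ℂ => eval ![α - 2, 2 * α - 1] pd := by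
      refine (MvPolynomial.continuous_eval _).comp ?_
      refine continuous_pi fun i => ?_
      fin_cases i
      · show Continuous fun α : ℂ => α - 2
        fun_prop
      · show Continuous fun α : ℂ => 2 * α - 1
        fun_prop
    have hdense : Dense ({α : ℂ | excPoly.eval α = 0}ᶜ) := by
      have hfin : ({α : ℂ | excPoly.eval α = 0}).Finite :=
        Polynomial.finite_setOf_isRoot excPoly_ne_zero
      exact hfin.countable.dense_compl ℝ
    have := Continuous.ext_on hdense hc (continuous_const (y := (0 : ℂ)))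
      (fun α hα => h1 α hα)
    exact fun α => congrFun this α
  -- for all vectors
  apply hpd0
  refine MvPolynomial.funext_set
    (fun i => if i = 0 then Set.range (fun n : ℕ => ((n : ℂ) + 1))
      else Set.range (fun n : ℕ => -((n : ℂ) + 1))) ?_ ?_
  · intro i
    split_ifs
    · refine Set.infinite_range_of_injective fun a b hab => ?_
      simpa using hab
    · refine Set.infinite_range_of_injective fun a b hab => ?_
      simpa using hab
  · intro x hx
    rw [map_zero]
    have hx0 := hx 0 (Set.mem_univ 0)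
    have hx1 := hx 1 (Set.mem_univ 1)
    simp only [if_true] at hx0
    simp only [one_ne_zero, if_false] at hx1
    obtain ⟨a, ha⟩ := hx0
    obtain ⟨b, hb⟩ := hx1
    have hc : x 1 - 2 * x 0 ≠ 0 := by
      rw [← ha, ← hb]
      intro hcon
      have h5 : (((b + 1) + 2 * (a + 1) : ℕ) : ℂ) = 0 := by
        push_cast
        linear_combination -hcon
      have h6 := Nat.cast_eq_zero.mp h5
      omega
    have hx' : x = fun i => ((x 1 - 2 * x 0) / 3) *
        (![(2 + 3 * x 0 / (x 1 - 2 * x 0)) - 2, 2 * (2 + 3 * x 0 / (x 1 - 2 * x 0)) - 1] :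
          Fin 2 → ℂ) i := by
      funext i
      fin_cases i
      · show x 0 = ((x 1 - 2 * x 0) / 3) * ((2 + 3 * x 0 / (x 1 - 2 * x 0)) - 2)
        have e := div_mul_cancel₀ (3 * x 0) hc
        linear_combination (-1 / 3) * e
      · show x 1 = ((x 1 - 2 * x 0) / 3) * (2 * (2 + 3 * x 0 / (x 1 - 2 * x 0)) - 1)
        have e := div_mul_cancel₀ (3 * x 0) hc
        linear_combination (-2 / 3) * e
    rw [hx', eval_mul_of_isHomogeneous' hpdh, h2, mul_zero]

end MP9f7b43
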