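import Pool.Agent.Lib.MP_9f7b43_nt.G.Seg
import Pool.Agent.Lib.MP_9f7b43_nt.G.DenseS

/-!
# MP_9f7b43_nt, part G: the coordinate ring of `X` has transcendence degree at least 7
-/

namespace MP9f7b43

open MvPolynomial C31

/-- The seven coordinates. -/
def yIdx : Option (Fin 2 × Fin 3) → Idx
  | none => diagIdx 3
  | some (k, l) => ![(Fin.castLE (by norm_num) k, l), (3, 0), (3, 0)]

/-- The values of the seven coordinates in terms of the six functions `v s k`. -/
noncomputable def pt (τ : ℂ) (v : Fin 3 → Fin 2 → ℂ) : Option (Fin 2 × Fin 3) → ℂ := fun i =>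
  i.elim τ fun kl => τ / 3 * ∑ s : Fin 3, rt s ^ (kl.2 : ℕ) * v s kl.1

/-- The element of `Cub ℂ` with given values at the three roots. -/
noncomputable def ofConj (a : Fin 3 → ℂ) : Cub ℂ :=
  ⟨∑ s, dl s 0 * a s, ∑ s, dl s 1 * a s, ∑ s, dl s 2 * a s⟩

theorem ev_ofConj (a : Fin 3 → ℂ) (t : Fin 3) :
    Cub.ev (RingHom.id ℂ) (rt t) (rt_cube t) (ofConj a) = a t := by
  rw [Cub.ev_apply]
  have h : ∀ s : Fin 3, dl s 0 + dl s 1 * rt t + dl s 2 * rt t ^ 2 = if s = t then 1 else 0 := by
    intro s
    rw [← sum_dl s t, Fin.sum_univ_three]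
    simp
  have h2 : ∀ s : Fin 3, (dl s 0 + dl s 1 * rt t + dl s 2 * rt t ^ 2) * a s =
      if s = t then a s else 0 := by
    intro s
    rw [h s]
    split_ifs <;> simp
  have h3 : ∑ s : Fin 3, (dl s 0 + dl s 1 * rt t + dl s 2 * rt t ^ 2) * a s = a t := by
    simp only [h2]
    simp
  rw [← h3]
  simp only [ofConj, RingHom.id_apply, Fin.sum_univ_three]
  ring

theorem key_values (α U : Fin 3 → ℂ)
    (hW : ∀ s, cw (qa (α s) (U s)) (qb (α s) (U s)) (qr (α s) (U s)) ≠ 0) (τ : ℂ) :
    ∃ (a u : Cub ℂ) (c : ℂ), ∀ i, c * xJ (Theta a u) (yIdx i) =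
      pt τ (fun s => fS (α s) (U s)) i := by
  set W : Fin 3 → ℂ := fun s => cw (qa (α s) (U s)) (qb (α s) (U s)) (qr (α s) (U s)) with hWdef
  have hW' : ∀ s, W s ≠ 0 := hW
  refine ⟨ofConj α, ofConj U, τ / (6 * (W 0 ^ 2 * W 1 ^ 2 * W 2 ^ 2)), ?_⟩
  have hev : ∀ s k, Cub.ev (RingHom.id ℂ) (rt s) (rt_cube s) (Theta (ofConj α) (ofConj U) k) =
      Theta (α s) (U s) k := by
    intro s k
    rw [map_Theta, ev_ofConj, ev_ofConj]
  have h3 : ∀ s, Theta (α s) (U s) 3 = W s ^ 2 := fun s => rfl
  have h01 : ∀ s, ∀ k : Fin 2, Theta (α s) (U s) (Fin.castLE (by norm_num) k) =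
      W s ^ 2 * fS (α s) (U s) k := by
    intro s k
    fin_cases k
    · show cw _ _ _ * cu _ _ _ = W s ^ 2 * (cu _ _ _ / cw _ _ _)
      have := hW' s
      simp only [hWdef] at this ⊢
      field_simp
    · show cw _ _ _ * cv _ _ _ = W s ^ 2 * (cv _ _ _ / cw _ _ _)
      have := hW' s
      simp only [hWdef] at this ⊢
      field_simp
  have hpol := fun a b c : Cub ℂ => pol_eq_sum (RingHom.id ℂ) rt rt_cube e1_rt
    (by have := e2_rt; linear_combination this) a b c
  simp only [RingHom.id_apply] at hpol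
  have hW0 := hW' 0
  have hW1 := hW' 1
  have hW2 := hW' 2
  intro i
  rcases i with _ | ⟨k, l⟩
  · show _ * pol (Cub.rho ℂ ^ ((0 : Fin 3) : ℕ) * Theta (ofConj α) (ofConj U) 3)
      (Cub.rho ℂ ^ ((0 : Fin 3) : ℕ) * Theta (ofConj α) (ofConj U) 3)
      (Cub.rho ℂ ^ ((0 : Fin 3) : ℕ) * Theta (ofConj α) (ofConj U) 3) = τ
    rw [hpol]
    simp only [map_mul, hev, h3, Fin.val_zero, pow_zero, map_one, one_mul]
    field_simp
    ring
  · show _ * pol (Cub.rho ℂ ^ (l : ℕ) * Theta (ofConj α) (ofConj U) (Fin.castLE (by norm_num) k))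
      (Cub.rho ℂ ^ ((0 : Fin 3) : ℕ) * Theta (ofConj α) (ofConj U) 3)
      (Cub.rho ℂ ^ ((0 : Fin 3) : ℕ) * Theta (ofConj α) (ofConj U) 3) =
      τ / 3 * ∑ s : Fin 3, rt s ^ (l : ℕ) * fS (α s) (U s) k
    rw [hpol, Fin.sum_univ_three]
    simp only [map_mul, map_pow, hev, h3, h01, Fin.val_zero, pow_zero, map_one, one_mul,
      Cub.ev_rho]
    field_simp
    ring

/-- The inverse matrix relation. -/
theorem sum_dl' (l l' : Fin 3) :
    ∑ s : Fin 3, rt s ^ (l : ℕ) * dl s l' = if l = l' then 1 else 0 := by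
  have h1 : (Matrix.of fun s l => dl s l : Matrix (Fin 3) (Fin 3) ℂ) *
      (Matrix.of fun (l : Fin 3) (t : Fin 3) => rt t ^ (l : ℕ) : Matrix (Fin 3) (Fin 3) ℂ)
        = 1 := by
    ext s t
    rw [Matrix.mul_apply, Matrix.one_apply]
    exact sum_dl s t
  have h2 := mul_eq_one_comm.mp h1
  have h3 := congrFun (congrFun h2 l) l'
  rw [Matrix.mul_apply, Matrix.one_apply] at h3
  exact h3

/-- Step A: from products of points `fS` to arbitrary vectors. -/
theorem step_A (P : MvPolynomial (Option (Fin 2 × Fin 3)) ℂ) (τ : ℂ)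
    (h : ∀ α U : Fin 3 → ℂ, (∀ s, cw (qa (α s) (U s)) (qb (α s) (U s)) (qr (α s) (U s)) ≠ 0) →
      eval (pt τ fun s => fS (α s) (U s)) P = 0) (v : Fin 3 → Fin 2 → ℂ) :
    eval (pt τ v) P = 0 := by
  classical
  have key : ∀ T : Finset (Fin 3), ∀ v : Fin 3 → Fin 2 → ℂ,
      (∀ s, s ∉ T → ∃ α U : ℂ, cw (qa α U) (qb α U) (qr α U) ≠ 0 ∧ v s = fS α U) →
      eval (pt τ v) P = 0 := by
    intro T
    induction T using Finset.induction_on with
    | empty =>
      intro v hv
      choose α U hW hvs using fun s => hv s (Finset.notMem_empty s)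
      have : v = fun s => fS (α s) (U s) := funext hvs
      rw [this]
      exact h α U hW
    | insert s0 T hs0 ih =>
      intro v hv
      let q : Option (Fin 2 × Fin 3) → MvPolynomial (Fin 2) ℂ := fun i =>
        i.elim (C τ) fun kl => C (τ / 3) * ∑ s : Fin 3, C (rt s ^ (kl.2 : ℕ)) *
          (if s = s0 then X kl.1 else C (v s kl.1))
      have hq : ∀ w : Fin 2 → ℂ, eval w (aeval q P) = eval (pt τ (Function.update v s0 w)) P := by
        intro w
        have h1 : eval w (aeval q P) = eval (fun i => eval w (q i)) P := by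
          rw [aeval_def, algebraMap_eq, ← coe_eval₂Hom]
          have := MvPolynomial.eval₂_comp_left (eval w) C q P
          rw [coe_eval₂Hom, this]
          have hid : (eval w).comp (C : ℂ →+* MvPolynomial (Fin 2) ℂ) = RingHom.id ℂ := by
            ext z <;> simp
          rw [hid]
          rfl
        rw [h1]
        congr 1
        congr 1
        funext i
        rcases i with _ | ⟨k, l⟩
        · simp [q, pt]
        · simp only [q, pt, Option.elim, map_mul, eval_C, map_sum]
          congr 1
          refine Finset.sum_congr rfl fun s _ => ?_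
          congr 1
          by_cases hs : s = s0
          · subst hs
            simp
          · rw [if_neg hs, eval_C, Function.update_of_ne hs]
      have hp : aeval q P = 0 := by
        refine dense_fS _ fun α U hW => ?_
        rw [hq]
        refine ih _ fun s hs => ?_
        by_cases hss : s = s0
        · subst hss
          exact ⟨α, U, hW, by simp⟩
        · rw [Function.update_of_ne hss]
          exact hv s (by simp [hss, hs])
      have := hq (v s0)
      rw [hp, map_zero, Function.update_eq_self] at this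
      exact this.symm
  exact key Finset.univ v fun s hs => absurd (Finset.mem_univ s) hs

/-- The seven coordinates are algebraically independent modulo the ideal of `X`. -/
theorem algebraicIndependent_yIdx : AlgebraicIndependent ℚ
    (fun i => Ideal.Quotient.mk XI.ideal (X (yIdx i))) := by
  rw [algebraicIndependent_iff]
  intro P hP
  set g : MvPolynomial Idx ℚ := aeval (fun i => X (yIdx i)) P with hg
  have hmem : g ∈ XI.ideal := by
    rw [← Ideal.Quotient.eq_zero_iff_mem, ← hP, hg]
    change ((Ideal.Quotient.mkₐ ℚ XI.ideal) (aeval (fun i => X (yIdx i)) P)) = _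
    rw [← AlgHom.comp_apply, comp_aeval]
    rfl
  have hz : ∀ (a u : Cub ℂ) (c : ℂ),
      aeval (fun i => c * xJ (Theta a u) (yIdx i)) P = 0 := by
    intro a u c
    have := aeval_xJ_Theta_eq_zero a u c g hmem
    rw [hg, ← AlgHom.comp_apply, comp_aeval] at this
    simpa only [aeval_X] using this
  have hz2 : ∀ τ (v : Fin 3 → Fin 2 → ℂ),
      eval (pt τ v) (MvPolynomial.map (algebraMap ℚ ℂ) P) = 0 := by
    intro τ
    refine step_A _ τ fun α U hW => ?_
    obtain ⟨a, u, c, hac⟩ := key_values α U hW τ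
    have := hz a u c
    simp only [hac] at this
    rw [eval_map]
    exact this
  have hmap : MvPolynomial.map (algebraMap ℚ ℂ) P = 0 := by
    refine MvPolynomial.funext_set (fun i => if i = none then ({0}ᶜ : Set ℂ) else Set.univ) ?_ ?_
    · intro i
      split_ifs
      · exact (Set.finite_singleton (0 : ℂ)).infinite_compl
      · exact Set.infinite_univ
    · intro y hy
      rw [map_zero]
      have hy0 : y none ≠ 0 := by
        have := hy none (Set.mem_univ _)
        simpa using this
      have hyv : y = pt (y none) (fun s k => 3 / y none * ∑ l, dl s l * y (some (k, l))) := by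
        funext i
        rcases i with _ | ⟨k, l⟩
        · rfl
        · show y (some (k, l)) = y none / 3 * ∑ s : Fin 3, rt s ^ (l : ℕ) *
            (3 / y none * ∑ l', dl s l' * y (some (k, l')))
          have h1 : ∑ s : Fin 3, rt s ^ (l : ℕ) *
              (3 / y none * ∑ l', dl s l' * y (some (k, l'))) =
              3 / y none * y (some (k, l)) := by
            have h2 : ∑ l', (∑ s : Fin 3, rt s ^ (l : ℕ) * dl s l') * y (some (k, l')) =
                y (some (k, l)) := by
              simp only [sum_dl']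
              simp
            rw [← h2, Finset.mul_sum]
            simp only [Finset.mul_sum, Finset.sum_mul]
            rw [Finset.sum_comm]
            refine Finset.sum_congr rfl fun l' _ => Finset.sum_congr rfl fun s _ => ?_
            ring
          rw [h1]
          field_simp
      rw [hyv]
      exact hz2 _ _
  exact map_injective _ (algebraMap ℚ ℂ).injective (by rw [hmap, map_zero])

theorem trdeg_XI_ge : 7 ≤ Algebra.trdeg ℚ (MvPolynomial Idx ℚ ⧸ XI.ideal) := by
  have h := algebraicIndependent_yIdx.cardinalMk_le_trdeg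
  have hc : Cardinal.mk (Option (Fin 2 × Fin 3)) = 7 := by
    rw [Cardinal.mk_fintype]
    simp
  rwa [hc] at h

end MP9f7b43
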