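import Pool.Agent.Lib.MP_9f7b43_nt.G.Base

/-!
# The dimension of `X` is at most six (part G of MP_9f7b43_nt)
-/

namespace MP9f7b43

open MvPolynomial C31

theorem trdeg_R0 : Algebra.trdeg ℚ R0 = 6 := by
  rw [MvPolynomial.trdeg_of_isDomain]
  simp

theorem trdeg_target : Algebra.trdeg ℚ (Polynomial R0) = 7 := by
  rw [← trdeg_add_eq ℚ R0 (A := Polynomial R0), trdeg_R0, Polynomial.trdeg_of_isDomain]
  norm_num

theorem trdeg_XI_le : Algebra.trdeg ℚ (MvPolynomial Idx ℚ ⧸ XI.ideal) ≤ 7 := by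
  rw [← trdeg_target]
  exact trdeg_le_of_injective (Ideal.kerLiftAlg (psiHom ℚ psiX))
    (Ideal.kerLiftAlg_injective (psiHom ℚ psiX))

theorem dim_XI_of_le (h : 7 ≤ Algebra.trdeg ℚ (MvPolynomial Idx ℚ ⧸ XI.ideal)) :
    XI.dim = 6 := by
  have h7 : Algebra.trdeg ℚ (MvPolynomial Idx ℚ ⧸ XI.ideal) = 7 := le_antisymm trdeg_XI_le h
  unfold ProjVar.dim
  rw [h7]
  simp

end MP9f7b43
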