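import Pool.Agent.Lib.MP_9f7b43_nt.G.Pts
import Pool.Agent.Lib.MP_9f7b43_nt.Roots

/-!
# The Segre coordinates over `ℂ` (part G of MP_9f7b43_nt)

`Zc s i` is the conjugate number `s` of the generic point `Θ(α, U)`; the linear forms
`L i j k = ∑ J, S i j k J * X J` parametrise `Zc 0 i * Zc 1 j * Zc 2 k`, and the coordinates `x_J` are
linear combinations of them.
-/

namespace MP9f7b43

open MvPolynomial C31

/-- The dual basis of `1, ρ, ρ²`, number `s`. -/
noncomputable def dl (s : Fin 3) : Fin 3 → ℂ :=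
  ![(rt s ^ 2 - 1) / (3 * rt s ^ 2 - 1), rt s / (3 * rt s ^ 2 - 1), 1 / (3 * rt s ^ 2 - 1)]

theorem disc_rt_ne_zero (s : Fin 3) : 3 * rt s ^ 2 - 1 ≠ 0 := by
  intro h
  have hc := rt_cube s
  have h1 : rt s = -3 / 2 := by
    linear_combination (-3 / 2 : ℂ) * hc + (rt s / 2) * h
  rw [h1] at h
  norm_num at h

theorem sum_dl (s t : Fin 3) :
    ∑ l : Fin 3, dl s l * rt t ^ (l : ℕ) = if s = t then 1 else 0 := by
  have hs := disc_rt_ne_zero s
  rw [Fin.sum_univ_three]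
  have e : dl s 0 * rt t ^ ((0 : Fin 3) : ℕ) + dl s 1 * rt t ^ ((1 : Fin 3) : ℕ)
      + dl s 2 * rt t ^ ((2 : Fin 3) : ℕ) =
      (rt s ^ 2 + rt s * rt t + rt t ^ 2 - 1) / (3 * rt s ^ 2 - 1) := by
    simp only [dl, Matrix.cons_val_zero, Matrix.cons_val_one, Matrix.cons_val]
    simp
    field_simp
    ring
  rw [e]
  by_cases hst : s = t
  · subst hst
    rw [if_pos rfl, div_eq_one_iff_eq hs]
    ring
  · rw [if_neg hst, div_eq_zero_iff]
    left
    have hne : rt s - rt t ≠ 0 := sub_ne_zero.mpr fun h => hst (rt_injective h)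
    have : (rt s - rt t) * (rt s ^ 2 + rt s * rt t + rt t ^ 2 - 1) = 0 := by
      linear_combination rt_cube s - rt_cube t
    exact (mul_eq_zero.mp this).resolve_left hne

/-- The ring of the parametrisation over `ℂ`. -/
abbrev RC : Type := MvPolynomial (Fin 2 × Fin 3) ℂ

theorem rtC_cube (s : Fin 3) : (C (rt s) : RC) ^ 3 = C (rt s) + 1 := by
  rw [← map_pow, rt_cube, map_add, map_one]

/-- The conjugate number `s` of the generic point. -/
noncomputable def Zc (s : Fin 3) (i : Fin 4) : RC :=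
  Cub.ev (MvPolynomial.map (algebraMap ℚ ℂ) : R0 →+* RC) (C (rt s)) (rtC_cube s)
    (Theta genAlpha genU i)

theorem Zc_F (s : Fin 3) : C31.F (Zc s 0) (Zc s 1) (Zc s 2) (Zc s 3) = 0 := by
  unfold Zc
  rw [← map_F, F_Theta, map_zero]

/-- The product of the three conjugates attached to a map `s : Fin 3 → Fin 3`. -/
noncomputable def termZ (s : Fin 3 → Fin 3) (J : Idx) : RC :=
  ∏ t : Fin 3, (C (rt (s t) ^ ((J t).2 : ℕ)) * Zc (s t) (J t).1)

theorem map_psiX (J : Idx) :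
    MvPolynomial.map (algebraMap ℚ ℂ) (psiX J) =
      termZ ![0, 1, 2] J + termZ ![0, 2, 1] J + termZ ![1, 0, 2] J + termZ ![1, 2, 0] J
        + termZ ![2, 0, 1] J + termZ ![2, 1, 0] J := by
  unfold psiX xJ
  rw [pol_eq_sum (MvPolynomial.map (algebraMap ℚ ℂ) : R0 →+* RC) (fun i => (C (rt i) : RC))
    rtC_cube (by rw [← map_add, ← map_add, e1_rt, map_zero])
    (by rw [← map_mul, ← map_mul, ← map_mul, ← map_add, ← map_add, e2_rt, map_neg, map_one])]
  simp only [map_mul, map_pow, Cub.ev_rho]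
  simp only [termZ, Fin.prod_univ_three, Matrix.cons_val_zero, Matrix.cons_val_one,
    Matrix.cons_val, Zc, map_pow]

/-- The coefficients of the linear forms `L i j k`. -/
noncomputable def Sc (i j k : Fin 4) (J : Idx) : ℂ :=
  ∏ t : Fin 3, (if (J t).1 = (![i, j, k] : Fin 3 → Fin 4) t then dl t (J t).2 else 0)

theorem sum_Sc_termZ (i j k : Fin 4) (s : Fin 3 → Fin 3) :
    ∑ J : Idx, C (Sc i j k J) * termZ s J =
      ∏ t : Fin 3, (if t = s t then Zc (s t) ((![i, j, k] : Fin 3 → Fin 4) t) else 0) := by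
  have h1 : ∀ J : Idx, C (Sc i j k J) * termZ s J =
      ∏ t : Fin 3, (C (if (J t).1 = (![i, j, k] : Fin 3 → Fin 4) t then dl t (J t).2 else 0) *
        (C (rt (s t) ^ ((J t).2 : ℕ)) * Zc (s t) (J t).1)) := by
    intro J
    unfold Sc termZ
    rw [map_prod, ← Finset.prod_mul_distrib]
  simp only [h1]
  have h2 := Finset.prod_univ_sum (fun _ : Fin 3 => (Finset.univ : Finset (Fin 4 × Fin 3)))
    (fun (t : Fin 3) (p : Fin 4 × Fin 3) =>
      (C (if p.1 = (![i, j, k] : Fin 3 → Fin 4) t then dl t p.2 else 0) *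
        (C (rt (s t) ^ (p.2 : ℕ)) * Zc (s t) p.1) : RC))
  rw [Fintype.piFinset_univ] at h2
  rw [← h2]
  refine Finset.prod_congr rfl fun t _ => ?_
  rw [Fintype.sum_prod_type]
  rw [Finset.sum_eq_single ((![i, j, k] : Fin 3 → Fin 4) t)]
  · simp only [if_true]
    have h3 : ∑ l : Fin 3, (C (dl t l) * (C (rt (s t) ^ (l : ℕ)) *
        Zc (s t) ((![i, j, k] : Fin 3 → Fin 4) t)) : RC) =
        C (∑ l : Fin 3, dl t l * rt (s t) ^ (l : ℕ)) *
          Zc (s t) ((![i, j, k] : Fin 3 → Fin 4) t) := by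
      rw [map_sum, Finset.sum_mul]
      refine Finset.sum_congr rfl fun l _ => ?_
      rw [map_mul, mul_assoc]
    rw [h3, sum_dl]
    split_ifs
    · rw [map_one, one_mul]
    · rw [map_zero, zero_mul]
  · intro b _ hb
    refine Finset.sum_eq_zero fun l _ => ?_
    simp only [if_neg hb, map_zero, zero_mul]
  · intro h
    exact absurd (Finset.mem_univ _) h

theorem sum_Sc_map_psiX (i j k : Fin 4) :
    ∑ J : Idx, C (Sc i j k J) * MvPolynomial.map (algebraMap ℚ ℂ) (psiX J) =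
      Zc 0 i * Zc 1 j * Zc 2 k := by
  simp only [map_psiX, mul_add, Finset.sum_add_distrib, sum_Sc_termZ]
  simp [Fin.prod_univ_three]

/-- The coefficients of the coordinates `x_J` in terms of the products of conjugates. -/
noncomputable def Ec (J : Idx) (i j k : Fin 4) : ℂ :=
  rt 0 ^ ((J 0).2 : ℕ) * rt 1 ^ ((J 1).2 : ℕ) * rt 2 ^ ((J 2).2 : ℕ) *
      (if i = (J 0).1 then (if j = (J 1).1 then (if k = (J 2).1 then 1 else 0) else 0) else 0)
    + rt 0 ^ ((J 0).2 : ℕ) * rt 2 ^ ((J 1).2 : ℕ) * rt 1 ^ ((J 2).2 : ℕ) *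
      (if i = (J 0).1 then (if j = (J 2).1 then (if k = (J 1).1 then 1 else 0) else 0) else 0)
    + rt 1 ^ ((J 0).2 : ℕ) * rt 0 ^ ((J 1).2 : ℕ) * rt 2 ^ ((J 2).2 : ℕ) *
      (if i = (J 1).1 then (if j = (J 0).1 then (if k = (J 2).1 then 1 else 0) else 0) else 0)
    + rt 1 ^ ((J 0).2 : ℕ) * rt 2 ^ ((J 1).2 : ℕ) * rt 0 ^ ((J 2).2 : ℕ) *
      (if i = (J 2).1 then (if j = (J 0).1 then (if k = (J 1).1 then 1 else 0) else 0) else 0)
    + rt 2 ^ ((J 0).2 : ℕ) * rt 0 ^ ((J 1).2 : ℕ) * rt 1 ^ ((J 2).2 : ℕ) *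
      (if i = (J 1).1 then (if j = (J 2).1 then (if k = (J 0).1 then 1 else 0) else 0) else 0)
    + rt 2 ^ ((J 0).2 : ℕ) * rt 1 ^ ((J 1).2 : ℕ) * rt 0 ^ ((J 2).2 : ℕ) *
      (if i = (J 2).1 then (if j = (J 1).1 then (if k = (J 0).1 then 1 else 0) else 0) else 0)

theorem sum_pick (c : ℂ) (a b d : Fin 4) (f : Fin 4 → Fin 4 → Fin 4 → RC) :
    ∑ i, ∑ j, ∑ k, C (c * (if i = a then (if j = b then (if k = d then 1 else 0) else 0) else 0))
      * f i j k = C c * f a b d := by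
  rw [Finset.sum_eq_single a]
  · rw [Finset.sum_eq_single b]
    · rw [Finset.sum_eq_single d]
      · simp
      · intro k _ hk; simp [hk]
      · intro h; exact absurd (Finset.mem_univ _) h
    · intro j _ hj; simp [hj]
    · intro h; exact absurd (Finset.mem_univ _) h
  · intro i _ hi; simp [hi]
  · intro h; exact absurd (Finset.mem_univ _) h

theorem sum_Ec (J : Idx) :
    ∑ i, ∑ j, ∑ k, C (Ec J i j k) * (Zc 0 i * Zc 1 j * Zc 2 k) =
      MvPolynomial.map (algebraMap ℚ ℂ) (psiX J) := by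
  unfold Ec
  simp only [map_add, add_mul, Finset.sum_add_distrib]
  rw [sum_pick _ _ _ _ fun i j k => Zc 0 i * Zc 1 j * Zc 2 k,
    sum_pick _ _ _ _ fun i j k => Zc 0 i * Zc 1 j * Zc 2 k,
    sum_pick _ _ _ _ fun i j k => Zc 0 i * Zc 1 j * Zc 2 k,
    sum_pick _ _ _ _ fun i j k => Zc 0 i * Zc 1 j * Zc 2 k,
    sum_pick _ _ _ _ fun i j k => Zc 0 i * Zc 1 j * Zc 2 k,
    sum_pick _ _ _ _ fun i j k => Zc 0 i * Zc 1 j * Zc 2 k, map_psiX]
  simp only [termZ, Fin.prod_univ_three, Matrix.cons_val_zero, Matrix.cons_val_one,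
    Matrix.cons_val, map_mul]
  ring

/-- The data used for smoothness. -/
structure SegData where
  S : Fin 4 → Fin 4 → Fin 4 → Idx → ℂ
  E : Idx → Fin 4 → Fin 4 → Fin 4 → ℂ
  Z : Fin 3 → Fin 4 → MvPolynomial (Fin 2 × Fin 3) ℂ
  hF : ∀ s, C31.F (Z s 0) (Z s 1) (Z s 2) (Z s 3) = 0
  hL : ∀ i j k, psiHom ℂ psiX (∑ J, C (S i j k J) * X J) =
    Polynomial.C (Z 0 i * Z 1 j * Z 2 k) * Polynomial.X
  hE : ∀ J, psiHom ℂ psiX (X J) = ∑ i, ∑ j, ∑ k,
    Polynomial.C (C (E J i j k)) * (Polynomial.C (Z 0 i * Z 1 j * Z 2 k) * Polynomial.X)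

theorem psiHom_X (J : Idx) : psiHom ℂ psiX (X J) =
    Polynomial.C (MvPolynomial.map (algebraMap ℚ ℂ) (psiX J)) * Polynomial.X := by
  unfold psiHom
  rw [aeval_X]

theorem psiHom_C (c : ℂ) : psiHom ℂ psiX (C c) = Polynomial.C (C c) := by
  unfold psiHom
  rw [aeval_C]
  rfl

/-- The Segre data. -/
noncomputable def segData : SegData where
  S := Sc
  E := Ec
  Z := Zc
  hF := Zc_F
  hL := by
    intro i j k
    rw [map_sum]
    simp only [map_mul, psiHom_X, psiHom_C]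
    rw [← map_mul, ← map_mul, ← sum_Sc_map_psiX, map_sum, Finset.sum_mul]
    refine Finset.sum_congr rfl fun J _ => ?_
    rw [map_mul, mul_assoc]
  hE := by
    intro J
    rw [psiHom_X, ← sum_Ec]
    simp only [map_sum, Finset.sum_mul, map_mul]
    refine Finset.sum_congr rfl fun i _ => Finset.sum_congr rfl fun j _ =>
      Finset.sum_congr rfl fun k _ => ?_
    ring

theorem exists_segData : Nonempty SegData := ⟨segData⟩

end MP9f7b43
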