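import Pool.Agent.Lib.MP_9f7b43_nt.G.SmoothAbs
import Pool.Agent.Lib.MP_9f7b43_nt.G.Seg

/-!
# MP_9f7b43_nt, part G: the tangent spaces of the cone over `X` have dimension at most 7
-/

namespace MP9f7b43

open MvPolynomial

/-- At every complex point of `X` the tangent space of the affine cone has dimension at most
`7`. -/
theorem finrank_tangentSpace_le (x : Idx → ℂ) (hx0 : x ≠ 0)
    (hx : ∀ g ∈ XI.ideal, aeval x g = 0) : Module.finrank ℂ (XI.tangentSpace x) ≤ 7 :=
  tangent_le_seven psiX segData.S segData.E segData.Z segData.hF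
    (fun i j k => segData.hL i j k) segData.hE x hx0 hx (XI.tangentSpace x)
    (fun _ hv g hg => hv g hg)

/-- Smoothness follows from the dimension. -/
theorem smooth_of_dim (h : XI.dim = 6) : XI.Smooth := by
  intro x hx0 hx
  rw [h]
  exact finrank_tangentSpace_le x hx0 hx

end MP9f7b43
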