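import Pool.Agent.Lib.MP_9f7b43_nt.Ifc
import Pool.Agent.Lib.MP_9f7b43_nt.G.Tangent
import Pool.Agent.Lib.MP_9f7b43_nt.G.DimLe
import Pool.Agent.Lib.MP_9f7b43_nt.G.DimGe

/-!
# MP_9f7b43_nt, part G: `X` has dimension 6 and is smooth
-/

namespace MP9f7b43

theorem gDim : GDim := dim_XI_of_le trdeg_XI_ge

theorem gSmooth : GSmooth := smooth_of_dim gDim

end MP9f7b43
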