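import Mathlib

/-!
# MP_9f7b43_nt, part G: the cubic surface `F = 0` is smooth

`F(u,v,z,w) = (u^2-uv+v^2) z + 4u^3-15u^2v+3uv^2+4v^3 + w (z^2+56zw+931w^2)`.
-/

namespace MP9f7b43

/-- The four partial derivatives of `F` have no common zero except the origin. -/
theorem grad_zero {u v z w : ℂ}
    (hu : (2 * u - v) * z + 12 * u ^ 2 - 30 * u * v + 3 * v ^ 2 = 0)
    (hv : (2 * v - u) * z - 15 * u ^ 2 + 6 * u * v + 12 * v ^ 2 = 0)
    (hz : u ^ 2 - u * v + v ^ 2 + 2 * z * w + 56 * w ^ 2 = 0)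
    (hw : z ^ 2 + 112 * z * w + 2793 * w ^ 2 = 0) : u = 0 ∧ v = 0 ∧ z = 0 ∧ w = 0 := by
  have key : (u ^ 2 - u * v + v ^ 2) * (z ^ 2 - 63 * (u ^ 2 - u * v + v ^ 2)) = 0 := by
    linear_combination (2 * u * z - 3 * v * z + 21 * u ^ 2 - 21 * v ^ 2) * hu +
      (3 * u * z - v * z + 21 * u ^ 2 - 42 * u * v) * hv
  have hw0 : w = 0 := by
    by_contra hne
    rcases mul_eq_zero.mp key with h | h
    · have h1 : w * (z + 28 * w) = 0 := by linear_combination (hz - h) / 2
      rcases mul_eq_zero.mp h1 with h2 | h2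
      · exact hne h2
      · have h3 : w ^ 2 = 0 := by
          linear_combination (hw - (z + 84 * w) * h2) / 441
        exact hne (pow_eq_zero_iff (two_ne_zero) |>.mp h3)
    · have h1 : w * (z + (105 / 2) * w) = 0 := by
        linear_combination (h + 63 * hz - hw) / 14
      rcases mul_eq_zero.mp h1 with h2 | h2
      · exact hne h2
      · have h3 : w ^ 2 = 0 := by
          linear_combination (hw - (z + (119 / 2) * w) * h2) * (-4 / 1323)
        exact hne (pow_eq_zero_iff (two_ne_zero) |>.mp h3)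
  subst hw0
  have hz0 : z = 0 := by
    have : z ^ 2 = 0 := by linear_combination hw
    exact pow_eq_zero_iff (two_ne_zero) |>.mp this
  subst hz0
  have hu2 : u ^ 2 = 0 := by
    linear_combination (2 / 3) * hz - (2 / 63) * hu - (1 / 21) * hv
  have hv2 : v ^ 2 = 0 := by
    linear_combination (2 / 3) * hz - (1 / 63) * hu + (2 / 63) * hv
  refine ⟨pow_eq_zero_iff (two_ne_zero) |>.mp hu2, pow_eq_zero_iff (two_ne_zero) |>.mp hv2, rfl, rfl⟩

end MP9f7b43
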