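import Pool.Agent.Lib.MP_9f7b43_nt.Statement

/-!
# The kernel of a parametrisation (part G of MP_9f7b43_nt)

`ψ : σ → ℚ[κ]` is a family of polynomials; the ideal of the closure of the cone over the image of
the parametrisation is the kernel of `T_J ↦ λ ψ_J`, `ℚ[σ] → ℚ[κ][λ]`.
-/

namespace MP9f7b43

open MvPolynomial

section

variable {σ κ : Type}

/-- The map `T_J ↦ λ ψ_J`. -/
noncomputable def psiHom (F : Type) [Field F] [Algebra ℚ F] (ψ : σ → MvPolynomial κ ℚ) :
    MvPolynomial σ F →ₐ[F] Polynomial (MvPolynomial κ F) :=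
  aeval fun J => Polynomial.C (MvPolynomial.map (algebraMap ℚ F) (ψ J)) * Polynomial.X

theorem coeff_psiHom (F : Type) [Field F] [Algebra ℚ F] (ψ : σ → MvPolynomial κ ℚ)
    (g : MvPolynomial σ F) (d : ℕ) :
    (psiHom F ψ g).coeff d =
      aeval (fun J => MvPolynomial.map (algebraMap ℚ F) (ψ J)) (homogeneousComponent d g) := by
  induction g using MvPolynomial.induction_on' with
  | monomial m a =>
    have h1 : psiHom F ψ (monomial m a) =
        Polynomial.C (aeval (fun J => MvPolynomial.map (algebraMap ℚ F) (ψ J)) (monomial m a)) *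
          Polynomial.X ^ m.degree := by
      unfold psiHom
      rw [aeval_monomial, aeval_monomial]
      have : ∀ J (k : ℕ), (Polynomial.C (MvPolynomial.map (algebraMap ℚ F) (ψ J)) *
          Polynomial.X) ^ k = Polynomial.C (MvPolynomial.map (algebraMap ℚ F) (ψ J) ^ k) *
            Polynomial.X ^ k := by
        intro J k
        rw [mul_pow, map_pow]
      simp only [Finsupp.prod, this, Finset.prod_mul_distrib]
      rw [Finset.prod_pow_eq_pow_sum, map_mul, map_prod, Finsupp.degree]
      rw [← mul_assoc]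
      rfl
    rw [h1, Polynomial.coeff_C_mul, Polynomial.coeff_X_pow]
    by_cases hd : d = m.degree
    · rw [if_pos hd, mul_one]
      congr 1
      rw [hd]
      symm
      have hm : (monomial m a : MvPolynomial σ F).IsHomogeneous m.degree :=
        isHomogeneous_monomial a rfl
      exact homogeneousComponent_of_mem hm |>.trans (if_pos rfl)
    · rw [if_neg hd, mul_zero]
      have hm : (monomial m a : MvPolynomial σ F).IsHomogeneous m.degree :=
        isHomogeneous_monomial a rfl
      rw [homogeneousComponent_of_mem hm, if_neg hd, map_zero]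
  | add p q hp hq =>
    rw [map_add, Polynomial.coeff_add, hp, hq, map_add, map_add]

/-- The ideal of the (cone over the) closure of the image of a parametrisation. -/
noncomputable def kerIdeal (ψ : σ → MvPolynomial κ ℚ) : Ideal (MvPolynomial σ ℚ) :=
  RingHom.ker (psiHom ℚ ψ)

theorem kerIdeal_isPrime (ψ : σ → MvPolynomial κ ℚ) : (kerIdeal ψ).IsPrime :=
  RingHom.ker_isPrime _

theorem mem_kerIdeal {ψ : σ → MvPolynomial κ ℚ} {g : MvPolynomial σ ℚ} :
    g ∈ kerIdeal ψ ↔ ∀ d, aeval ψ (homogeneousComponent d g) = 0 := by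
  unfold kerIdeal
  rw [RingHom.mem_ker]
  have hmap : (fun J => MvPolynomial.map (algebraMap ℚ ℚ) (ψ J)) = ψ := by
    funext J
    exact MvPolynomial.map_id (ψ J)
  constructor
  · intro h d
    have := coeff_psiHom ℚ ψ g d
    rw [hmap] at this
    rw [← this]
    change ((psiHom ℚ ψ) g).coeff d = 0
    have h' : (psiHom ℚ ψ) g = 0 := h
    rw [h', Polynomial.coeff_zero]
  · intro h
    change (psiHom ℚ ψ) g = 0
    ext1 d
    rw [coeff_psiHom, hmap, h d, Polynomial.coeff_zero]

theorem kerIdeal_homogeneous (ψ : σ → MvPolynomial κ ℚ) (g : MvPolynomial σ ℚ)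
    (hg : g ∈ kerIdeal ψ) (d : ℕ) : homogeneousComponent d g ∈ kerIdeal ψ := by
  rw [mem_kerIdeal] at hg ⊢
  intro e
  rw [homogeneousComponent_of_mem (homogeneousComponent_isHomogeneous d g)]
  by_cases h : e = d
  · rw [if_pos h]; exact hg d
  · rw [if_neg h, map_zero]

theorem mem_kerIdeal_of_isHomogeneous {ψ : σ → MvPolynomial κ ℚ} {g : MvPolynomial σ ℚ} {d : ℕ}
    (hd : g.IsHomogeneous d) (h : aeval ψ g = 0) : g ∈ kerIdeal ψ := by
  rw [mem_kerIdeal]
  intro e
  rw [homogeneousComponent_of_mem hd]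
  by_cases he : e = d
  · rw [if_pos he]; exact h
  · rw [if_neg he, map_zero]

end

section BaseChange

variable {σ κ : Type}

/-- Apply a `ℚ`-linear functional `L : ℂ → ℚ` to all coefficients. -/
noncomputable def coeffL0 (τ : Type) (L : ℂ →ₗ[ℚ] ℚ) (q : MvPolynomial τ ℂ) : MvPolynomial τ ℚ :=
  AddMonoidAlgebra.map L.toAddMonoidHom q

theorem coeff_coeffL0 {τ : Type} (L : ℂ →ₗ[ℚ] ℚ) (q : MvPolynomial τ ℂ) (m : τ →₀ ℕ) :
    coeff m (coeffL0 τ L q) = L (coeff m q) := rfl

/-- The additive map on polynomials which applies a `ℚ`-linear functional `L : ℂ → ℚ` to all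
coefficients. -/
noncomputable def coeffL (τ : Type) (L : ℂ →ₗ[ℚ] ℚ) : MvPolynomial τ ℂ →+ MvPolynomial τ ℚ where
  toFun := coeffL0 τ L
  map_zero' := by
    ext m
    rw [coeff_coeffL0, coeff_zero, coeff_zero, map_zero]
  map_add' := by
    intro p q
    ext m
    rw [coeff_coeffL0, coeff_add, coeff_add, map_add, coeff_coeffL0, coeff_coeffL0]

theorem coeff_coeffL {τ : Type} (L : ℂ →ₗ[ℚ] ℚ) (q : MvPolynomial τ ℂ) (m : τ →₀ ℕ) :
    coeff m (coeffL τ L q) = L (coeff m q) := coeff_coeffL0 L q m

theorem coeffL_C_mul_map {τ : Type} (L : ℂ →ₗ[ℚ] ℚ) (c : ℂ) (p : MvPolynomial τ ℚ) :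
    coeffL τ L (C c * MvPolynomial.map (algebraMap ℚ ℂ) p) = C (L c) * p := by
  ext m
  rw [coeff_coeffL, coeff_C_mul, coeff_map, coeff_C_mul]
  have : c * (algebraMap ℚ ℂ) (coeff m p) = (coeff m p) • c := by
    rw [Algebra.smul_def, mul_comm]
  rw [this, map_smul, smul_eq_mul, mul_comm]

/-- Coefficientwise functionals commute with the substitution of rational polynomials. -/
theorem coeffL_aeval (L : ℂ →ₗ[ℚ] ℚ) (ψ : σ → MvPolynomial κ ℚ) (q : MvPolynomial σ ℂ) :
    coeffL κ L (aeval (fun J => MvPolynomial.map (algebraMap ℚ ℂ) (ψ J)) q) =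
      aeval ψ (coeffL σ L q) := by
  induction q using MvPolynomial.induction_on' with
  | monomial m a =>
    have h1 : aeval (fun J => MvPolynomial.map (algebraMap ℚ ℂ) (ψ J)) (monomial m a) =
        C a * MvPolynomial.map (algebraMap ℚ ℂ) (m.prod fun J k => ψ J ^ k) := by
      rw [aeval_monomial, MvPolynomial.algebraMap_eq, Finsupp.prod, Finsupp.prod, map_prod]
      simp only [map_pow]
    have h2 : coeffL σ L (monomial m a) = monomial m (L a) := by
      classical
      ext n
      rw [coeff_coeffL, coeff_monomial, coeff_monomial]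
      split_ifs with h
      · rfl
      · exact map_zero L
    rw [h1, coeffL_C_mul_map, h2, aeval_monomial, MvPolynomial.algebraMap_eq]
  | add p q hp hq =>
    rw [map_add, map_add, hp, hq, map_add, map_add]

theorem coeffL_homogeneousComponent (L : ℂ →ₗ[ℚ] ℚ) (q : MvPolynomial σ ℂ) (d : ℕ) :
    homogeneousComponent d (coeffL σ L q) = coeffL σ L (homogeneousComponent d q) := by
  ext m
  rw [coeff_homogeneousComponent, coeff_coeffL, coeff_coeffL, coeff_homogeneousComponent]
  split_ifs with h
  · rfl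
  · exact (map_zero L).symm

/-- Every complex polynomial is a combination of its rational components. -/
theorem eq_sum_coeffL (q : MvPolynomial σ ℂ) :
    ∃ (s : Finset (Module.Basis.ofVectorSpaceIndex ℚ ℂ)),
      q = ∑ e ∈ s, C (Module.Basis.ofVectorSpace ℚ ℂ e) *
        MvPolynomial.map (algebraMap ℚ ℂ)
          (coeffL σ ((Module.Basis.ofVectorSpace ℚ ℂ).coord e) q) := by
  classical
  set b := Module.Basis.ofVectorSpace ℚ ℂ with hb
  refine ⟨q.support.biUnion fun m => (b.repr (coeff m q)).support, ?_⟩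
  ext m
  rw [coeff_sum]
  simp only [coeff_C_mul, coeff_map, coeff_coeffL]
  by_cases hm : m ∈ q.support
  · have h1 : ∑ e ∈ (b.repr (coeff m q)).support,
        b e * (algebraMap ℚ ℂ) ((b.coord e) (coeff m q)) = coeff m q := by
      have h2 : Finsupp.linearCombination ℚ (⇑b) (b.repr (coeff m q)) = coeff m q :=
        b.linearCombination_repr (coeff m q)
      rw [Finsupp.linearCombination_apply, Finsupp.sum] at h2
      conv_rhs => rw [← h2]
      refine Finset.sum_congr rfl fun e _ => ?_
      rw [Algebra.smul_def, mul_comm]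
      rfl
    refine h1.symm.trans (Finset.sum_subset ?_ ?_)
    · exact Finset.subset_biUnion_of_mem
        (fun m : σ →₀ ℕ => (b.repr (coeff m q)).support) hm
    · intro e _ he
      rw [Finsupp.mem_support_iff, not_not] at he
      have : (b.coord e) (coeff m q) = 0 := he
      rw [this, map_zero, mul_zero]
  · rw [notMem_support_iff] at hm
    rw [hm]
    simp

/-- BASE CHANGE: the kernel of the complex parametrisation is generated by the rational kernel. -/
theorem mem_map_of_psiHom_eq_zero (ψ : σ → MvPolynomial κ ℚ) (q : MvPolynomial σ ℂ)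
    (hq : psiHom ℂ ψ q = 0) :
    q ∈ (kerIdeal ψ).map (MvPolynomial.map (algebraMap ℚ ℂ)) := by
  obtain ⟨s, hs⟩ := eq_sum_coeffL q
  rw [hs]
  refine Ideal.sum_mem _ fun e _ => Ideal.mul_mem_left _ _ ?_
  refine Ideal.mem_map_of_mem _ ?_
  rw [mem_kerIdeal]
  intro d
  rw [coeffL_homogeneousComponent, ← coeffL_aeval, ← coeff_psiHom, hq, Polynomial.coeff_zero,
    map_zero]

theorem psiHom_map (ψ : σ → MvPolynomial κ ℚ) (g : MvPolynomial σ ℚ) :
    psiHom ℂ ψ (MvPolynomial.map (algebraMap ℚ ℂ) g) =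
      Polynomial.map (MvPolynomial.map (algebraMap ℚ ℂ)) (psiHom ℚ ψ g) := by
  induction g using MvPolynomial.induction_on with
  | C a =>
    unfold psiHom
    rw [map_C, aeval_C, aeval_C]
    simp
  | add p q hp hq => rw [map_add, map_add, hp, hq, map_add, Polynomial.map_add]
  | mul_X p J hp =>
    rw [map_mul, map_mul, hp, map_mul, Polynomial.map_mul, map_X]
    congr 1
    unfold psiHom
    rw [aeval_X, aeval_X, Polynomial.map_mul, Polynomial.map_X, Polynomial.map_C]
    have : MvPolynomial.map (algebraMap ℚ ℚ) (ψ J) = ψ J := MvPolynomial.map_id (ψ J)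
    rw [this]

theorem map_kerIdeal_eq (ψ : σ → MvPolynomial κ ℚ) :
    (kerIdeal ψ).map (MvPolynomial.map (algebraMap ℚ ℂ)) = RingHom.ker (psiHom ℂ ψ) := by
  apply le_antisymm
  · rw [Ideal.map_le_iff_le_comap]
    intro g hg
    rw [Ideal.mem_comap, RingHom.mem_ker]
    have h0 : psiHom ℚ ψ g = 0 := hg
    change psiHom ℂ ψ (MvPolynomial.map (algebraMap ℚ ℂ) g) = 0
    rw [psiHom_map, h0, Polynomial.map_zero]
  · intro q hq
    exact mem_map_of_psiHom_eq_zero ψ q hq

/-- The variety is geometrically integral. -/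
theorem map_kerIdeal_isPrime (ψ : σ → MvPolynomial κ ℚ) :
    ((kerIdeal ψ).map (MvPolynomial.map (algebraMap ℚ ℂ))).IsPrime := by
  rw [map_kerIdeal_eq]
  exact RingHom.ker_isPrime _

/-- Elements of the ideal generated by `I` in `ℂ[σ]` vanish at the complex zeros of `I`. -/
theorem eval_eq_zero_of_mem_map (I : Ideal (MvPolynomial σ ℚ)) (x : σ → ℂ)
    (hx : ∀ g ∈ I, aeval x g = 0) (q : MvPolynomial σ ℂ)
    (hq : q ∈ I.map (MvPolynomial.map (algebraMap ℚ ℂ))) : eval x q = 0 := by
  have h : I.map (MvPolynomial.map (algebraMap ℚ ℂ)) ≤ RingHom.ker (eval x) := by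
    rw [Ideal.map_le_iff_le_comap]
    intro g hg
    rw [Ideal.mem_comap, RingHom.mem_ker, eval_map]
    exact hx g hg
  exact h hq

/-- Tangent vectors kill the differentials of all elements of the ideal generated by `I`. -/
theorem sum_pderiv_eq_zero_of_mem_map [Fintype σ] (I : Ideal (MvPolynomial σ ℚ)) (x v : σ → ℂ)
    (hx : ∀ g ∈ I, aeval x g = 0) (hv : ∀ g ∈ I, ∑ i, aeval x (pderiv i g) * v i = 0)
    (q : MvPolynomial σ ℂ) (hq : q ∈ I.map (MvPolynomial.map (algebraMap ℚ ℂ))) :
    ∑ i, eval x (pderiv i q) * v i = 0 := by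
  classical
  refine Submodule.span_induction (p := fun q _ => ∑ i, eval x (pderiv i q) * v i = 0)
    ?_ ?_ ?_ ?_ (show q ∈ Submodule.span (MvPolynomial σ ℂ) _ from hq)
  · rintro _ ⟨g, hg, rfl⟩
    have := hv g hg
    have h2 : ∀ i, eval x (pderiv i (MvPolynomial.map (algebraMap ℚ ℂ) g)) =
        aeval x (pderiv i g) := by
      intro i
      rw [pderiv_map, eval_map]
      rfl
    simpa only [h2] using this
  · simp
  · intro a b _ _ ha hb
    simp only [map_add, add_mul, Finset.sum_add_distrib]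
    rw [ha, hb, add_zero]
  · intro r a ha' ha
    have h0 : eval x a = 0 := eval_eq_zero_of_mem_map I x hx a ha'
    have h1 : ∀ i, eval x (pderiv i (r • a)) * v i =
        eval x r * (eval x (pderiv i a) * v i) := by
      intro i
      rw [smul_eq_mul, pderiv_mul, map_add, map_mul, map_mul, h0]
      ring
    simp only [h1, ← Finset.mul_sum]
    rw [ha, mul_zero]

end BaseChange

end MP9f7b43
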