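import Mathlib

/-!
# MP_9f7b43_nt, part G: the dimension bound for the tangent space

The space of all vectors `a ⊗ v ⊗ w + u ⊗ b ⊗ w + u ⊗ v ⊗ c`, `a, b, c` in three hyperplanes
which contain `u`, `v`, `w`, has dimension at most `3 + 3 + 3 - 2 = 7`.
-/

namespace MP9f7b43

/-- The differential of the Segre map at `(u, v, w)`. -/
noncomputable def dSeg (u v w : Fin 4 → ℂ) :
    ((Fin 4 → ℂ) × (Fin 4 → ℂ) × (Fin 4 → ℂ)) →ₗ[ℂ] (Fin 4 → Fin 4 → Fin 4 → ℂ) where
  toFun p := fun i j k => p.1 i * v j * w k + u i * p.2.1 j * w k + u i * v j * p.2.2 k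
  map_add' p q := by
    funext i j k
    simp only [Prod.fst_add, Prod.snd_add, Pi.add_apply]
    ring
  map_smul' c p := by
    funext i j k
    simp only [Prod.smul_fst, Prod.smul_snd, Pi.smul_apply, smul_eq_mul, RingHom.id_apply]
    ring

private theorem finrank_ker {g : (Fin 4 → ℂ) →ₗ[ℂ] ℂ} (hg : g ≠ 0) :
    Module.finrank ℂ (LinearMap.ker g) = 3 := by
  have h1 := LinearMap.finrank_range_add_finrank_ker g
  have h2 : Module.finrank ℂ (LinearMap.range g) = 1 := by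
    rw [LinearMap.range_eq_top.mpr (LinearMap.surjective hg)]
    simp
  rw [h2] at h1
  simp at h1
  omega

/-- A subspace of the image of three hyperplanes has dimension at most `7`. -/
theorem tangent_dim {ι : Type} [Fintype ι]
    (E : (Fin 4 → Fin 4 → Fin 4 → ℂ) →ₗ[ℂ] (ι → ℂ)) (V : Submodule ℂ (ι → ℂ))
    (u v w : Fin 4 → ℂ) (hu : u ≠ 0) (hv : v ≠ 0) (hw : w ≠ 0)
    (gu gv gw : (Fin 4 → ℂ) →ₗ[ℂ] ℂ) (hgu : gu ≠ 0) (hgv : gv ≠ 0) (hgw : gw ≠ 0)
    (hu0 : gu u = 0) (hv0 : gv v = 0) (hw0 : gw w = 0)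
    (hV : ∀ x ∈ V, ∃ a b c : Fin 4 → ℂ, gu a = 0 ∧ gv b = 0 ∧ gw c = 0 ∧
      x = E (dSeg u v w (a, b, c))) :
    Module.finrank ℂ V ≤ 7 := by
  classical
  set Ku := LinearMap.ker gu
  set Kv := LinearMap.ker gv
  set Kw := LinearMap.ker gw
  let inc : (Ku × Kv × Kw) →ₗ[ℂ] ((Fin 4 → ℂ) × (Fin 4 → ℂ) × (Fin 4 → ℂ)) :=
    LinearMap.prodMap Ku.subtype (LinearMap.prodMap Kv.subtype Kw.subtype)
  let L : (Ku × Kv × Kw) →ₗ[ℂ] (ι → ℂ) := E ∘ₗ (dSeg u v w) ∘ₗ inc
  have hle : V ≤ LinearMap.range L := by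
    intro x hx
    obtain ⟨a, b, c, ha, hb, hc, rfl⟩ := hV x hx
    exact ⟨(⟨a, ha⟩, ⟨b, hb⟩, ⟨c, hc⟩), rfl⟩
  have h9 : Module.finrank ℂ (Ku × Kv × Kw) = 9 := by
    rw [Module.finrank_prod, Module.finrank_prod, finrank_ker hgu, finrank_ker hgv,
      finrank_ker hgw]
  have hrk := LinearMap.finrank_range_add_finrank_ker L
  rw [h9] at hrk
  -- the kernel contains two independent vectors
  let e : Fin 2 → (Ku × Kv × Kw) :=
    ![(⟨u, hu0⟩, -⟨v, hv0⟩, 0), (0, ⟨v, hv0⟩, -⟨w, hw0⟩)]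
  have hker : ∀ i, e i ∈ LinearMap.ker L := by
    intro i
    rw [LinearMap.mem_ker]
    have : (dSeg u v w) (inc (e i)) = 0 := by
      funext a b c
      fin_cases i
      · simp [dSeg, inc, e]
      · simp [dSeg, inc, e]
    show E ((dSeg u v w) (inc (e i))) = 0
    rw [this, map_zero]
  let e' : Fin 2 → LinearMap.ker L := fun i => ⟨e i, hker i⟩
  have hind : LinearIndependent ℂ e' := by
    refine (Fintype.linearIndependent_iff (R := ℂ) (v := e')).mpr ?_
    intro g hg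
    have h := congrArg (fun z : LinearMap.ker L => (z : Ku × Kv × Kw)) hg
    have h0 : g 0 = 0 := by
      have h1 := congrArg (fun z : Ku × Kv × Kw => (z.1 : Fin 4 → ℂ)) h
      simp [Fin.sum_univ_two, e', e] at h1
      exact h1.resolve_right hu
    have h1 : g 1 = 0 := by
      have h1 := congrArg (fun z : Ku × Kv × Kw => (z.2.2 : Fin 4 → ℂ)) h
      simp [Fin.sum_univ_two, e', e] at h1
      exact h1.resolve_right hw
    intro i
    fin_cases i
    · exact h0
    · exact h1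
  have h2 : 2 ≤ Module.finrank ℂ (LinearMap.ker L) := by
    have := hind.fintype_card_le_finrank
    simpa using this
  have h3 := Submodule.finrank_mono hle
  omega

end MP9f7b43
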