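import Pool.Agent.Lib.MP_9f7b43_nt.G.Kernel
import Pool.Agent.Lib.MP_9f7b43_nt.Data
import Pool.Agent.Lib.MP_9f7b43_nt.G.GradF
import Pool.Agent.Lib.MP_9f7b43_nt.G.TanDim

/-!
# MP_9f7b43_nt, part G: the tangent space has dimension at most 7 (abstract form)

The ideal is the kernel of a parametrisation whose coordinates are, after a linear change over
`ℂ`, the products `Z 0 i * Z 1 j * Z 2 k` with `F (Z s) = 0`.
-/

namespace MP9f7b43

open MvPolynomial

section Deriv

variable {σ : Type} [Fintype σ]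

/-- The derivative of `q` at `x` in the direction `v`. -/
noncomputable def DD (x v : σ → ℂ) (q : MvPolynomial σ ℂ) : ℂ := ∑ i, eval x (pderiv i q) * v i

theorem DD_add (x v : σ → ℂ) (p q : MvPolynomial σ ℂ) :
    DD x v (p + q) = DD x v p + DD x v q := by
  simp [DD, add_mul, Finset.sum_add_distrib]

theorem DD_sub (x v : σ → ℂ) (p q : MvPolynomial σ ℂ) :
    DD x v (p - q) = DD x v p - DD x v q := by
  simp [DD, sub_mul, Finset.sum_sub_distrib]

theorem DD_mul (x v : σ → ℂ) (p q : MvPolynomial σ ℂ) :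
    DD x v (p * q) = eval x p * DD x v q + eval x q * DD x v p := by
  unfold DD
  rw [Finset.mul_sum, Finset.mul_sum, ← Finset.sum_add_distrib]
  refine Finset.sum_congr rfl fun i _ => ?_
  rw [pderiv_mul, map_add, map_mul, map_mul]
  ring

theorem DD_C (x v : σ → ℂ) (c : ℂ) : DD x v (C c) = 0 := by
  simp [DD]

theorem DD_one (x v : σ → ℂ) : DD x v 1 = 0 := by
  simp [DD]

theorem DD_natCast (x v : σ → ℂ) (n : ℕ) : DD x v (n : MvPolynomial σ ℂ) = 0 := by
  have : (n : MvPolynomial σ ℂ) = C (n : ℂ) := by simp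
  rw [this, DD_C]

theorem DD_ofNat (x v : σ → ℂ) (n : ℕ) [n.AtLeastTwo] :
    DD x v (OfNat.ofNat n : MvPolynomial σ ℂ) = 0 :=
  DD_natCast x v n

theorem DD_X (x v : σ → ℂ) (i : σ) : DD x v (X i) = v i := by
  classical
  unfold DD
  rw [Finset.sum_eq_single i]
  · simp
  · intro j _ hj
    rw [pderiv_X_of_ne (Ne.symm hj)]
    simp
  · intro h
    exact absurd (Finset.mem_univ i) h

theorem DD_sum (x v : σ → ℂ) {τ : Type*} (s : Finset τ) (f : τ → MvPolynomial σ ℂ) :
    DD x v (∑ t ∈ s, f t) = ∑ t ∈ s, DD x v (f t) := by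
  classical
  induction s using Finset.induction_on with
  | empty => simp [DD]
  | insert a s ha ih => rw [Finset.sum_insert ha, Finset.sum_insert ha, DD_add, ih]

end Deriv

/-- The gradient functional of the cubic form `F` at the point `u`. -/
noncomputable def gradF (u : Fin 4 → ℂ) : (Fin 4 → ℂ) →ₗ[ℂ] ℂ where
  toFun a :=
    ((2 * u 0 - u 1) * u 2 + 12 * u 0 ^ 2 - 30 * u 0 * u 1 + 3 * u 1 ^ 2) * a 0
    + ((2 * u 1 - u 0) * u 2 - 15 * u 0 ^ 2 + 6 * u 0 * u 1 + 12 * u 1 ^ 2) * a 1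
    + (u 0 ^ 2 - u 0 * u 1 + u 1 ^ 2 + 2 * u 2 * u 3 + 56 * u 3 ^ 2) * a 2
    + (u 2 ^ 2 + 112 * u 2 * u 3 + 2793 * u 3 ^ 2) * a 3
  map_add' a b := by simp only [Pi.add_apply]; ring
  map_smul' c a := by simp only [Pi.smul_apply, smul_eq_mul, RingHom.id_apply]; ring

theorem gradF_apply (u a : Fin 4 → ℂ) : gradF u a =
    ((2 * u 0 - u 1) * u 2 + 12 * u 0 ^ 2 - 30 * u 0 * u 1 + 3 * u 1 ^ 2) * a 0
    + ((2 * u 1 - u 0) * u 2 - 15 * u 0 ^ 2 + 6 * u 0 * u 1 + 12 * u 1 ^ 2) * a 1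
    + (u 0 ^ 2 - u 0 * u 1 + u 1 ^ 2 + 2 * u 2 * u 3 + 56 * u 3 ^ 2) * a 2
    + (u 2 ^ 2 + 112 * u 2 * u 3 + 2793 * u 3 ^ 2) * a 3 := rfl

theorem gradF_self (u : Fin 4 → ℂ) : gradF u u = 3 * C31.F (u 0) (u 1) (u 2) (u 3) := by
  rw [gradF_apply]
  unfold C31.F
  ring

theorem gradF_ne_zero {u : Fin 4 → ℂ} (hu : u ≠ 0) : gradF u ≠ 0 := by
  intro h
  apply hu
  have h0 : gradF u ![1, 0, 0, 0] = 0 := by rw [h]; rfl
  have h1 : gradF u ![0, 1, 0, 0] = 0 := by rw [h]; rfl
  have h2 : gradF u ![0, 0, 1, 0] = 0 := by rw [h]; rfl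
  have h3 : gradF u ![0, 0, 0, 1] = 0 := by rw [h]; rfl
  rw [gradF_apply] at h0 h1 h2 h3
  simp at h0 h1 h2 h3
  obtain ⟨a, b, c, d⟩ := grad_zero h0 h1 h2 h3
  funext i
  fin_cases i
  · exact a
  · exact b
  · exact c
  · exact d

theorem DD_F {σ : Type} [Fintype σ] (x v : σ → ℂ) (p : Fin 4 → MvPolynomial σ ℂ) :
    DD x v (C31.F (p 0) (p 1) (p 2) (p 3)) =
      gradF (fun i => eval x (p i)) (fun i => DD x v (p i)) := by
  rw [gradF_apply]
  unfold C31.F
  have h3 : DD x v (3 : MvPolynomial σ ℂ) = 0 := DD_ofNat x v 3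
  have h4 : DD x v (4 : MvPolynomial σ ℂ) = 0 := DD_ofNat x v 4
  have h15 : DD x v (15 : MvPolynomial σ ℂ) = 0 := DD_ofNat x v 15
  have h56 : DD x v (56 : MvPolynomial σ ℂ) = 0 := DD_ofNat x v 56
  have h931 : DD x v (931 : MvPolynomial σ ℂ) = 0 := DD_ofNat x v 931
  simp only [pow_succ, pow_zero, one_mul, DD_add, DD_sub, DD_mul, h3, h4, h15, h56, h931,
    map_mul, map_add, map_sub, map_ofNat]
  ring

/-- The linear form with coefficients `s`. -/
noncomputable def linForm {σ : Type} [Fintype σ] (s : σ → ℂ) : MvPolynomial σ ℂ :=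
  ∑ J, C (s J) * X J

theorem eval_linForm {σ : Type} [Fintype σ] (s x : σ → ℂ) :
    eval x (linForm s) = ∑ J, s J * x J := by
  simp [linForm]

theorem DD_linForm {σ : Type} [Fintype σ] (s x v : σ → ℂ) :
    DD x v (linForm s) = ∑ J, s J * v J := by
  simp [linForm, DD_sum, DD_mul, DD_C, DD_X]

/-- The tangent space has dimension at most `7`. -/
theorem tangent_le_seven {σ κ : Type} [Fintype σ] (ψ : σ → MvPolynomial κ ℚ)
    (S : Fin 4 → Fin 4 → Fin 4 → σ → ℂ) (E : σ → Fin 4 → Fin 4 → Fin 4 → ℂ)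
    (Z : Fin 3 → Fin 4 → MvPolynomial κ ℂ)
    (hF : ∀ s, C31.F (Z s 0) (Z s 1) (Z s 2) (Z s 3) = 0)
    (hL : ∀ i j k, psiHom ℂ ψ (linForm (S i j k)) =
      Polynomial.C (Z 0 i * Z 1 j * Z 2 k) * Polynomial.X)
    (hE : ∀ J, psiHom ℂ ψ (X J) = ∑ i, ∑ j, ∑ k,
      Polynomial.C (C (E J i j k)) * (Polynomial.C (Z 0 i * Z 1 j * Z 2 k) * Polynomial.X))
    (x : σ → ℂ) (hx0 : x ≠ 0) (hx : ∀ g ∈ kerIdeal ψ, aeval x g = 0)
    (V : Submodule ℂ (σ → ℂ))
    (hV : ∀ v ∈ V, ∀ g ∈ kerIdeal ψ, ∑ i, aeval x (pderiv i g) * v i = 0) :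
    Module.finrank ℂ V ≤ 7 := by
  -- membership in the complex ideal
  have hz : ∀ q : MvPolynomial σ ℂ, psiHom ℂ ψ q = 0 → eval x q = 0 := fun q hq =>
    eval_eq_zero_of_mem_map _ x hx q (mem_map_of_psiHom_eq_zero ψ q hq)
  have hd : ∀ q : MvPolynomial σ ℂ, psiHom ℂ ψ q = 0 → ∀ v ∈ V, DD x v q = 0 :=
    fun q hq v hv => sum_pderiv_eq_zero_of_mem_map _ x v hx (hV v hv) q
      (mem_map_of_psiHom_eq_zero ψ q hq)
  set L : Fin 4 → Fin 4 → Fin 4 → MvPolynomial σ ℂ := fun i j k => linForm (S i j k) with hLdef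
  set t : Fin 4 → Fin 4 → Fin 4 → ℂ := fun i j k => eval x (L i j k) with htdef
  -- the polynomials of the ideal
  have q1 : ∀ J, psiHom ℂ ψ (X J - ∑ i, ∑ j, ∑ k, C (E J i j k) * L i j k) = 0 := by
    intro J
    rw [map_sub, hE J, map_sum]
    simp only [map_sum, map_mul]
    rw [sub_eq_zero]
    refine Finset.sum_congr rfl fun i _ => Finset.sum_congr rfl fun j _ =>
      Finset.sum_congr rfl fun k _ => ?_
    have h1 : psiHom ℂ ψ (L i j k) = Polynomial.C (Z 0 i * Z 1 j * Z 2 k) * Polynomial.X :=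
      hL i j k
    have h2 : psiHom ℂ ψ (C (E J i j k)) = Polynomial.C (C (E J i j k)) := by
      unfold psiHom
      rw [aeval_C]
      rfl
    rw [h1, h2]
    simp only [map_mul]
  have q2 : ∀ a b c i j k, psiHom ℂ ψ (L i j k * L a b c ^ 2 - L i b c * L a j c * L a b k) = 0 := by
    intro a b c i j k
    simp only [map_sub, map_mul, map_pow, hLdef, hL]
    ring
  have q3 : ∀ b c, psiHom ℂ ψ (C31.F (L 0 b c) (L 1 b c) (L 2 b c) (L 3 b c)) = 0 := by
    intro b c
    have h0 := congrArg (fun p => Polynomial.C p) (hF 0)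
    simp only [map_zero] at h0
    rw [C31.map_F (Polynomial.C : MvPolynomial κ ℂ →+* Polynomial (MvPolynomial κ ℂ))] at h0
    have h1 : psiHom ℂ ψ (C31.F (L 0 b c) (L 1 b c) (L 2 b c) (L 3 b c)) =
        C31.F (psiHom ℂ ψ (L 0 b c)) (psiHom ℂ ψ (L 1 b c)) (psiHom ℂ ψ (L 2 b c))
          (psiHom ℂ ψ (L 3 b c)) :=
      C31.map_F (psiHom ℂ ψ : MvPolynomial σ ℂ →+* Polynomial (MvPolynomial κ ℂ)) _ _ _ _
    rw [h1]
    simp only [hLdef, hL]
    have h2 : C31.F (Polynomial.C (Z 0 0 * Z 1 b * Z 2 c) * Polynomial.X)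
        (Polynomial.C (Z 0 1 * Z 1 b * Z 2 c) * Polynomial.X)
        (Polynomial.C (Z 0 2 * Z 1 b * Z 2 c) * Polynomial.X)
        (Polynomial.C (Z 0 3 * Z 1 b * Z 2 c) * Polynomial.X) =
        (Polynomial.C (Z 1 b * Z 2 c) * Polynomial.X) ^ 3 *
          C31.F (Polynomial.C (Z 0 0)) (Polynomial.C (Z 0 1)) (Polynomial.C (Z 0 2))
            (Polynomial.C (Z 0 3)) := by
      unfold C31.F
      simp only [map_mul]
      ring
    rw [h2, h0, mul_zero]
  have q4 : ∀ a c, psiHom ℂ ψ (C31.F (L a 0 c) (L a 1 c) (L a 2 c) (L a 3 c)) = 0 := by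
    intro b c
    have h0 := congrArg (fun p => Polynomial.C p) (hF 1)
    simp only [map_zero] at h0
    rw [C31.map_F (Polynomial.C : MvPolynomial κ ℂ →+* Polynomial (MvPolynomial κ ℂ))] at h0
    have h1 : psiHom ℂ ψ (C31.F (L b 0 c) (L b 1 c) (L b 2 c) (L b 3 c)) =
        C31.F (psiHom ℂ ψ (L b 0 c)) (psiHom ℂ ψ (L b 1 c)) (psiHom ℂ ψ (L b 2 c))
          (psiHom ℂ ψ (L b 3 c)) :=
      C31.map_F (psiHom ℂ ψ : MvPolynomial σ ℂ →+* Polynomial (MvPolynomial κ ℂ)) _ _ _ _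
    rw [h1]
    simp only [hLdef, hL]
    have h2 : C31.F (Polynomial.C (Z 0 b * Z 1 0 * Z 2 c) * Polynomial.X)
        (Polynomial.C (Z 0 b * Z 1 1 * Z 2 c) * Polynomial.X)
        (Polynomial.C (Z 0 b * Z 1 2 * Z 2 c) * Polynomial.X)
        (Polynomial.C (Z 0 b * Z 1 3 * Z 2 c) * Polynomial.X) =
        (Polynomial.C (Z 0 b * Z 2 c) * Polynomial.X) ^ 3 *
          C31.F (Polynomial.C (Z 1 0)) (Polynomial.C (Z 1 1)) (Polynomial.C (Z 1 2))
            (Polynomial.C (Z 1 3)) := by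
      unfold C31.F
      simp only [map_mul]
      ring
    rw [h2, h0, mul_zero]
  have q5 : ∀ a b, psiHom ℂ ψ (C31.F (L a b 0) (L a b 1) (L a b 2) (L a b 3)) = 0 := by
    intro b c
    have h0 := congrArg (fun p => Polynomial.C p) (hF 2)
    simp only [map_zero] at h0
    rw [C31.map_F (Polynomial.C : MvPolynomial κ ℂ →+* Polynomial (MvPolynomial κ ℂ))] at h0
    have h1 : psiHom ℂ ψ (C31.F (L b c 0) (L b c 1) (L b c 2) (L b c 3)) =
        C31.F (psiHom ℂ ψ (L b c 0)) (psiHom ℂ ψ (L b c 1)) (psiHom ℂ ψ (L b c 2))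
          (psiHom ℂ ψ (L b c 3)) :=
      C31.map_F (psiHom ℂ ψ : MvPolynomial σ ℂ →+* Polynomial (MvPolynomial κ ℂ)) _ _ _ _
    rw [h1]
    simp only [hLdef, hL]
    have h2 : C31.F (Polynomial.C (Z 0 b * Z 1 c * Z 2 0) * Polynomial.X)
        (Polynomial.C (Z 0 b * Z 1 c * Z 2 1) * Polynomial.X)
        (Polynomial.C (Z 0 b * Z 1 c * Z 2 2) * Polynomial.X)
        (Polynomial.C (Z 0 b * Z 1 c * Z 2 3) * Polynomial.X) =
        (Polynomial.C (Z 0 b * Z 1 c) * Polynomial.X) ^ 3 *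
          C31.F (Polynomial.C (Z 2 0)) (Polynomial.C (Z 2 1)) (Polynomial.C (Z 2 2))
            (Polynomial.C (Z 2 3)) := by
      unfold C31.F
      simp only [map_mul]
      ring
    rw [h2, h0, mul_zero]
  -- the zero `x`
  have z1 : ∀ J, x J = ∑ i, ∑ j, ∑ k, E J i j k * t i j k := by
    intro J
    have := hz _ (q1 J)
    rw [map_sub, eval_X, sub_eq_zero] at this
    rw [this]
    simp only [map_sum, map_mul, eval_C, htdef]
  obtain ⟨a, b, c, habc⟩ : ∃ a b c, t a b c ≠ 0 := by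
    by_contra hcon
    push Not at hcon
    apply hx0
    funext J
    rw [z1 J]
    simp [hcon]
  have z3 : C31.F (t 0 b c) (t 1 b c) (t 2 b c) (t 3 b c) = 0 := by
    have := hz _ (q3 b c)
    rwa [C31.map_F (eval x)] at this
  have z4 : C31.F (t a 0 c) (t a 1 c) (t a 2 c) (t a 3 c) = 0 := by
    have := hz _ (q4 a c)
    rwa [C31.map_F (eval x)] at this
  have z5 : C31.F (t a b 0) (t a b 1) (t a b 2) (t a b 3) = 0 := by
    have := hz _ (q5 a b)
    rwa [C31.map_F (eval x)] at this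
  have z2 : ∀ i j k, t i j k * t a b c ^ 2 = t i b c * t a j c * t a b k := by
    intro i j k
    have := hz _ (q2 a b c i j k)
    simp only [map_sub, map_mul, map_pow, sub_eq_zero] at this
    exact this
  -- the linear map
  let El : (Fin 4 → Fin 4 → Fin 4 → ℂ) →ₗ[ℂ] (σ → ℂ) :=
    { toFun := fun s J => (t a b c ^ 2)⁻¹ * ∑ i, ∑ j, ∑ k, E J i j k * s i j k
      map_add' := by
        intro s s'
        funext J
        simp only [Pi.add_apply, mul_add, Finset.sum_add_distrib]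
      map_smul' := by
        intro r s
        funext J
        simp only [Pi.smul_apply, smul_eq_mul, RingHom.id_apply]
        rw [← mul_assoc, mul_comm r, mul_assoc]
        congr 1
        simp only [Finset.mul_sum]
        refine Finset.sum_congr rfl fun i _ => Finset.sum_congr rfl fun j _ =>
          Finset.sum_congr rfl fun k _ => ?_
        ring }
  refine tangent_dim El V (fun i => t i b c) (fun j => t a j c) (fun k => t a b k)
    (fun h => habc (congrFun h a)) (fun h => habc (congrFun h b)) (fun h => habc (congrFun h c))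
    (gradF fun i => t i b c) (gradF fun j => t a j c) (gradF fun k => t a b k)
    (gradF_ne_zero fun h => habc (congrFun h a)) (gradF_ne_zero fun h => habc (congrFun h b))
    (gradF_ne_zero fun h => habc (congrFun h c))
    (by rw [gradF_self, z3, mul_zero]) (by rw [gradF_self, z4, mul_zero])
    (by rw [gradF_self, z5, mul_zero]) ?_
  intro v hv
  set τ : Fin 4 → Fin 4 → Fin 4 → ℂ := fun i j k => DD x v (L i j k) with hτ
  have d1 : ∀ J, v J = ∑ i, ∑ j, ∑ k, E J i j k * τ i j k := by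
    intro J
    have := hd _ (q1 J) v hv
    rw [DD_sub, DD_X, sub_eq_zero] at this
    rw [this]
    simp only [DD_sum, DD_mul, DD_C, eval_C, mul_zero, add_zero, hτ]
  have d2 : ∀ i j k, τ i j k * t a b c ^ 2 + 2 * t i j k * t a b c * τ a b c =
      τ i b c * t a j c * t a b k + t i b c * τ a j c * t a b k + t i b c * t a j c * τ a b k := by
    intro i j k
    have := hd _ (q2 a b c i j k) v hv
    simp only [DD_sub, DD_mul, pow_two, map_mul] at this
    simp only [hτ, htdef]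
    linear_combination this
  have d3 : gradF (fun i => t i b c) (fun i => τ i b c) = 0 := by
    have := hd _ (q3 b c) v hv
    rwa [DD_F x v (fun i => L i b c)] at this
  have d4 : gradF (fun j => t a j c) (fun j => τ a j c) = 0 := by
    have := hd _ (q4 a c) v hv
    rwa [DD_F x v (fun j => L a j c)] at this
  have d5 : gradF (fun k => t a b k) (fun k => τ a b k) = 0 := by
    have := hd _ (q5 a b) v hv
    rwa [DD_F x v (fun k => L a b k)] at this
  refine ⟨(fun i => τ i b c) - (2 * τ a b c / t a b c) • (fun i => t i b c),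
    fun j => τ a j c, fun k => τ a b k, ?_, d4, d5, ?_⟩
  · rw [map_sub, map_smul, d3, gradF_self, z3]
    simp
  · funext J
    rw [d1 J]
    show _ = (t a b c ^ 2)⁻¹ * ∑ i, ∑ j, ∑ k, E J i j k * _
    rw [Finset.mul_sum]
    refine Finset.sum_congr rfl fun i _ => ?_
    rw [Finset.mul_sum]
    refine Finset.sum_congr rfl fun j _ => ?_
    rw [Finset.mul_sum]
    refine Finset.sum_congr rfl fun k _ => ?_
    have hkey : (dSeg (fun i => t i b c) (fun j => t a j c) (fun k => t a b k)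
        ((fun i => τ i b c) - (2 * τ a b c / t a b c) • (fun i => t i b c),
          (fun j => τ a j c), (fun k => τ a b k))) i j k = τ i j k * t a b c ^ 2 := by
      simp only [dSeg, LinearMap.coe_mk, AddHom.coe_mk, Pi.sub_apply, Pi.smul_apply, smul_eq_mul]
      have e1 := d2 i j k
      have e2 := z2 i j k
      field_simp
      linear_combination (-t a b c) * e1 + 2 * τ a b c * e2
    rw [hkey]
    field_simp

end MP9f7b43
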