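import Pool.Agent.Lib.MP_9f7b43_nt.G.Dist
import Pool.Agent.Lib.MP_9f7b43_nt.G.Hgt

/-!
# Upper bounds for distance and height of the points `x(z)`, `z` integral (part G of MP_9f7b43_nt)
-/

namespace MP9f7b43

open C31

/-- The statement used in part D. -/
theorem upBound : ∃ C : ℝ, 1 ≤ C ∧ ∀ (z : Fin 4 → Cub ℤ)
    (h : (xJ fun k => Cub.map (Int.castRingHom ℚ) (z k)) ≠ 0) (η : ℝ), 0 ≤ η → η ≤ 1 →
    (∀ j : Fin 3, ∀ k : Fin 4, k ≠ 2 → ‖emb (Int.castRingHom ℂ) j (z k)‖ ≤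
      η * ‖emb (Int.castRingHom ℂ) j (z 2)‖) →
    chordal (Projectivization.mk ℚ PV PV_ne_zero) (Projectivization.mk ℚ _ h) ≤ C * η ∧
    (Projectivization.mk ℚ _ h).mulHeight ≤
      C * ∏ j : Fin 3, ‖emb (Int.castRingHom ℂ) j (z 2)‖ := by
  refine ⟨384, by norm_num, fun z h η hη0 hη1 hz => ?_⟩
  have he : ∀ (j : Fin 3) (x : Cub ℤ),
      eK j (Cub.map (Int.castRingHom ℚ) x) = emb (Int.castRingHom ℂ) j x := by
    intro j x
    rw [emb_apply, emb_apply]
    simp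
  have h1 := up_chordal (fun k => Cub.map (Int.castRingHom ℚ) (z k)) h η hη0 hη1
    (fun j k hk => by rw [he, he]; exact hz j k hk)
  simp only [he] at h1
  refine ⟨h1.1.trans ?_, ?_⟩
  · nlinarith
  · have hx : (xJ fun k => Cub.map (Int.castRingHom ℚ) (z k)) = castV (xJ z) := by
      funext J
      rw [← map_xJ]
      rfl
    have h2 : ∀ (x : Idx → ℚ) (hx0 : x ≠ 0), x = castV (xJ z) →
        (Projectivization.mk ℚ x hx0).mulHeight ≤ vsup x := by
      rintro x hx0 rfl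
      exact mulHeight_mk_intCast_le hx0
    exact (h2 _ h hx).trans h1.2

end MP9f7b43
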